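import Pool.Agent.H88.RO.FP

set_option autoImplicit false

/-! # A clocked universal machine -/

namespace Pool.Agent.H88.RO

open Tr

variable {O : List Bool → Bool}

@[simp] theorem fst_node (a b : Tr) : fst (node a b) = a := rfl
@[simp] theorem snd_node (a b : Tr) : snd (node a b) = b := rfl
@[simp] theorem fst_leaf : fst leaf = leaf := rfl
@[simp] theorem snd_leaf : snd leaf = leaf := rfl

/-- unary numerals -/
def num : ℕ → Tr
  | 0 => leaf
  | n + 1 => node leaf (num n)

/-- the code of a program -/
def code : Prog → Tr
  | .id => node (num 0) leaf
  | .nil => node (num 1) leaf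
  | .fst => node (num 2) leaf
  | .snd => node (num 3) leaf
  | .query => node (num 4) leaf
  | .pair f g => node (num 5) (node (code f) (code g))
  | .comp f g => node (num 6) (node (code f) (code g))
  | .cond f g => node (num 7) (node (code f) (code g))
  | .loop f => node (num 8) (code f)

/-- return step: pop a frame -/
def stepRet (v k : Tr) : Tr :=
  if fst (fst k) = leaf then
    node (fst (snd (fst k))) (node (snd (snd (fst k))) (node (node (num 1) v) (snd k)))
  else if snd (fst (fst k)) = leaf then node leaf (node (node (snd (fst k)) v) (snd k))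
  else node (snd (fst k)) (node v (snd k))

/-- evaluation step -/
def stepEv (O : List Bool → Bool) (c v k : Tr) : Tr :=
  if fst c = leaf then node leaf (node v k)
  else if snd (fst c) = leaf then node leaf (node leaf k)
  else if snd (snd (fst c)) = leaf then node leaf (node (fst v) k)
  else if snd (snd (snd (fst c))) = leaf then node leaf (node (snd v) k)
  else if snd (snd (snd (snd (fst c)))) = leaf then node leaf (node (bit (O (dec v))) k)
  else if snd (snd (snd (snd (snd (fst c))))) = leaf then
    node (fst (snd c)) (node v (node (node (num 0) (node (snd (snd c)) v)) k))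
  else if snd (snd (snd (snd (snd (snd (fst c)))))) = leaf then
    node (snd (snd c)) (node v (node (node (num 2) (fst (snd c))) k))
  else if snd (snd (snd (snd (snd (snd (snd (fst c))))))) = leaf then
    (if fst v = leaf then node (fst (snd c)) (node (snd v) k)
      else node (snd (snd c)) (node (snd v) k))
  else
    (if fst v = leaf then node leaf (node (snd v) k)
      else node (snd c) (node v (node (node (num 2) c) k)))

/-- one step of the machine; states are `node c (node v k)` with control `c` (`leaf`: return
mode), value `v` and stack `k` -/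
def step (O : List Bool → Bool) (s : Tr) : Tr :=
  if fst s = leaf then
    (if snd (snd s) = leaf then s else stepRet (fst (snd s)) (snd (snd s)))
  else stepEv O (fst s) (fst (snd s)) (snd (snd s))

/-- capped step -/
def cstep (O : List Bool → Bool) (K : ℕ) (s : Tr) : Tr :=
  if size s ≤ K then step O s else leaf

/-- the output of a final state (`leaf` if the state is not final, `node leaf w` if it is final
with value `w`) -/
def out (K : ℕ) (s : Tr) : Tr :=
  if size s ≤ K then
    (if s = leaf then leaf else if fst s = leaf then
      (if snd (snd s) = leaf then node leaf (fst (snd s)) else leaf) else leaf)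
  else leaf

/-- the clocked universal machine: `node leaf w` if the program coded by `c` maps `v` to `w`
within resources `K`, else `leaf` -/
def U (O : List Bool → Bool) (c v : Tr) (K : ℕ) : Tr :=
  out K ((cstep O K)^[K] (node c (node v leaf)))

theorem size_num (n : ℕ) : size (num n) = 2 * n + 1 := by
  induction n with
  | zero => rfl
  | succ n ih => simp only [num, size, ih]; ring

theorem len_num (n : ℕ) : len (num n) = n := by
  induction n with
  | zero => rfl
  | succ n ih => simp only [num, len, ih]

theorem cstep_iter_succ (K n : ℕ) (s s' : Tr) (h : size s ≤ K) (hs : step O s = s') :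
    (cstep O K)^[n + 1] s = (cstep O K)^[n] s' := by
  rw [Function.iterate_succ_apply, cstep, if_pos h, hs]

theorem cstep_iter_halt (K n : ℕ) (w : Tr) (h : size (node leaf (node w leaf)) ≤ K) :
    (cstep O K)^[n] (node leaf (node w leaf)) = node leaf (node w leaf) := by
  induction n with
  | zero => rfl
  | succ n ih => rw [cstep_iter_succ K n _ (node leaf (node w leaf)) h (by simp [step]), ih]

/-- **Simulation.** -/
theorem simul {c : Prog} {v w : Tr} {t : ℕ} (h : Eval O c v w t) :
    ∀ (W K : ℕ) (k : Tr), size (code c) + 10 ≤ W → W * t + size k ≤ K →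
      ∃ n ≤ 2 * t, (cstep O K)^[n] (node (code c) (node v k)) = node leaf (node w k) := by
  induction h with
  | id v =>
    intro W K k hW hK
    refine ⟨1, by omega, ?_⟩
    have h1 : W * (size v + 1) = W * size v + W := by ring
    have h2 : size v ≤ W * size v := Nat.le_mul_of_pos_left _ (by omega)
    rw [cstep_iter_succ K 0 _ (node leaf (node v k))]
    · rfl
    · simp only [size]; omega
    · simp [step, stepEv, code, num]
  | nil v =>
    intro W K k hW hK
    refine ⟨1, by omega, ?_⟩
    have h1 : W * (size v + 1) = W * size v + W := by ring
    have h2 : size v ≤ W * size v := Nat.le_mul_of_pos_left _ (by omega)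
    rw [cstep_iter_succ K 0 _ (node leaf (node leaf k))]
    · rfl
    · simp only [size]; omega
    · simp [step, stepEv, code, num]
  | fst v =>
    intro W K k hW hK
    refine ⟨1, by omega, ?_⟩
    have h1 : W * (size v + 1) = W * size v + W := by ring
    have h2 : size v ≤ W * size v := Nat.le_mul_of_pos_left _ (by omega)
    rw [cstep_iter_succ K 0 _ (node leaf (node (Tr.fst v) k))]
    · rfl
    · simp only [size]; omega
    · simp [step, stepEv, code, num]
  | snd v =>
    intro W K k hW hK
    refine ⟨1, by omega, ?_⟩
    have h1 : W * (size v + 1) = W * size v + W := by ring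
    have h2 : size v ≤ W * size v := Nat.le_mul_of_pos_left _ (by omega)
    rw [cstep_iter_succ K 0 _ (node leaf (node (Tr.snd v) k))]
    · rfl
    · simp only [size]; omega
    · simp [step, stepEv, code, num]
  | query v =>
    intro W K k hW hK
    refine ⟨1, by omega, ?_⟩
    have h1 : W * (size v + 1) = W * size v + W := by ring
    have h2 : size v ≤ W * size v := Nat.le_mul_of_pos_left _ (by omega)
    rw [cstep_iter_succ K 0 _ (node leaf (node (bit (O (dec v))) k))]
    · rfl
    · simp only [size]; omega
    · simp [step, stepEv, code, num]
  | @pair f g v a b s t hf hg ihf ihg =>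
    intro W K k hW hK
    simp only [code, size] at hW
    have hsn : size (num 5) = 11 := size_num 5
    have e1 : W * (s + t + size v + 1) = W * s + W * t + W * size v + W := by ring
    have h2 : size v ≤ W * size v := Nat.le_mul_of_pos_left _ (by omega)
    have h3 : 2 * s ≤ W * s := Nat.mul_le_mul_right _ (by omega)
    have h4 : 2 * t ≤ W * t := Nat.mul_le_mul_right _ (by omega)
    have ha := hf.size_le
    have hb := hg.size_le
    have hn0 : size (num 0) = 1 := size_num 0
    have hn1 : size (num 1) = 3 := size_num 1
    obtain ⟨n1, hn1', e⟩ := ihf W K (node (node (num 0) (node (code g) v)) k) (by omega)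
      (by simp only [size]; omega)
    obtain ⟨n2, hn2', e'⟩ := ihg W K (node (node (num 1) a) k) (by omega)
      (by simp only [size]; omega)
    refine ⟨1 + n2 + 1 + n1 + 1, by have := size_pos v; omega, ?_⟩
    rw [cstep_iter_succ K _ _ (node (code f) (node v (node (node (num 0) (node (code g) v)) k)))]
    rotate_left
    · simp only [code, size]; omega
    · simp [step, stepEv, code, num]
    rw [Function.iterate_add_apply (cstep O K) (1 + n2 + 1) n1, e]
    rw [cstep_iter_succ K _ _ (node (code g) (node v (node (node (num 1) a) k)))]
    rotate_left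
    · simp only [size]; omega
    · simp [step, stepRet, num]
    rw [Function.iterate_add_apply (cstep O K) 1 n2, e']
    rw [cstep_iter_succ K 0 _ (node leaf (node (node a b) k))]
    · rfl
    · simp only [size]; omega
    · simp [step, stepRet, num]
  | @comp f g v a b s t hg hf ihg ihf =>
    intro W K k hW hK
    simp only [code, size] at hW
    have hsn : size (num 6) = 13 := size_num 6
    have e1 : W * (s + t + size v + 1) = W * s + W * t + W * size v + W := by ring
    have h2 : size v ≤ W * size v := Nat.le_mul_of_pos_left _ (by omega)
    have h3 : 2 * s ≤ W * s := Nat.mul_le_mul_right _ (by omega)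
    have h4 : 2 * t ≤ W * t := Nat.mul_le_mul_right _ (by omega)
    have ha := hg.size_le
    have hn2 : size (num 2) = 5 := size_num 2
    obtain ⟨n1, hn1', e⟩ := ihg W K (node (node (num 2) (code f)) k) (by omega)
      (by simp only [size]; omega)
    obtain ⟨n2, hn2', e'⟩ := ihf W K k (by omega) (by omega)
    refine ⟨n2 + 1 + n1 + 1, by have := size_pos v; omega, ?_⟩
    rw [cstep_iter_succ K _ _ (node (code g) (node v (node (node (num 2) (code f)) k)))]
    rotate_left
    · simp only [code, size]; omega
    · simp [step, stepEv, code, num]
    rw [Function.iterate_add_apply (cstep O K) (n2 + 1) n1, e]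
    rw [cstep_iter_succ K _ _ (node (code f) (node a k))]
    · exact e'
    · simp only [size]; omega
    · simp [step, stepRet, num]
  | @condNil f g v a s h hf ihf =>
    intro W K k hW hK
    simp only [code, size] at hW
    have e1 : W * (s + size v + 1) = W * s + W * size v + W := by ring
    have h2 : size v ≤ W * size v := Nat.le_mul_of_pos_left _ (by omega)
    obtain ⟨n1, hn1', e⟩ := ihf W K k (by omega) (by omega)
    refine ⟨n1 + 1, by omega, ?_⟩
    rw [cstep_iter_succ K _ _ (node (code f) (node (Tr.snd v) k))]
    · exact e
    · simp only [code, size]; omega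
    · simp [step, stepEv, code, num, h]
  | @condNode f g v a s h hg ihg =>
    intro W K k hW hK
    simp only [code, size] at hW
    have e1 : W * (s + size v + 1) = W * s + W * size v + W := by ring
    have h2 : size v ≤ W * size v := Nat.le_mul_of_pos_left _ (by omega)
    obtain ⟨n1, hn1', e⟩ := ihg W K k (by omega) (by omega)
    refine ⟨n1 + 1, by omega, ?_⟩
    rw [cstep_iter_succ K _ _ (node (code g) (node (Tr.snd v) k))]
    · exact e
    · simp only [code, size]; omega
    · simp [step, stepEv, code, num, h]
  | @loopDone f v h =>
    intro W K k hW hK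
    refine ⟨1, by omega, ?_⟩
    have h1 : W * (size v + 1) = W * size v + W := by ring
    have h2 : size v ≤ W * size v := Nat.le_mul_of_pos_left _ (by omega)
    rw [cstep_iter_succ K 0 _ (node leaf (node (Tr.snd v) k))]
    · rfl
    · simp only [size]; omega
    · simp [step, stepEv, code, num, h]
  | @loopStep f v a b s t h hf hl ihf ihl =>
    intro W K k hW hK
    have hW' := hW
    simp only [code, size] at hW
    have e1 : W * (s + t + size v + 1) = W * s + W * t + W * size v + W := by ring
    have h2 : size v ≤ W * size v := Nat.le_mul_of_pos_left _ (by omega)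
    have h3 : 2 * s ≤ W * s := Nat.mul_le_mul_right _ (by omega)
    have h4 : 2 * t ≤ W * t := Nat.mul_le_mul_right _ (by omega)
    have ha := hf.size_le
    have hn2 : size (num 2) = 5 := size_num 2
    obtain ⟨n1, hn1', e⟩ := ihf W K (node (node (num 2) (code (Prog.loop f))) k) (by omega)
      (by simp only [size]; omega)
    obtain ⟨n2, hn2', e'⟩ := ihl W K k hW' (by omega)
    refine ⟨n2 + 1 + n1 + 1, by have := size_pos v; omega, ?_⟩
    rw [cstep_iter_succ K _ _
      (node (code f) (node v (node (node (num 2) (code (Prog.loop f))) k)))]
    rotate_left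
    · simp only [size]; omega
    · simp [step, stepEv, code, num, h]
    rw [Function.iterate_add_apply (cstep O K) (n2 + 1) n1, e]
    rw [cstep_iter_succ K _ _ (node (code (Prog.loop f)) (node a k))]
    · exact e'
    · simp only [size]; omega
    · simp [step, stepRet, code, num]

theorem U_eq {c : Prog} {v w : Tr} {t K : ℕ} (h : Eval O c v w t)
    (hK : (size (code c) + 10) * t + 10 ≤ K) : U O (code c) v K = node leaf w := by
  have h3 : 10 * t ≤ (size (code c) + 10) * t := Nat.mul_le_mul_right _ (by omega)
  obtain ⟨n, hn, e⟩ := simul h (size (code c) + 10) K leaf le_rfl (by simp only [size]; omega)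
  have hw := h.size_le
  have h1 : (cstep O K)^[K] (node (code c) (node v leaf)) = node leaf (node w leaf) := by
    obtain ⟨m, rfl⟩ : ∃ m, K = m + n := ⟨K - n, by omega⟩
    rw [Function.iterate_add_apply, e]
    exact cstep_iter_halt _ _ _ (by simp only [size]; omega)
  have h2 : size (node leaf (node w leaf)) ≤ K := by simp only [size]; omega
  rw [U, h1, out, if_pos h2]
  simp

theorem size_of_U {c v w : Tr} {K : ℕ} (h : U O c v K = node leaf w) : size w ≤ K := by
  unfold U out at h
  split_ifs at h with h1 h2 h3 h4
  injection h with _ h
  rw [← h]
  exact ((size_fst_le _).trans (size_snd_le _)).trans h1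

theorem U_cases (c v : Tr) (K : ℕ) : U O c v K = leaf ∨ ∃ w, U O c v K = node leaf w := by
  unfold U out
  split_ifs <;> simp

/-! ### Locality -/

theorem length_dec (v : Tr) : (dec v).length = len v := by
  induction v with
  | leaf => rfl
  | node a b _ ih => simp [dec, len, ih]

theorem stepEv_congr {O' : List Bool → Bool} (c v k : Tr) (h : O' (dec v) = O (dec v)) :
    stepEv O' c v k = stepEv O c v k := by
  unfold stepEv
  rw [h]

theorem cstep_congr {O' : List Bool → Bool} {K : ℕ} (s : Tr)
    (h : size s ≤ K → O' (dec (fst (snd s))) = O (dec (fst (snd s)))) :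
    cstep O' K s = cstep O K s := by
  unfold cstep
  split_ifs with h1
  · unfold step
    rw [stepEv_congr _ _ _ (h h1)]
  · rfl

theorem cstep_iter_local (K n : ℕ) (s : Tr) :
    ∃ Q : Finset (List Bool), Q.card ≤ n ∧ (∀ q ∈ Q, q.length ≤ K) ∧
      ∀ O' : List Bool → Bool, (∀ q ∈ Q, O' q = O q) → (cstep O' K)^[n] s = (cstep O K)^[n] s := by
  classical
  induction n with
  | zero => exact ⟨∅, by simp, by simp, fun _ _ => rfl⟩
  | succ n ih =>
    obtain ⟨Q, hQ1, hQ2, hQ3⟩ := ih
    set s' := (cstep O K)^[n] s with hs'
    by_cases hsz : size s' ≤ K
    · refine ⟨insert (dec (fst (snd s'))) Q, (Finset.card_insert_le _ _).trans (by omega), ?_, ?_⟩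
      · intro q hq
        rw [Finset.mem_insert] at hq
        rcases hq with rfl | hq
        · rw [length_dec]
          have h1 := len_le_size (fst (snd s'))
          have h2 := size_fst_le (snd s')
          have h3 := size_snd_le s'
          omega
        · exact hQ2 q hq
      · intro O' hO'
        rw [Function.iterate_succ_apply', Function.iterate_succ_apply',
          hQ3 O' (fun q hq => hO' q (Finset.mem_insert_of_mem hq)), ← hs']
        exact cstep_congr _ (fun _ => hO' _ (Finset.mem_insert_self _ _))
    · refine ⟨Q, by omega, hQ2, ?_⟩
      intro O' hO'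
      rw [Function.iterate_succ_apply', Function.iterate_succ_apply', hQ3 O' hO', ← hs']
      exact cstep_congr _ (fun h => absurd h hsz)

/-- The clocked universal machine with resources `K` makes at most `K` queries, each of length
at most `K`. -/
theorem U_local (O : List Bool → Bool) (c v : Tr) (K : ℕ) :
    ∃ Q : Finset (List Bool), Q.card ≤ K ∧ (∀ q ∈ Q, q.length ≤ K) ∧
      ∀ O' : List Bool → Bool, (∀ q ∈ Q, O' q = O q) → U O' c v K = U O c v K := by
  obtain ⟨Q, h1, h2, h3⟩ := cstep_iter_local (O := O) K K (node c (node v leaf))
  refine ⟨Q, h1, h2, fun O' hO' => ?_⟩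
  unfold U
  rw [h3 O' hO']

theorem U_local' {O O' : List Bool → Bool} (c v : Tr) (K : ℕ)
    (h : ∀ q : List Bool, q.length ≤ K → O' q = O q) : U O' c v K = U O c v K := by
  obtain ⟨Q, _, h2, h3⟩ := U_local O c v K
  exact h3 O' (fun q hq => h q (h2 q hq))

end Pool.Agent.H88.RO
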