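import Pool.Agent.H88.RO.Progs

set_option autoImplicit false

/-! # Unary arithmetic, powers of two and towers -/

namespace Pool.Agent.H88.RO

open Tr

variable {O : List Bool → Bool}

theorem iter_node_leaf (n m : ℕ) : (fun s => node leaf s)^[n] (num m) = num (n + m) :=
  iter_node_leaf_num n m

theorem addU_num' (a : Tr) (m : ℕ) : addU a (num m) = num (len a + m) := by
  rw [addU, iter_node_leaf_num]

/-- unary length -/
def ulen (v : Tr) : Tr := addU v leaf

@[simp] theorem ulen_eq (v : Tr) : ulen v = num (len v) := by
  have := addU_num' v 0
  simpa [ulen, num] using this

theorem FP.ulen' {F : Tr → Tr} (hF : FP O F) : FP O (fun v => ulen (F v)) :=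
  FP.addU' hF FP.leaf'

/-- unary multiplication -/
def mulU (a b : Tr) : Tr :=
  fst ((fun s => node (addU (snd s) (ulen (fst s))) (snd s))^[len a] (node leaf b))

theorem mulU_iter (n m : ℕ) (b : Tr) :
    (fun s => node (addU (snd s) (ulen (fst s))) (snd s))^[n] (node (num m) b) =
      node (num (n * len b + m)) b := by
  induction n generalizing m with
  | zero => simp
  | succ n ih =>
    have e : node (addU (snd (node (num m) b)) (ulen (fst (node (num m) b)))) (snd (node (num m) b))
        = node (num (len b + m)) b := by
      simp only [snd_node, fst_node, ulen_eq, addU_num', len_num]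
    rw [Function.iterate_succ_apply, e, ih]
    congr 2
    ring

@[simp] theorem mulU_eq (a b : Tr) : mulU a b = num (len a * len b) := by
  have := mulU_iter (len a) 0 b
  simp only [num] at this
  rw [mulU, this]
  simp

theorem FP.mulU' {F G : Tr → Tr} (hF : FP O F) (hG : FP O G) :
    FP O (fun v => mulU (F v) (G v)) := by
  have h : FP O (fun v => (fun s => node (addU (snd s) (ulen (fst s))) (snd s))^[len (F v)]
      (node leaf (G v))) := by
    refine FP.iterate' (FP.node' (FP.addU' (by (repeat (first | with_reducible exact FP.id' | assumption | with_reducible apply FP.fst' | with_reducible apply FP.snd' | with_reducible apply FP.node' | with_reducible apply FP.query' | with_reducible apply FP.ite' | with_reducible exact FP.const' _))) (FP.ulen' (by (repeat (first | with_reducible exact FP.id' | assumption | with_reducible apply FP.fst' | with_reducible apply FP.snd' | with_reducible apply FP.node' | with_reducible apply FP.query' | with_reducible apply FP.ite' | with_reducible exact FP.const' _))))) (by (repeat (first | with_reducible exact FP.id' | assumption | with_reducible apply FP.fst' | with_reducible apply FP.snd' | with_reducible apply FP.node' | with_reducible apply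 FP.query' | with_reducible apply FP.ite' | with_reducible exact FP.const' _)))) hF
      (FP.node' FP.leaf' hG) ⟨4 * Polynomial.X * Polynomial.X + 4 * Polynomial.X + 10,
        fun n x i hi => ?_⟩
    have key : ∀ i, 1 ≤ i → (fun s => node (addU (snd s) (ulen (fst s))) (snd s))^[i] x =
        node (num (i * len (snd x) + len (fst x))) (snd x) := by
      intro i hi
      induction i with
      | zero => omega
      | succ i ih =>
        rw [Function.iterate_succ_apply']
        rcases Nat.eq_zero_or_pos i with rfl | hpos
        · simp only [Function.iterate_zero, id, ulen_eq, addU_num', zero_add, one_mul]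
        · rw [ih hpos]
          simp only [snd_node, fst_node, ulen_eq, addU_num', len_num]
          congr 2
          ring
    simp only [Polynomial.eval_add, Polynomial.eval_mul, Polynomial.eval_ofNat, Polynomial.eval_X]
    rcases Nat.eq_zero_or_pos i with rfl | hpos
    · simp only [Function.iterate_zero, id]
      have : size x ≤ 4 * (size n + size x) := by omega
      omega
    · rw [key i hpos]
      simp only [size, size_num]
      have h1 := len_le_size n
      have h2 := len_le_size (snd x)
      have h3 := size_snd_le x
      have h4 := len_le_size (fst x)
      have h5 := size_fst_le x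
      have h6 : i * len (snd x) ≤ (size n + size x) * (size n + size x) :=
        Nat.mul_le_mul (by omega) (by omega)
      have h7 : 4 * (size n + size x) * (size n + size x) =
        4 * ((size n + size x) * (size n + size x)) := by ring
      omega
  exact FP.fst' h

/-- unary powers with a constant exponent -/
def powU : ℕ → Tr → Tr
  | 0, _ => num 1
  | k + 1, v => mulU v (powU k v)

@[simp] theorem powU_eq (k : ℕ) (v : Tr) : powU k v = num (len v ^ k) := by
  induction k with
  | zero => simp [powU]
  | succ k ih => rw [powU, ih, mulU_eq, len_num, pow_succ']

theorem FP.powU' (k : ℕ) {F : Tr → Tr} (hF : FP O F) : FP O (fun v => powU k (F v)) := by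
  induction k with
  | zero => exact FP.const' _
  | succ k ih => exact FP.mulU' hF ih

/-- one doubling step -/
def dbl (s : Tr) : Tr :=
  if dropU (snd s) (addU (fst s) (ulen (fst s))) = leaf then
    node (addU (fst s) (ulen (fst s))) (snd s)
  else node (node leaf (ulen (snd s))) (snd s)

theorem dbl_eq (m : ℕ) (cap : Tr) :
    dbl (node (num m) cap) = node (num (min (2 * m) (len cap + 1))) cap := by
  unfold dbl
  simp only [fst_node, snd_node, ulen_eq, addU_num', len_num, dropU_eq_leaf]
  split_ifs with h
  · congr 2; omega
  · have : node leaf (num (len cap)) = num (len cap + 1) := rfl
    rw [this]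
    congr 2; omega

/-- `min (2 ^ len w) (len cap + 1)` in unary -/
def pow2cap (w cap : Tr) : Tr := fst (dbl^[len w] (node (num 1) cap))

theorem dbl_iter (n : ℕ) (cap : Tr) :
    dbl^[n] (node (num 1) cap) = node (num (min (2 ^ n) (len cap + 1))) cap := by
  induction n with
  | zero => simp
  | succ n ih =>
    rw [Function.iterate_succ_apply', ih, dbl_eq]
    congr 2
    rw [pow_succ']
    omega

@[simp] theorem pow2cap_eq (w cap : Tr) :
    pow2cap w cap = num (min (2 ^ len w) (len cap + 1)) := by
  rw [pow2cap, dbl_iter, fst_node]

theorem FP.pow2cap' {F G : Tr → Tr} (hF : FP O F) (hG : FP O G) :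
    FP O (fun v => pow2cap (F v) (G v)) := by
  have hd : FP O dbl := by
    unfold dbl
    refine FP.ite' (FP.dropU' (by (repeat (first | with_reducible exact FP.id' | assumption | with_reducible apply FP.fst' | with_reducible apply FP.snd' | with_reducible apply FP.node' | with_reducible apply FP.query' | with_reducible apply FP.ite' | with_reducible exact FP.const' _))) (FP.addU' (by (repeat (first | with_reducible exact FP.id' | assumption | with_reducible apply FP.fst' | with_reducible apply FP.snd' | with_reducible apply FP.node' | with_reducible apply FP.query' | with_reducible apply FP.ite' | with_reducible exact FP.const' _))) (FP.ulen' (by (repeat (first | with_reducible exact FP.id' | assumption | with_reducible apply FP.fst' | with_reducible apply FP.snd' | with_reducible apply FP.node' | with_reducible apply FP.query' | with_reducible apply FP.ite' | with_reducible exact FP.const' _))))))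
      (FP.node' (FP.addU' (by (repeat (first | with_reducible exact FP.id' | assumption | with_reducible apply FP.fst' | with_reducible apply FP.snd' | with_reducible apply FP.node' | with_reducible apply FP.query' | with_reducible apply FP.ite' | with_reducible exact FP.const' _))) (FP.ulen' (by (repeat (first | with_reducible exact FP.id' | assumption | with_reducible apply FP.fst' | with_reducible apply FP.snd' | with_reducible apply FP.node' | with_reducible apply FP.query' | with_reducible apply FP.ite' | with_reducible exact FP.const' _))))) (by (repeat (first | with_reducible exact FP.id' | assumption | with_reducible apply FP.fst' | with_reducible apply FP.snd' | with_reducible apply FP.node' | with_reducible apply FP.query' | with_reducible apply FP.ite' | with_reducible exact FP.const' _))))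
      (FP.node' (FP.node' (by (repeat (first | with_reducible exact FP.id' | assumption | with_reducible apply FP.fst' | with_reducible apply FP.snd' | with_reducible apply FP.node' | with_reducible apply FP.query' | with_reducible apply FP.ite' | with_reducible exact FP.const' _))) (FP.ulen' (by (repeat (first | with_reducible exact FP.id' | assumption | with_reducible apply FP.fst' | with_reducible apply FP.snd' | with_reducible apply FP.node' | with_reducible apply FP.query' | with_reducible apply FP.ite' | with_reducible exact FP.const' _))))) (by (repeat (first | with_reducible exact FP.id' | assumption | with_reducible apply FP.fst' | with_reducible apply FP.snd' | with_reducible apply FP.node' | with_reducible apply FP.query' | with_reducible apply FP.ite' | with_reducible exact FP.const' _))))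
  refine FP.fst' (FP.iterate' hd hF (FP.node' (FP.const' _) hG)
    ⟨3 * Polynomial.X + 10, fun n x i _ => ?_⟩)
  simp only [Polynomial.eval_add, Polynomial.eval_mul, Polynomial.eval_ofNat, Polynomial.eval_X]
  have h2 : ∀ i, snd (dbl^[i] x) = snd x := by
    intro i
    induction i with
    | zero => rfl
    | succ i ih =>
      rw [Function.iterate_succ_apply', dbl]
      split_ifs <;> simpa using ih
  have h3 := size_snd_le x
  have h4 := len_le_size (snd x)
  cases i with
  | zero => simp; omega
  | succ i =>
    rw [Function.iterate_succ_apply', dbl, h2 i]
    simp only [ulen_eq, addU_num', dropU_eq_leaf, len_num]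
    split_ifs with h
    · simp only [size, size_num]; omega
    · simp only [size, size_num]; omega

/-! ### towers -/

/-- the tower sequence -/
def tow (k a : ℕ) : ℕ → ℕ
  | 0 => a
  | i + 1 => 2 ^ (2 ^ (tow k a i) ^ k)

/-- one step of the tower search -/
def tstep (k : ℕ) (s : Tr) : Tr :=
  if dropU (fst s) (snd (snd s)) = leaf then s
  else node (pow2cap (pow2cap (powU k (fst s)) (snd (snd s))) (snd (snd s)))
    (node (node leaf (ulen (fst (snd s)))) (snd (snd s)))

/-- search for the index of a unary number in the tower sequence -/
def towT (k a : ℕ) (cap : Tr) : Tr := (tstep k)^[len cap] (node (num a) (node leaf cap))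

theorem FP.towT' (k a : ℕ) {F : Tr → Tr} (hF : FP O F) : FP O (fun v => towT k a (F v)) := by
  have hd : FP O (tstep k) := by
    unfold tstep
    refine FP.ite' (FP.dropU' (by (repeat (first | with_reducible exact FP.id' | assumption | with_reducible apply FP.fst' | with_reducible apply FP.snd' | with_reducible apply FP.node' | with_reducible apply FP.query' | with_reducible apply FP.ite' | with_reducible exact FP.const' _))) (by (repeat (first | with_reducible exact FP.id' | assumption | with_reducible apply FP.fst' | with_reducible apply FP.snd' | with_reducible apply FP.node' | with_reducible apply FP.query' | with_reducible apply FP.ite' | with_reducible exact FP.const' _)))) (by (repeat (first | with_reducible exact FP.id' | assumption | with_reducible apply FP.fst' | with_reducible apply FP.snd' | with_reducible apply FP.node' | with_reducible apply FP.query' | with_reducible apply FP.ite' | with_reducible exact FP.const' _)))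
      (FP.node' (FP.pow2cap' (FP.pow2cap' (FP.powU' k (by (repeat (first | with_reducible exact FP.id' | assumption | with_reducible apply FP.fst' | with_reducible apply FP.snd' | with_reducible apply FP.node' | with_reducible apply FP.query' | with_reducible apply FP.ite' | with_reducible exact FP.const' _)))) (by (repeat (first | with_reducible exact FP.id' | assumption | with_reducible apply FP.fst' | with_reducible apply FP.snd' | with_reducible apply FP.node' | with_reducible apply FP.query' | with_reducible apply FP.ite' | with_reducible exact FP.const' _)))) (by (repeat (first | with_reducible exact FP.id' | assumption | with_reducible apply FP.fst' | with_reducible apply FP.snd' | with_reducible apply FP.node' | with_reducible apply FP.query' | with_reducible apply FP.ite' | with_reducible exact FP.const' _))))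
        (FP.node' (FP.node' (by (repeat (first | with_reducible exact FP.id' | assumption | with_reducible apply FP.fst' | with_reducible apply FP.snd' | with_reducible apply FP.node' | with_reducible apply FP.query' | with_reducible apply FP.ite' | with_reducible exact FP.const' _))) (FP.ulen' (by (repeat (first | with_reducible exact FP.id' | assumption | with_reducible apply FP.fst' | with_reducible apply FP.snd' | with_reducible apply FP.node' | with_reducible apply FP.query' | with_reducible apply FP.ite' | with_reducible exact FP.const' _))))) (by (repeat (first | with_reducible exact FP.id' | assumption | with_reducible apply FP.fst' | with_reducible apply FP.snd' | with_reducible apply FP.node' | with_reducible apply FP.query' | with_reducible apply FP.ite' | with_reducible exact FP.const' _)))))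
  refine FP.iterate' hd hF (FP.node' (FP.const' _) (FP.node' FP.leaf' hF))
    ⟨8 * Polynomial.X + 20, fun n x i hi => ?_⟩
  simp only [Polynomial.eval_add, Polynomial.eval_mul, Polynomial.eval_ofNat, Polynomial.eval_X]
  have key : ∀ i, snd (snd ((tstep k)^[i] x)) = snd (snd x) ∧
      len (fst (snd ((tstep k)^[i] x))) ≤ len (fst (snd x)) + i ∧
      size ((tstep k)^[i] x) ≤ 4 * size x + 2 * i + 10 := by
    intro i
    induction i with
    | zero => refine ⟨rfl, by simp, by simp; omega⟩
    | succ i ih =>
      obtain ⟨h1, h2, h3⟩ := ih
      rw [Function.iterate_succ_apply', tstep, h1]
      split_ifs with h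
      · exact ⟨h1, by omega, by omega⟩
      · refine ⟨by simp, ?_, ?_⟩
        · simp only [snd_node, fst_node, len, ulen_eq, len_num]; omega
        · simp only [size, size_num, ulen_eq, pow2cap_eq]
          have a1 := size_snd_le x
          have a2 := size_snd_le (snd x)
          have a3 := len_le_size (snd (snd x))
          have a4 := size_fst_le (snd x)
          have a5 := len_le_size (fst (snd x))
          have a6 : size (fst (snd x)) + size (snd (snd x)) ≤ size x + 1 := by
            cases x with
            | leaf => simp [size]
            | node p q =>
              cases q with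
              | leaf => simp [size]
              | node r s => simp [size]; omega
          omega
  have h4 := (key i).2.2
  have h5 := len_le_size n
  omega

theorem tow_lt_succ (k a i : ℕ) (hk : 1 ≤ k) : tow k a i < tow k a (i + 1) := by
  show tow k a i < 2 ^ (2 ^ (tow k a i) ^ k)
  have h1 : ∀ n : ℕ, n < 2 ^ n := fun n => Nat.lt_two_pow_self
  have h2 : tow k a i ≤ (tow k a i) ^ k := Nat.le_self_pow (by omega) _
  have h3 := h1 ((tow k a i) ^ k)
  have h4 := h1 (2 ^ (tow k a i) ^ k)
  omega

theorem tow_strictMono (k a : ℕ) (hk : 1 ≤ k) : StrictMono (tow k a) :=
  strictMono_nat_of_lt_succ (fun i => tow_lt_succ k a i hk)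

theorem towT_spec (k a : ℕ) (hk : 1 ≤ k) (cap : Tr) :
    ∃ m j, towT k a cap = node (num m) (node (num j) cap) ∧
      ((m ≤ len cap ∧ tow k a j = len cap) ∨ (len cap < m ∧ ∀ j', tow k a j' ≠ len cap)) := by
  have hmono := tow_strictMono k a hk
  have key : ∀ t, ∃ m j, (tstep k)^[t] (node (num a) (node leaf cap)) =
      node (num m) (node (num j) cap) ∧
      ((m = tow k a j ∧ ∀ j' < j, tow k a j' < len cap) ∨
        (len cap < m ∧ ∀ j', tow k a j' ≠ len cap)) ∧ (m < len cap → j = t) := by
    intro t
    induction t with
    | zero => exact ⟨a, 0, rfl, Or.inl ⟨rfl, by simp⟩, fun _ => rfl⟩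
    | succ t ih =>
      obtain ⟨m, j, h1, h2, h3⟩ := ih
      rw [Function.iterate_succ_apply', h1, tstep]
      simp only [fst_node, snd_node, dropU_eq_leaf, len_num]
      split_ifs with h
      · exact ⟨m, j, rfl, h2, fun h' => by omega⟩
      · push Not at h
        have hm : m = tow k a j ∧ ∀ j' < j, tow k a j' < len cap := by
          rcases h2 with h2 | h2
          · exact h2
          · omega
        have hj := h3 h
        refine ⟨min (2 ^ (min (2 ^ (m ^ k)) (len cap + 1))) (len cap + 1), j + 1, ?_, ?_, ?_⟩
        · simp only [pow2cap_eq, powU_eq, len_num, ulen_eq]
          rfl
        · have e : min (2 ^ (min (2 ^ (m ^ k)) (len cap + 1))) (len cap + 1) =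
              min (tow k a (j + 1)) (len cap + 1) := by
            rw [hm.1]
            show _ = min (2 ^ (2 ^ (tow k a j) ^ k)) (len cap + 1)
            rcases le_total (2 ^ (tow k a j ^ k)) (len cap + 1) with hle | hle
            · rw [min_eq_left hle]
            · rw [min_eq_right hle]
              have h5 : len cap + 1 < 2 ^ (len cap + 1) := Nat.lt_two_pow_self
              have h6 : len cap + 1 < 2 ^ 2 ^ (tow k a j ^ k) :=
                lt_of_le_of_lt hle Nat.lt_two_pow_self
              rw [min_eq_right h5.le, min_eq_right h6.le]
          rw [e]
          rcases le_or_gt (tow k a (j + 1)) (len cap) with hle | hgt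
          · left
            refine ⟨by omega, fun j' hj' => ?_⟩
            have : tow k a j' ≤ tow k a j := hmono.monotone (by omega)
            omega
          · right
            refine ⟨by omega, fun j' hj' => ?_⟩
            rcases Nat.lt_or_ge j' (j + 1) with hlt | hge
            · have : tow k a j' ≤ tow k a j := hmono.monotone (by omega)
              omega
            · have : tow k a (j + 1) ≤ tow k a j' := hmono.monotone hge
              omega
        · intro _
          omega
  obtain ⟨m, j, h1, h2, h3⟩ := key (len cap)
  refine ⟨m, j, h1, ?_⟩
  rcases lt_trichotomy m (len cap) with h | h | h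
  · exfalso
    have hj := h3 h
    rcases h2 with h2 | h2
    · have := hmono.id_le (len cap)
      simp only [id] at this
      rw [hj] at h2
      omega
    · omega
  · rcases h2 with h2 | h2
    · left; exact ⟨by omega, by omega⟩
    · omega
  · right
    refine ⟨h, ?_⟩
    rcases h2 with h2 | h2
    · intro j' hj'
      rcases Nat.lt_or_ge j' j with hlt | hge
      · have := h2.2 j' hlt; omega
      · have : tow k a j ≤ tow k a j' := hmono.monotone hge
        omega
    · exact h2.2

end Pool.Agent.H88.RO
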