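import Pool.Agent.H88.RO.Bound

set_option autoImplicit false

/-! # The main theorem -/

namespace Pool.Agent.H88.RO

open Tr MeasureTheory Finset
open scoped ENNReal

/-! ### numerical lemmas -/

theorem exists_pow_bound (P : Polynomial ℕ) : ∃ e, ∀ n, 2 ≤ n → P.eval n ≤ n ^ e := by
  induction P using Polynomial.induction_on' with
  | add p q hp hq =>
    obtain ⟨e1, h1⟩ := hp
    obtain ⟨e2, h2⟩ := hq
    refine ⟨max e1 e2 + 1, fun n hn => ?_⟩
    have h3 : n ^ e1 ≤ n ^ max e1 e2 := Nat.pow_le_pow_right (by omega) (le_max_left _ _)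
    have h4 : n ^ e2 ≤ n ^ max e1 e2 := Nat.pow_le_pow_right (by omega) (le_max_right _ _)
    have h5 : n ^ max e1 e2 * 2 ≤ n ^ max e1 e2 * n := Nat.mul_le_mul_left _ hn
    have := h1 n hn
    have := h2 n hn
    rw [Polynomial.eval_add, pow_succ]
    omega
  | monomial m c =>
    refine ⟨c + m, fun n hn => ?_⟩
    rw [Polynomial.eval_monomial, pow_add]
    apply Nat.mul_le_mul_right
    exact (Nat.lt_two_pow_self).le.trans (Nat.pow_le_pow_left hn c)

theorem pow_le_two_pow (m n : ℕ) : n ^ m ≤ m ^ m * 2 ^ n := by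
  rcases Nat.eq_zero_or_pos m with rfl | hm
  · simpa using Nat.one_le_two_pow
  · have h1 : n ≤ m * 2 ^ (n / m) := by
      have h2 : n < m * (n / m + 1) := by
        have h3 := Nat.div_add_mod n m
        have h4 := Nat.mod_lt n hm
        rw [mul_add, mul_one]; omega
      have h5 : n / m + 1 ≤ 2 ^ (n / m) := Nat.lt_two_pow_self
      exact h2.le.trans (Nat.mul_le_mul_left _ h5)
    calc n ^ m ≤ (m * 2 ^ (n / m)) ^ m := Nat.pow_le_pow_left h1 m
      _ = m ^ m * 2 ^ (n / m * m) := by rw [mul_pow, ← pow_mul]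
      _ ≤ m ^ m * 2 ^ n :=
        Nat.mul_le_mul_left _ (Nat.pow_le_pow_right (by omega) (Nat.div_mul_le_self n m))

theorem exists_exp_bound (P : Polynomial ℕ) : ∃ C, ∀ n, P.eval n ≤ C * 2 ^ n := by
  induction P using Polynomial.induction_on' with
  | add p q hp hq =>
    obtain ⟨e1, h1⟩ := hp
    obtain ⟨e2, h2⟩ := hq
    refine ⟨e1 + e2, fun n => ?_⟩
    rw [Polynomial.eval_add, add_mul]
    exact add_le_add (h1 n) (h2 n)
  | monomial m c =>
    refine ⟨c * m ^ m, fun n => ?_⟩
    rw [Polynomial.eval_monomial, mul_assoc]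
    exact Nat.mul_le_mul_left _ (pow_le_two_pow m n)

theorem sq_le_two_pow {n : ℕ} (hn : 4 ≤ n) : n * n ≤ 2 ^ n := by
  induction n, hn using Nat.le_induction with
  | base => norm_num
  | succ n hn ih =>
    rw [pow_succ]
    nlinarith

/-- the parameters can be chosen -/
theorem exists_num (k : ℕ) (hk : 1 ≤ k) (p q : Polynomial ℕ) :
    ∃ d a0 : ℕ, ∀ k0, (Par.mk k (max a0 (k0 + 1)) d k0 p).Num q := by
  obtain ⟨e, he⟩ := exists_pow_bound (2 * Polynomial.X + q.comp (Polynomial.X + p) + 1 + p)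
  have hlin : ∀ n, e + 6 ≤ n → (e + 2) * n < 2 ^ n := by
    intro n hn
    have h1 := sq_le_two_pow (n := n) (by omega)
    have h2 : (e + 2) * n < n * n := Nat.mul_lt_mul_of_pos_right (by omega) (by omega)
    omega
  have hK : ∀ n, 1 ≤ n → 2 * 2 ^ n + q.eval (2 ^ n + p.eval (2 ^ n)) + 1 + p.eval (2 ^ n) ≤
      2 ^ (e * n) := by
    intro n hn
    have h1 : 2 ≤ 2 ^ n := by
      calc 2 = 2 ^ 1 := rfl
        _ ≤ 2 ^ n := Nat.pow_le_pow_right (by omega) hn
    have h2 := he (2 ^ n) h1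
    simp only [Polynomial.eval_add, Polynomial.eval_mul, Polynomial.eval_comp,
      Polynomial.eval_X, Polynomial.eval_one, Polynomial.eval_ofNat] at h2
    rwa [← pow_mul, mul_comm n e] at h2
  refine ⟨e + 2, e + 6, fun k0 => ?_⟩
  have hn : ∀ b, max (e + 6) (k0 + 1) ≤ b → e + 6 ≤ b ^ k := by
    intro b hb
    have h1 : b ≤ b ^ k := Nat.le_self_pow (by omega) _
    have := le_max_left (e + 6) (k0 + 1)
    omega
  refine ⟨hk, by simp, by simp, ?_, ?_, ?_⟩
  · intro b hb
    have h1 := hn b hb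
    have h2 := hK (b ^ k) (by omega)
    show 2 * 2 ^ (b ^ k) + q.eval (2 ^ (b ^ k) + p.eval (2 ^ (b ^ k))) + 1 ≤
      2 ^ ((e + 2) * b ^ k - 1)
    have h3 : 2 ^ (e * b ^ k) ≤ 2 ^ ((e + 2) * b ^ k - 1) := by
      apply Nat.pow_le_pow_right (by omega)
      rw [add_mul]; omega
    omega
  · intro b hb
    have h1 := hn b hb
    show 2 ^ ((e + 2) * b ^ k) < 2 ^ (2 ^ (b ^ k))
    exact Nat.pow_lt_pow_right (by omega) (hlin _ h1)
  · intro b hb
    have h1 := hn b hb
    have h2 := hK (b ^ k) (by omega)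
    show p.eval (2 ^ (b ^ k)) ≤ 2 ^ (2 ^ (b ^ k))
    have h3 : 2 ^ (e * b ^ k) ≤ 2 ^ (2 ^ (b ^ k)) := by
      apply Nat.pow_le_pow_right (by omega)
      have := hlin _ h1
      rw [add_mul] at this
      omega
    omega

/-! ### countability -/

instance : Countable Tr := by
  have : Function.Injective rpn := by
    intro s t h
    have h1 := decode_pad 0 s
    have h2 := decode_pad 0 t
    rw [h] at h1
    exact h1.symm.trans h2
  exact this.countable

instance : Countable (Polynomial ℕ) := by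
  rw [← Cardinal.mk_le_aleph0_iff]
  refine Polynomial.cardinalMk_le_max.trans ?_
  simp

/-! ### what holds for almost every oracle -/

/-- the chosen constants -/
noncomputable def dOf (k : ℕ) (hk : 1 ≤ k) (p q : Polynomial ℕ) : ℕ :=
  (exists_num k hk p q).choose

noncomputable def aOf (k : ℕ) (hk : 1 ≤ k) (p q : Polynomial ℕ) : ℕ :=
  (exists_num k hk p q).choose_spec.choose

/-- the chosen parameters -/
noncomputable def parOf (k : ℕ) (hk : 1 ≤ k) (p q : Polynomial ℕ) (k0 : ℕ) : Par :=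
  ⟨k, max (aOf k hk p q) (k0 + 1), dOf k hk p q, k0, p⟩

theorem parOf_num (k : ℕ) (hk : 1 ≤ k) (p q : Polynomial ℕ) (k0 : ℕ) :
    (parOf k hk p q k0).Num q := (exists_num k hk p q).choose_spec.choose_spec k0

theorem ae_good (B : List Bool → Bool) : ∀ᵐ A ∂randomOracle,
    ∀ (τ : Tr) (q p : Polynomial ℕ) (κ : ℕ),
      (∃ k0, ∀ u i, u.length ≤ i → A ∉ (parOf (κ + 1) (Nat.succ_pos κ) p q k0).Bad B τ q u i) ∧
      ∀ k0 u, ∃ i, u.length ≤ i ∧ A ∈ (parOf (κ + 1) (Nat.succ_pos κ) p q k0).NoSol B u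
        (tow (parOf (κ + 1) (Nat.succ_pos κ) p q k0).k
          (parOf (κ + 1) (Nat.succ_pos κ) p q k0).a i) := by
  rw [ae_all_iff]; intro τ
  rw [ae_all_iff]; intro q
  rw [ae_all_iff]; intro p
  rw [ae_all_iff]; intro κ
  apply Filter.Eventually.and
  · rw [ae_iff]
    have h1 : ∀ k0 : ℕ, randomOracle {A | ¬ ∃ k0, ∀ u i, u.length ≤ i →
        A ∉ (parOf (κ + 1) (Nat.succ_pos κ) p q k0).Bad B τ q u i} ≤ 2 * (2 ^ k0)⁻¹ := by
      intro k0
      refine le_trans (measure_mono ?_)
        (Par.sum_bad (B := B) (τ := τ) (parOf_num (κ + 1) (Nat.succ_pos κ) p q k0))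
      intro A hA
      simp only [Set.mem_ofPred_eq, not_exists, not_forall] at hA
      obtain ⟨u, i, h1, h2⟩ := hA k0
      exact ⟨u, i, h1, not_not.mp h2⟩
    have h2 : Filter.Tendsto (fun k0 : ℕ => 2 * ((2 : ℝ≥0∞) ^ k0)⁻¹) Filter.atTop (nhds 0) := by
      have h3 : Filter.Tendsto (fun k0 : ℕ => ((2 : ℝ≥0∞)⁻¹) ^ k0) Filter.atTop (nhds 0) :=
        ENNReal.tendsto_pow_atTop_nhds_zero_of_lt_one (by
          rw [ENNReal.inv_lt_one]; norm_num)
      have h4 := ENNReal.Tendsto.const_mul (a := 2) h3 (Or.inr (by norm_num))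
      rw [mul_zero] at h4
      refine h4.congr fun n => ?_
      rw [ENNReal.inv_pow]
    exact le_antisymm (ge_of_tendsto' h2 h1) (zero_le)
  · rw [ae_all_iff]; intro k0
    rw [ae_all_iff]; intro u
    exact Par.ae_noSol (parOf_num (κ + 1) (Nat.succ_pos κ) p q k0) u

/-! ### the diagonalising problem -/

theorem parse_inst (b : ℕ) (u : List Bool) : parse (Par.inst u b) = some (b, u) := by
  unfold Par.inst
  induction b with
  | zero => rfl
  | succ b ih =>
    rw [List.replicate_succ, List.cons_append, parse, ih]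
    rfl

theorem le_of_parse {x : List Bool} {b : ℕ} {u : List Bool} (h : parse x = some (b, u)) :
    b ≤ x.length := by
  induction x generalizing b with
  | nil => simp [parse] at h
  | cons c x ih =>
    cases c with
    | false =>
      simp only [parse, Option.some.injEq, Prod.mk.injEq] at h
      omega
    | true =>
      rw [parse] at h
      rcases hx : parse x with _ | ⟨b', u'⟩
      · rw [hx] at h; simp at h
      · rw [hx] at h
        simp only [Option.map_some, Option.some.injEq, Prod.mk.injEq] at h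
        have := @ih b' (by rw [hx, h.2])
        simp only [List.length_cons]
        omega

namespace Par

variable {π : Par} {B : List Bool → Bool} {τ : Tr} {q : Polynomial ℕ}

/-- a failure witness gives a failure -/
theorem fail_of_failW {A : List Bool → Bool} {u : List Bool} {b : ℕ} {y : List Bool}
    (h : π.FailW (join A B) (Rof (join A B) τ q) u b y) : A ∈ π.Fail B τ q u b := by
  rcases h with h | ⟨h1, h2⟩
  · exact ⟨[], by simp, Or.inl h⟩
  · rcases U_cases (fst (decode u)) (enc (inst u b)) (π.clk b) (O := join A B) with hc | ⟨w, hc⟩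
    · exact ⟨[], by simp, Or.inl hc⟩
    · refine ⟨y, h1.trans (poly_mono _ ?_), Or.inr ⟨h1, h2⟩⟩
      have hsz := size_of_U hc
      unfold runF
      rw [hc, snd_node, length_dec]
      have := len_le_size w
      omega

end Par

open Par

/-- totality of the diagonalising problem -/
theorem total_RNb {π : Par} {A B : List Bool → Bool} {τ : Tr} {q : Polynomial ℕ}
    (h : π.Num q) (hT : A ∈ Tot B τ q π.p)
    (hbad : ∀ u i, u.length ≤ i → A ∉ π.Bad B τ q u i) (x : List Bool) :
    ∃ y : List Bool, y.length ≤ (2 + 2 * Polynomial.X +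
      Polynomial.C π.d * Polynomial.X ^ π.k : Polynomial ℕ).eval x.length ∧
      π.RNb (join A B) (Rof (join A B) τ q) x y = true := by
  classical
  simp only [Polynomial.eval_add, Polynomial.eval_mul, Polynomial.eval_C, Polynomial.eval_X,
    Polynomial.eval_pow, Polynomial.eval_ofNat]
  by_cases hx : ∃ b u, parse x = some (b, u) ∧ π.Good u b
  · obtain ⟨b, u, hx, hg⟩ := hx
    have hbx := le_of_parse hx
    obtain ⟨i, hi, hu⟩ := hg
    have hcase : A ∉ π.NF B τ q u i ∨ A ∉ π.NoSol B u b := by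
      by_contra hcon
      rw [not_or, not_not, not_not] at hcon
      exact hbad u i hu ⟨⟨hT, hcon.1⟩, by rw [hi]; exact hcon.2⟩
    rcases hcase with hc | hc
    · simp only [NF, Set.mem_ofPred_eq, not_forall, not_not] at hc
      obtain ⟨i', hu', hi', y', hy', hf⟩ := hc
      set b' := tow π.k π.a i' with hb'
      have hg' : π.Good u b' := ⟨i', rfl, hu'⟩
      have hlt : b' < b := by rw [← hi]; exact tow_strictMono π.k π.a h.hk hi'
      have h1 := π.clk_lt_of_good h.hk ⟨i, hi, hu⟩ hg' hlt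
      have h2 := h.h3 b' (by have := a_le_tow (π := π) h.hk i'; omega)
      refine ⟨true :: inst y' b', ?_, ?_⟩
      · simp only [inst, List.length_cons, List.length_append, List.length_replicate]
        omega
      · rw [π.RNb_eq]
        intro b1 u1 hx1 _
        rw [hx] at hx1
        simp only [Option.some.injEq, Prod.mk.injEq] at hx1
        obtain ⟨rfl, rfl⟩ := hx1
        exact Or.inr ⟨b', y', ⟨_, rfl, parse_inst b' y'⟩, hg', hlt, hf⟩
    · simp only [NoSol, Set.mem_ofPred_eq, not_forall, not_not] at hc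
      obtain ⟨z, hz⟩ := hc
      refine ⟨false :: z, ?_, ?_⟩
      · rw [List.length_cons, hz.1, ell]
        have : π.d * b ^ π.k ≤ π.d * x.length ^ π.k :=
          Nat.mul_le_mul_left _ (Nat.pow_le_pow_left hbx _)
        omega
      · rw [π.RNb_eq]
        intro b1 u1 hx1 _
        rw [hx] at hx1
        simp only [Option.some.injEq, Prod.mk.injEq] at hx1
        obtain ⟨rfl, rfl⟩ := hx1
        exact Or.inl ⟨z, rfl, hz⟩
  · refine ⟨[], by simp, ?_⟩
    rw [π.RNb_eq]
    intro b u h1 h2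
    exact absurd ⟨b, u, h1, h2⟩ hx

/-- the diagonalising problem does not reduce -/
theorem no_reduction {π : Par} {A B : List Bool → Bool} {τ : Tr} {q : Polynomial ℕ}
    (h : π.Num q) (κ : ℕ) (hκ : π.k = κ + 1) (T : TFNP (join A B)) (hTp : T.p = π.p)
    (hTR : T.R = Rof (join A B) τ q) (S : TFNP (join A B))
    (hSR : S.R = π.RNb (join A B) T.R)
    (hno : ∀ u, ∃ i, u.length ≤ i ∧ A ∈ π.NoSol B u (tow π.k π.a i)) (C : ℕ) :
    ¬ S.ReducesWithin (fun n => C * 2 ^ (n ^ κ)) T := by
  rintro ⟨cf, cg, hred⟩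
  set D := (size (code cf) + size (code cg) + 10) * C + 10 with hD
  set t := node (code cf) (code cg) with ht
  set u := List.replicate (D + 3 ^ κ) false ++ rpn t with hu
  have hdec : decode u = t := decode_pad _ _
  have hulen : D + 3 ^ κ ≤ u.length := by
    rw [hu, List.length_append, List.length_replicate]; omega
  -- numerical estimate
  have hnum : ∀ i, u.length ≤ i → ∀ s, s ≤ C * 2 ^ ((inst u (tow π.k π.a i)).length ^ κ) →
      (size (code cf) + size (code cg) + 10) * s + 10 ≤ π.clk (tow π.k π.a i) := by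
    intro i hi s hs
    have hb := a_le_tow (π := π) h.hk i
    set b := tow π.k π.a i
    have hD10 : 10 ≤ D := by omega
    have hE : 0 < 3 ^ κ := by positivity
    have h1 : (inst u b).length ≤ 3 * b := by
      simp only [inst, List.length_append, List.length_replicate, List.length_cons]
      omega
    have h2 : (inst u b).length ^ κ ≤ 3 ^ κ * b ^ κ := by
      rw [← mul_pow]; exact Nat.pow_le_pow_left h1 κ
    have h3 : (size (code cf) + size (code cg) + 10) * s + 10 ≤
        D * 2 ^ ((inst u b).length ^ κ) := by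
      rw [hD, add_mul (_ * C) 10]
      refine add_le_add ?_ ?_
      · rw [mul_assoc]; exact Nat.mul_le_mul_left _ hs
      · exact Nat.le_mul_of_pos_right _ (by positivity)
    refine h3.trans ?_
    have h4 : D ≤ 2 ^ D := Nat.lt_two_pow_self.le
    unfold clk
    calc D * 2 ^ ((inst u b).length ^ κ) ≤ 2 ^ D * 2 ^ (3 ^ κ * b ^ κ) :=
          Nat.mul_le_mul h4 (Nat.pow_le_pow_right (by omega) h2)
      _ = 2 ^ (D + 3 ^ κ * b ^ κ) := (pow_add 2 D _).symm
      _ ≤ 2 ^ (b ^ π.k) := by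
        apply Nat.pow_le_pow_right (by omega)
        rw [hκ, pow_succ]
        have h5 : 1 ≤ b ^ κ := Nat.one_le_pow _ _ (by omega)
        have h6 : D + 3 ^ κ ≤ b := by omega
        calc D + 3 ^ κ * b ^ κ ≤ (D + 3 ^ κ) * b ^ κ := by nlinarith
          _ ≤ b * b ^ κ := Nat.mul_le_mul_right _ h6
          _ = b ^ κ * b := mul_comm _ _
  -- the reduction never fails
  have hrun : ∀ i, u.length ≤ i → ∃ s, π.runF (join A B) u (tow π.k π.a i) = node leaf (enc s) ∧
      ∀ y, T.IsSol s y → ∃ w, π.runG (join A B) u (tow π.k π.a i) y = node leaf (enc w) ∧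
        S.IsSol (inst u (tow π.k π.a i)) w := by
    intro i hi
    obtain ⟨s, ⟨t1, ht1, he1⟩, hs⟩ := hred (inst u (tow π.k π.a i))
    refine ⟨s, ?_, fun y hy => ?_⟩
    · unfold runF
      rw [hdec, ht, fst_node]
      apply U_eq he1
      refine le_trans ?_ (hnum i hi t1 ht1)
      exact Nat.add_le_add_right (Nat.mul_le_mul_right _ (by omega)) _
    · obtain ⟨w, ⟨t2, ht2, he2⟩, hw⟩ := hs y hy
      refine ⟨w, ?_, hw⟩
      unfold runG
      rw [hdec, ht, snd_node]
      apply U_eq he2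
      refine le_trans ?_ (hnum i hi t2 ht2)
      exact Nat.add_le_add_right (Nat.mul_le_mul_right _ (by omega)) _
  -- analysis of solutions
  have hsol : ∀ i, u.length ≤ i → ∀ w, S.IsSol (inst u (tow π.k π.a i)) w →
      (∃ z, w = false :: z ∧ π.SolA (join A B) u (tow π.k π.a i) z) ∨
      ∃ i', u.length ≤ i' ∧ i' < i ∧ A ∈ π.Fail B τ q u (tow π.k π.a i') := by
    intro i hi w hw
    have h1 := hw.2
    rw [hSR, π.RNb_eq, hTR] at h1
    rcases h1 _ _ (parse_inst _ u) ⟨i, rfl, hi⟩ with h2 | ⟨b', y', _, ⟨i', hi', hu'⟩, hlt, hf⟩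
    · exact Or.inl h2
    · right
      refine ⟨i', hu', ?_, ?_⟩
      · rw [← hi'] at hlt
        exact (tow_strictMono π.k π.a h.hk).lt_iff_lt.mp hlt
      · rw [hi']; exact fail_of_failW hf
  have hfail : ∀ i, u.length ≤ i → A ∉ π.Fail B τ q u (tow π.k π.a i) := by
    intro i
    induction i using Nat.strong_induction_on with
    | _ i ih =>
      rintro hi ⟨y, _, hf⟩
      obtain ⟨s, hs1, hs2⟩ := hrun i hi
      rcases hf with hf | ⟨h1, h2, h3⟩
      · rw [hs1] at hf; exact absurd hf (by simp)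
      · rw [hs1, snd_node, dec_enc] at h1 h2
        obtain ⟨w, hw1, hw2⟩ := hs2 y ⟨by rw [hTp]; exact h1, by rw [hTR]; exact h2⟩
        rw [hw1] at h3
        rcases h3 with h3 | h3
        · exact absurd h3 (by simp)
        · rcases hsol i hi w hw2 with h4 | ⟨i', hi', hlt, hf'⟩
          · apply h3
            rw [snd_node, dec_enc]
            exact h4
          · exact ih i' hlt hi' hf'
  obtain ⟨i, hi, hNo⟩ := hno u
  obtain ⟨s, hs1, hs2⟩ := hrun i hi
  obtain ⟨y, hy⟩ := T.total s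
  obtain ⟨w, _, hw2⟩ := hs2 y hy
  rcases hsol i hi w hw2 with ⟨z, _, hz⟩ | ⟨i', hi', _, hf'⟩
  · exact hNo z hz
  · exact hfail i' hi' hf'

theorem ReducesWithin_mono {O : List Bool → Bool} {S T : TFNP O} {τ τ' : ℕ → ℕ}
    (hle : ∀ n, τ n ≤ τ' n) (h : S.ReducesWithin τ T) : S.ReducesWithin τ' T := by
  obtain ⟨cf, cg, h⟩ := h
  refine ⟨cf, cg, fun x => ?_⟩
  obtain ⟨s, ⟨t, ht, he⟩, hs⟩ := h x
  refine ⟨s, ⟨t, ht.trans (hle _), he⟩, fun y hy => ?_⟩
  obtain ⟨w, ⟨t', ht', he'⟩, hw⟩ := hs y hy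
  exact ⟨w, ⟨t', ht'.trans (hle _), he'⟩, hw⟩

/-- polynomial time reductions run in time `C * 2 ^ n` -/
theorem reducesWithin_of_reduces {O : List Bool → Bool} {S T : TFNP O} (h : S.Reduces T) :
    ∃ C, S.ReducesWithin (fun n => C * 2 ^ (n ^ 1)) T := by
  obtain ⟨f, g, ⟨cf, qf, hf⟩, ⟨cg, qg, hg⟩, hred⟩ := h
  obtain ⟨C, hC⟩ := exists_exp_bound (qf + qg.comp (Polynomial.X + T.p.comp (2 * qf)))
  simp only [Polynomial.eval_add, Polynomial.eval_comp, Polynomial.eval_X, Polynomial.eval_mul,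
    Polynomial.eval_ofNat] at hC
  refine ⟨C, cf, cg, fun x => ⟨f x, ?_, fun y hy => ⟨g x y, ?_, hred x y hy⟩⟩⟩
  · obtain ⟨t, ht, he⟩ := hf x
    refine ⟨t, ?_, he⟩
    have := hC x.length
    simp only [pow_one]
    omega
  · obtain ⟨t, ht, he⟩ := hg x y
    refine ⟨t, ?_, he⟩
    obtain ⟨t', ht', he'⟩ := hf x
    have h1 := he'.size_le
    have h2 := len_le_size (enc (f x))
    rw [len_enc] at h2
    have h3 : T.p.eval (f x).length ≤ T.p.eval (2 * qf.eval x.length) := poly_mono _ (by omega)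
    have h4 : qg.eval (x.length + y.length) ≤
        qg.eval (x.length + T.p.eval (2 * qf.eval x.length)) :=
      poly_mono _ (by have := hy.1; omega)
    have := hC x.length
    simp only [pow_one]
    omega

/-- **Main theorem.** -/
theorem main (B : List Bool → Bool) : ∀ᵐ A ∂randomOracle,
    ∀ (T : TFNP (join A B)) (κ : ℕ), ∃ S : TFNP (join A B),
      ¬ S.Reduces T ∧ ∀ C : ℕ, ¬ S.ReducesWithin (fun n => C * 2 ^ n ^ κ) T := by
  filter_upwards [ae_good B] with A hA
  have hmain : ∀ (T : TFNP (join A B)) (κ : ℕ), ∃ S : TFNP (join A B), ∀ C : ℕ,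
      ¬ S.ReducesWithin (fun n => C * 2 ^ (n ^ κ)) T := by
    intro T κ
    obtain ⟨τ, q, hR⟩ := exists_Rof T.polyTime
    obtain ⟨⟨k0, hbad⟩, hno⟩ := hA τ q T.p κ
    set π := parOf (κ + 1) (Nat.succ_pos κ) T.p q k0 with hπ
    have hnum : π.Num q := parOf_num (κ + 1) (Nat.succ_pos κ) T.p q k0
    have hp : π.p = T.p := rfl
    have hTot : A ∈ Tot B τ q π.p := by
      intro s
      obtain ⟨y, hy1, hy2⟩ := T.total s
      exact ⟨y, hy1, by rw [← hR]; exact hy2⟩
    let S : TFNP (join A B) :=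
      { R := π.RNb (join A B) T.R
        p := 2 + 2 * Polynomial.X + Polynomial.C π.d * Polynomial.X ^ π.k
        polyTime := π.polyTime_RNb hnum.hk T.polyTime
        total := fun x => by
          rw [hR]
          exact total_RNb hnum hTot hbad x }
    exact ⟨S, fun C => no_reduction hnum κ rfl T rfl hR S rfl (hno k0) C⟩
  intro T κ
  obtain ⟨S, hS⟩ := hmain T (κ + 1)
  refine ⟨S, ?_, ?_⟩
  · intro hred
    obtain ⟨C, cf, cg, hC⟩ := reducesWithin_of_reduces hred
    have hle : ∀ n, C * 2 ^ (n ^ 1) ≤ C * 2 ^ (n ^ (κ + 1)) := fun n =>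
      Nat.mul_le_mul_left _ (Nat.pow_le_pow_right (by omega)
        (by rw [pow_one]; exact Nat.le_self_pow (by omega) _))
    exact hS C (ReducesWithin_mono hle ⟨cf, cg, hC⟩)
  · intro C hred
    have hle : ∀ n, C * 2 ^ (n ^ κ) ≤ (2 * C) * 2 ^ (n ^ (κ + 1)) := by
      intro n
      rcases Nat.eq_zero_or_pos n with rfl | hn
      · have : 2 ^ (0 ^ κ) ≤ 2 := by
          rcases Nat.eq_zero_or_pos κ with rfl | hκ
          · simp
          · rw [Nat.zero_pow hκ]; norm_num
        have e1 : (0 : ℕ) ^ (κ + 1) = 0 := Nat.zero_pow (Nat.succ_pos κ)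
        rw [e1, pow_zero, mul_one, mul_comm 2 C]
        exact Nat.mul_le_mul_left _ this
      · have h1 : n ^ κ ≤ n ^ (κ + 1) := Nat.pow_le_pow_right hn (by omega)
        have h2 : 2 ^ (n ^ κ) ≤ 2 ^ (n ^ (κ + 1)) := Nat.pow_le_pow_right (by omega) h1
        exact Nat.mul_le_mul (by omega) h2
    exact hS (2 * C) (ReducesWithin_mono hle hred)

end Pool.Agent.H88.RO
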