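import Pool.Agent.H88.RO.Model

set_option autoImplicit false

/-! # Measure theory of the random oracle -/

namespace Pool.Agent.H88.RO

open MeasureTheory ProbabilityTheory Finset
open scoped ENNReal

/-- membership in `E` depends only on the values at `S` -/
def Dep (S : Finset (List Bool)) (E : Set (List Bool → Bool)) : Prop :=
  ∀ A A' : List Bool → Bool, (∀ q ∈ S, A q = A' q) → (A ∈ E ↔ A' ∈ E)

theorem Dep.mono {S T : Finset (List Bool)} {E : Set (List Bool → Bool)} (h : Dep S E)
    (hST : S ⊆ T) : Dep T E := fun A A' hA => h A A' (fun q hq => hA q (hST hq))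

theorem Dep.inter {S : Finset (List Bool)} {E F : Set (List Bool → Bool)} (h : Dep S E)
    (h' : Dep S F) : Dep S (E ∩ F) := fun A A' hA => and_congr (h A A' hA) (h' A A' hA)

theorem Dep.compl {S : Finset (List Bool)} {E : Set (List Bool → Bool)} (h : Dep S E) :
    Dep S Eᶜ := fun A A' hA => not_congr (h A A' hA)

theorem Dep.eq_preimage {S : Finset (List Bool)} {E : Set (List Bool → Bool)} (h : Dep S E) :
    E = (fun (A : List Bool → Bool) (i : S) => A i) ⁻¹'
      {g | ∃ A ∈ E, (fun i : S => A i) = g} := by
  ext A
  simp only [Set.mem_preimage, Set.mem_ofPred_eq]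
  constructor
  · intro hA; exact ⟨A, hA, rfl⟩
  · rintro ⟨A', hA', he⟩
    refine (h A A' ?_).mpr hA'
    intro q hq
    have := congrFun he ⟨q, hq⟩
    exact this.symm

theorem Dep.measurableSet {S : Finset (List Bool)} {E : Set (List Bool → Bool)} (h : Dep S E) :
    MeasurableSet E := by
  rw [h.eq_preimage]
  apply measurableSet_preimage
  · fun_prop
  · exact Set.Finite.measurableSet (Set.toFinite _)

theorem indep_coord : iIndepFun (fun (q : List Bool) (A : List Bool → Bool) => A q)
    randomOracle :=
  iIndepFun_infinitePi (P := fun _ : List Bool => coin) (X := fun _ x => x)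
    (fun _ => measurable_id)

/-- events depending on disjoint finite sets of queries are independent -/
theorem measure_inter {S T : Finset (List Bool)} (hST : Disjoint S T)
    {E F : Set (List Bool → Bool)} (hE : Dep S E) (hF : Dep T F) :
    randomOracle (E ∩ F) = randomOracle E * randomOracle F := by
  have h1 := indep_coord.indepFun_finset S T hST (fun q => measurable_pi_apply q)
  rw [hE.eq_preimage, hF.eq_preimage]
  exact h1.measure_inter_preimage_eq_mul _ _ (Set.Finite.measurableSet (Set.toFinite _))
    (Set.Finite.measurableSet (Set.toFinite _))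

theorem coin_map_not : coin.map (fun b : Bool => !b) = coin := by
  have hsing : ∀ b, coin {b} = 2⁻¹ := by
    intro b
    unfold coin
    rw [PMF.toMeasure_apply_singleton _ _ (measurableSet_singleton _)]
    simp
  apply Measure.ext_of_singleton
  intro b
  rw [Measure.map_apply (measurable_of_finite _) (measurableSet_singleton _)]
  have : (fun b : Bool => !b) ⁻¹' {b} = {!b} := by
    ext c; cases b <;> cases c <;> simp
  rw [this, hsing, hsing]

/-- flipping one answer -/
def flipAt (q : List Bool) (A : List Bool → Bool) : List Bool → Bool :=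
  fun i => (if i = q then (fun b : Bool => !b) else id) (A i)

theorem measurable_flipAt (q : List Bool) : Measurable (flipAt q) := by
  unfold flipAt
  refine measurable_pi_lambda _ (fun i => ?_)
  exact (measurable_of_finite _).comp (measurable_pi_apply i)

theorem map_flipAt (q : List Bool) : randomOracle.map (flipAt q) = randomOracle := by
  unfold randomOracle flipAt
  rw [Measure.infinitePi_map_pi (μ := fun _ : List Bool => coin)
    (f := fun i => if i = q then (fun b : Bool => !b) else id)
    (fun i => measurable_of_finite _)]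
  congr 1
  funext i
  split_ifs
  · exact coin_map_not
  · exact Measure.map_id

/-- planting ones at the queries of `S` -/
def plant (S : Finset (List Bool)) (A : List Bool → Bool) : List Bool → Bool :=
  fun q => if q ∈ S then true else A q

/-- all answers in `S` are yes -/
def ones (S : Finset (List Bool)) : Set (List Bool → Bool) := {A | ∀ q ∈ S, A q = true}

theorem dep_ones (S : Finset (List Bool)) : Dep S (ones S) := by
  intro A A' h
  constructor
  · intro hA q hq; rw [← h q hq]; exact hA q hq
  · intro hA q hq; rw [h q hq]; exact hA q hq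

theorem measurable_plant (S : Finset (List Bool)) : Measurable (plant S) := by
  refine measurable_pi_lambda _ (fun q => ?_)
  unfold plant
  by_cases h : q ∈ S
  · simp only [h, if_true]; exact measurable_const
  · simp only [h, if_false]; exact measurable_pi_apply q

theorem measure_plant_single (q : List Bool) {E : Set (List Bool → Bool)}
    (hE : MeasurableSet E) : randomOracle (plant {q} ⁻¹' E) = 2 * randomOracle (E ∩ ones {q}) := by
  have hT : MeasurableSet (ones {q}) := (dep_ones _).measurableSet
  have h1 : plant {q} ⁻¹' E = (E ∩ ones {q}) ∪ flipAt q ⁻¹' (E ∩ ones {q}) := by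
    ext A
    simp only [Set.mem_preimage, Set.mem_union, Set.mem_inter_iff, ones, mem_singleton,
      forall_eq, Set.mem_ofPred_eq]
    cases hA : A q with
    | true =>
      have e : plant {q} A = A := by
        funext i
        unfold plant
        by_cases hi : i = q
        · subst hi; simp [hA]
        · simp [hi]
      rw [e]
      have : flipAt q A q = false := by simp [flipAt, hA]
      simp [this]
    | false =>
      have e : plant {q} A = flipAt q A := by
        funext i
        unfold plant flipAt
        by_cases hi : i = q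
        · subst hi; simp [hA]
        · simp [hi]
      rw [e]
      have : flipAt q A q = true := by simp [flipAt, hA]
      simp [this]
  have h2 : Disjoint (E ∩ ones {q}) (flipAt q ⁻¹' (E ∩ ones {q})) := by
    rw [Set.disjoint_left]
    rintro A ⟨_, hA⟩ ⟨_, hA'⟩
    have a1 : A q = true := hA q (mem_singleton_self _)
    have a2 : flipAt q A q = true := hA' q (mem_singleton_self _)
    simp [flipAt, a1] at a2
  rw [h1, measure_union h2 ((measurable_flipAt q) (hE.inter hT)),
    ← Measure.map_apply (measurable_flipAt q) (hE.inter hT), map_flipAt, two_mul]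

theorem measure_plant (S : Finset (List Bool)) {E : Set (List Bool → Bool)}
    (hE : MeasurableSet E) :
    randomOracle (plant S ⁻¹' E) = 2 ^ S.card * randomOracle (E ∩ ones S) := by
  classical
  induction S using Finset.induction_on generalizing E with
  | empty =>
    have h1 : plant ∅ ⁻¹' E = E := by
      ext A
      have : plant ∅ A = A := by funext i; simp [plant]
      rw [Set.mem_preimage, this]
    have h2 : E ∩ ones ∅ = E := by
      ext A; simp [ones]
    rw [h1, h2]; simp
  | insert q S hq ih =>
    have h1 : plant (insert q S) ⁻¹' E = plant S ⁻¹' (plant {q} ⁻¹' E) := by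
      ext A
      simp only [Set.mem_preimage]
      have : plant (insert q S) A = plant {q} (plant S A) := by
        funext i
        unfold plant
        by_cases h1 : i = q
        · simp [h1]
        · by_cases h2 : i ∈ S
          · simp [h1, h2]
          · simp [h1, h2]
      rw [this]
    have h2 : plant {q} ⁻¹' E ∩ ones S = plant {q} ⁻¹' (E ∩ ones S) := by
      ext A
      simp only [Set.mem_inter_iff, Set.mem_preimage, and_congr_right_iff]
      intro _
      constructor
      · intro h i hi
        unfold plant
        by_cases h1 : i = q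
        · simp [h1]
        · simp [h1, h i hi]
      · intro h i hi
        have := h i hi
        unfold plant at this
        by_cases h1 : i = q
        · rw [h1] at hi; exact absurd hi hq
        · simpa [h1] using this
    have h3 : E ∩ ones S ∩ ones {q} = E ∩ ones (insert q S) := by
      ext A
      simp only [Set.mem_inter_iff, ones, mem_singleton, forall_eq, Set.mem_ofPred_eq, mem_insert,
        forall_eq_or_imp, and_assoc]
      tauto
    rw [h1, ih (measurable_plant _ hE), h2,
      measure_plant_single q (hE.inter (dep_ones _).measurableSet), h3, card_insert_of_notMem hq,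
      pow_succ, mul_assoc]

theorem measure_ones (S : Finset (List Bool)) : randomOracle (ones S) = (2 ^ S.card)⁻¹ := by
  have h := measure_plant S MeasurableSet.univ
  rw [Set.preimage_univ, measure_univ, Set.univ_inter] at h
  apply ENNReal.eq_inv_of_mul_eq_one_left
  rw [mul_comm]; exact h.symm

/-- **The planting lemma.** -/
theorem planting {ι : Type*} (Z : Finset ι) (blk : ι → Finset (List Bool)) (m : ℕ)
    (hm : ∀ z ∈ Z, (blk z).card = m) {N F : Set (List Bool → Bool)} (hN : MeasurableSet N)
    (Fz : ι → Set (List Bool → Bool)) (hFz : ∀ z ∈ Z, MeasurableSet (Fz z))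
    (hsub : ∀ z ∈ Z, Fz z ⊆ F) (hdisj : ∀ z ∈ Z, ∀ z' ∈ Z, z ≠ z' → Disjoint (Fz z) (Fz z'))
    (c : ℕ) (W : (List Bool → Bool) → Finset ι) (hW1 : ∀ A ∈ N, W A ⊆ Z)
    (hW2 : ∀ A ∈ N, c ≤ (W A).card) (hW3 : ∀ A ∈ N, ∀ z ∈ W A, plant (blk z) A ∈ Fz z) :
    (c : ℝ≥0∞) * randomOracle N ≤ 2 ^ m * randomOracle F := by
  classical
  have h1 : (c : ℝ≥0∞) * randomOracle N ≤
      ∑ z ∈ Z, randomOracle (plant (blk z) ⁻¹' (Fz z)) := by
    have e1 : ∀ z ∈ Z, randomOracle (plant (blk z) ⁻¹' (Fz z)) =
        ∫⁻ A, (plant (blk z) ⁻¹' (Fz z)).indicator 1 A ∂randomOracle := by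
      intro z hz
      rw [lintegral_indicator_one ((measurable_plant _) (hFz z hz))]
    rw [Finset.sum_congr rfl e1, ← lintegral_finsetSum']
    · calc (c : ℝ≥0∞) * randomOracle N = ∫⁻ A, N.indicator (fun _ => (c : ℝ≥0∞)) A ∂randomOracle := by
            rw [lintegral_indicator_const hN]
        _ ≤ _ := by
            apply lintegral_mono
            intro A
            by_cases hA : A ∈ N
            · simp only [Set.indicator_of_mem hA]
              calc (c : ℝ≥0∞) ≤ ((W A).card : ℝ≥0∞) := by exact_mod_cast hW2 A hA
                _ = ∑ z ∈ W A, (1 : ℝ≥0∞) := by simp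
                _ ≤ ∑ z ∈ W A, (plant (blk z) ⁻¹' (Fz z)).indicator 1 A := by
                    apply Finset.sum_le_sum
                    intro z hz
                    rw [Set.indicator_of_mem (show A ∈ plant (blk z) ⁻¹' (Fz z) from
                      hW3 A hA z hz)]
                    simp
                _ ≤ _ := Finset.sum_le_sum_of_subset (hW1 A hA)
            · simp only [Set.indicator_of_notMem hA]
              exact zero_le
    · intro z hz
      exact (measurable_one.indicator ((measurable_plant _) (hFz z hz))).aemeasurable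
  refine h1.trans ?_
  have h2 : ∑ z ∈ Z, randomOracle (plant (blk z) ⁻¹' (Fz z)) ≤
      ∑ z ∈ Z, 2 ^ m * randomOracle (Fz z) := by
    apply Finset.sum_le_sum
    intro z hz
    rw [measure_plant _ (hFz z hz), hm z hz]
    exact mul_le_mul_right (measure_mono Set.inter_subset_left) _
  refine h2.trans ?_
  rw [← Finset.mul_sum, ← measure_biUnion_finset (fun z hz z' hz' hne => hdisj z hz z' hz' hne)
    (fun z hz => hFz z hz)]
  apply mul_le_mul_right
  apply measure_mono
  exact Set.iUnion₂_subset hsub

/-- **The planting lemma**, existential form. -/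
theorem planting' {ι : Type*} (Z : Finset ι) (blk : ι → Finset (List Bool)) (m : ℕ)
    (hm : ∀ z ∈ Z, (blk z).card = m) {N F : Set (List Bool → Bool)} (hN : MeasurableSet N)
    (Fz : ι → Set (List Bool → Bool)) (hFz : ∀ z ∈ Z, MeasurableSet (Fz z))
    (hsub : ∀ z ∈ Z, Fz z ⊆ F) (hdisj : ∀ z ∈ Z, ∀ z' ∈ Z, z ≠ z' → Disjoint (Fz z) (Fz z'))
    (c : ℕ) (hW : ∀ A ∈ N, ∃ W ⊆ Z, c ≤ W.card ∧ ∀ z ∈ W, plant (blk z) A ∈ Fz z) :
    (c : ℝ≥0∞) * randomOracle N ≤ 2 ^ m * randomOracle F := by
  classical
  have h : ∀ A : List Bool → Bool, ∃ W : Finset ι, A ∈ N → (W ⊆ Z ∧ c ≤ W.card ∧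
      ∀ z ∈ W, plant (blk z) A ∈ Fz z) := by
    intro A
    by_cases hA : A ∈ N
    · obtain ⟨W, h1, h2, h3⟩ := hW A hA
      exact ⟨W, fun _ => ⟨h1, h2, h3⟩⟩
    · exact ⟨∅, fun h => absurd h hA⟩
  choose W hW' using h
  exact planting Z blk m hm hN Fz hFz hsub hdisj c W (fun A hA => (hW' A hA).1)
    (fun A hA => (hW' A hA).2.1) (fun A hA => (hW' A hA).2.2)

/-- all binary strings of length `n` -/
def strs (n : ℕ) : Finset (List Bool) :=
  (Finset.univ : Finset (Fin n → Bool)).map ⟨List.ofFn, List.ofFn_injective⟩

theorem mem_strs {n : ℕ} {w : List Bool} : w ∈ strs n ↔ w.length = n := by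
  unfold strs
  rw [Finset.mem_map]
  constructor
  · rintro ⟨f, _, rfl⟩; simp
  · rintro rfl
    exact ⟨w.get, Finset.mem_univ _, by simp⟩

theorem card_strs (n : ℕ) : (strs n).card = 2 ^ n := by
  unfold strs
  rw [Finset.card_map, Finset.card_univ]
  simp

/-- all binary strings of length at most `n` -/
def strsLe (n : ℕ) : Finset (List Bool) := (range (n + 1)).biUnion strs

theorem mem_strsLe {n : ℕ} {w : List Bool} : w ∈ strsLe n ↔ w.length ≤ n := by
  unfold strsLe
  simp only [mem_biUnion, mem_range, mem_strs]
  constructor
  · rintro ⟨a, h1, h2⟩; omega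
  · intro h; exact ⟨w.length, by omega, rfl⟩

end Pool.Agent.H88.RO
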