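import Pool.Agent.H88.RO.Strings

set_option autoImplicit false

/-! # The diagonalising search problem and its polynomial time program -/

namespace Pool.Agent.H88.RO

open Tr

variable {O : List Bool → Bool}

/-- branch on a tree being `leaf` -/
def cs (p a b : Tr) : Tr := if p = leaf then a else b

theorem cs_pos {p : Tr} (a b : Tr) (h : p = leaf) : cs p a b = a := by rw [cs, if_pos h]

theorem cs_neg {p : Tr} (a b : Tr) (h : p ≠ leaf) : cs p a b = b := by rw [cs, if_neg h]

@[simp] theorem cs_leaf (a b : Tr) : cs leaf a b = a := rfl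

@[simp] theorem cs_tt (a b : Tr) : cs tt a b = b := rfl

theorem FP.cs' {p F G : Tr → Tr} (hp : FP O p) (hF : FP O F) (hG : FP O G) :
    FP O (fun v => cs (p v) (F v) (G v)) := FP.ite' hp hF hG

/-- parameters of the construction -/
structure Par where
  k : ℕ
  a : ℕ
  d : ℕ
  k0 : ℕ
  p : Polynomial ℕ

namespace Par

variable (π : Par)

/-- the clock -/
def clk (b : ℕ) : ℕ := 2 ^ (b ^ π.k)

/-- the length of the solutions -/
def ell (b : ℕ) : ℕ := π.d * b ^ π.k

/-- the threat parameter -/
def kk (u : List Bool) : ℕ := π.k0 + 2 * u.length + 1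

/-- the instances -/
def inst (u : List Bool) (b : ℕ) : List Bool := List.replicate b true ++ false :: u

/-- ordinary solutions -/
def SolA (O : List Bool → Bool) (u : List Bool) (b : ℕ) (z : List Bool) : Prop :=
  z.length = π.ell b ∧ ∀ j < π.ell b - π.kk u, O (false :: (List.replicate j true ++ z)) = true

/-- first half of the reduction coded by `u` -/
def runF (O : List Bool → Bool) (u : List Bool) (b : ℕ) : Tr :=
  U O (fst (decode u)) (enc (inst u b)) (π.clk b)

/-- second half of the reduction coded by `u` -/
def runG (O : List Bool → Bool) (u : List Bool) (b : ℕ) (y : List Bool) : Tr :=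
  U O (snd (decode u)) (node (enc (inst u b)) (enc y)) (π.clk b)

/-- `y` witnesses that the reduction coded by `u` fails at the instance `inst u b` -/
def FailW (O : List Bool → Bool) (R : List Bool → List Bool → Bool) (u : List Bool) (b : ℕ)
    (y : List Bool) : Prop :=
  π.runF O u b = leaf ∨ (y.length ≤ π.p.eval (dec (snd (π.runF O u b))).length ∧
    R (dec (snd (π.runF O u b))) y = true ∧
    (π.runG O u b y = leaf ∨
      ¬ ∃ z, dec (snd (π.runG O u b y)) = false :: z ∧ π.SolA O u b z))

/-- the instances which carry a threat -/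
def Good (u : List Bool) (b : ℕ) : Prop := ∃ i, tow π.k π.a i = b ∧ u.length ≤ i

/-- the relation of the diagonalising problem -/
def RN (O : List Bool → Bool) (R : List Bool → List Bool → Bool) (x y : List Bool) : Prop :=
  ∀ b u, parse x = some (b, u) → π.Good u b →
    ((∃ z, y = false :: z ∧ π.SolA O u b z) ∨
      ∃ b' y', (∃ y1, y = true :: y1 ∧ parse y1 = some (b', y')) ∧ π.Good u b' ∧ b' < b ∧
        π.FailW O R u b' y')

/-! ### programs -/

/-- `ell` in unary -/
def ellT (b : Tr) : Tr := mulU (num π.d) (powU π.k b)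

/-- `kk` in unary -/
def kkT (u : Tr) : Tr := addU (num (π.k0 + 1)) (mulU (num 2) u)

@[simp] theorem ellT_eq (b : Tr) : π.ellT b = num (π.ell (len b)) := by
  simp [ellT, ell, len_num]

@[simp] theorem kkT_eq (u : List Bool) : π.kkT (enc u) = num (π.kk u) := by
  simp only [kkT, kk, mulU_eq, addU_num', len_num, len_enc]
  congr 1; omega

theorem FP_ellT {F : Tr → Tr} (hF : FP O F) : FP O (fun v => π.ellT (F v)) :=
  FP.mulU' (FP.const' _) (FP.powU' _ hF)

theorem FP_kkT {F : Tr → Tr} (hF : FP O F) : FP O (fun v => π.kkT (F v)) :=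
  FP.addU' (FP.const' _) (FP.mulU' (FP.const' _) hF)

/-- test for ordinary solutions -/
def solT (O : List Bool → Bool) (u b v : Tr) : Tr :=
  cs v leaf (cs (fst v)
    (cs (dropU (π.ellT b) (snd v))
      (cs (dropU (snd v) (π.ellT b)) (allQ O (dropU (π.kkT u) (π.ellT b)) (snd v))
        leaf) leaf) leaf)

theorem FP_solT {F G H : Tr → Tr} (hF : FP O F) (hG : FP O G) (hH : FP O H) :
    FP O (fun v => π.solT O (F v) (G v) (H v)) := by
  unfold solT
  refine FP.cs' hH FP.leaf' (FP.cs' (FP.fst' hH) (FP.cs'
    (FP.dropU' (π.FP_ellT hG) (FP.snd' hH)) (FP.cs' (FP.dropU' (FP.snd' hH) (π.FP_ellT hG))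
      (FP.allQ' (FP.dropU' (π.FP_kkT hF) (π.FP_ellT hG)) (FP.snd' hH)) FP.leaf') FP.leaf')
      FP.leaf')

theorem len_dropU (a b : Tr) : len (dropU a b) = len b - len a := by
  rw [dropU, len_snd_iter]

theorem bit_ne_leaf {b : Bool} : bit b ≠ leaf ↔ b = true := by cases b <;> simp [bit]

theorem solT_spec (u : List Bool) (b v : Tr) : π.solT O (enc u) b v ≠ leaf ↔
    ∃ z, dec v = false :: z ∧ π.SolA O u (len b) z := by
  cases v with
  | leaf => simp [solT, dec]
  | node c w =>
    by_cases hc : c = leaf
    · subst hc
      have e : dec (node leaf w) = false :: dec w := by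
        show decide (leaf ≠ leaf) :: dec w = _
        simp
      rw [e]
      simp only [List.cons.injEq, true_and, exists_eq_left']
      unfold solT SolA
      rw [cs_neg _ _ (by simp), fst_node, snd_node, cs_pos _ _ rfl, length_dec]
      by_cases h1 : len w ≤ π.ell (len b)
      · rw [cs_pos _ _ (by rw [dropU_eq_leaf, ellT_eq, len_num]; exact h1)]
        by_cases h2 : π.ell (len b) ≤ len w
        · rw [cs_pos _ _ (by rw [dropU_eq_leaf, ellT_eq, len_num]; exact h2), allQ_eq, bit_ne_leaf,
            decide_eq_true_eq, len_dropU, ellT_eq, kkT_eq]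
          simp only [len_num]
          constructor
          · intro h; exact ⟨by omega, h⟩
          · intro h; exact h.2
        · rw [cs_neg _ _ (by rw [ne_eq, dropU_eq_leaf, ellT_eq, len_num]; exact h2)]
          simp only [ne_eq, not_true_eq_false, false_iff, not_and]
          intro h; omega
      · rw [cs_neg _ _ (by rw [ne_eq, dropU_eq_leaf, ellT_eq, len_num]; exact h1)]
        simp only [ne_eq, not_true_eq_false, false_iff, not_and]
        intro h; omega
    · unfold solT
      rw [cs_neg _ _ (by simp), fst_node, cs_neg _ _ hc]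
      simp [hc, dec]

/-- test for failure witnesses -/
def failT (O : List Bool → Bool) (R : List Bool → List Bool → Bool) (P : Tr → Tr)
    (u b y K : Tr) : Tr :=
  cs (U O (fst (decodeT u)) (onesPre b (node leaf u)) (len K)) tt
    (cs (dropU (P (snd (U O (fst (decodeT u)) (onesPre b (node leaf u)) (len K)))) y)
      (cs (bit (R (dec (snd (U O (fst (decodeT u)) (onesPre b (node leaf u)) (len K)))) (dec y)))
        leaf
        (cs (U O (snd (decodeT u)) (node (onesPre b (node leaf u)) y) (len K)) tt
          (cs (π.solT O u b (snd (U O (snd (decodeT u)) (node (onesPre b (node leaf u)) y)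
            (len K)))) tt leaf))) leaf)

theorem FP_failT {R : List Bool → List Bool → Bool} (hR : PolyTimeRel O R) {P : Tr → Tr}
    (hP : ∀ F, FP O F → FP O (fun v => P (F v))) {F G H J : Tr → Tr} (hF : FP O F) (hG : FP O G)
    (hH : FP O H) (hJ : FP O J) :
    FP O (fun v => π.failT O R P (F v) (G v) (H v) (J v)) := by
  have hx : FP O (fun v => onesPre (G v) (node leaf (F v))) :=
    FP.onesPre' hG (FP.node' FP.leaf' hF)
  have h1 : FP O (fun v => U O (fst (decodeT (F v))) (onesPre (G v) (node leaf (F v)))
      (len (J v))) := FP.U' (FP.fst' (FP.decodeT' hF)) hx hJ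
  have h2 : FP O (fun v => U O (snd (decodeT (F v))) (node (onesPre (G v) (node leaf (F v))) (H v))
      (len (J v))) := FP.U' (FP.snd' (FP.decodeT' hF)) (FP.node' hx hH) hJ
  unfold failT
  refine FP.cs' h1 (FP.const' _) (FP.cs' (FP.dropU' (hP _ (FP.snd' h1)) hH)
    (FP.cs' (FP.rel hR (FP.snd' h1) hH) FP.leaf' (FP.cs' h2 (FP.const' _)
      (FP.cs' (π.FP_solT hF hG (FP.snd' h2)) (FP.const' _) FP.leaf'))) FP.leaf')

theorem failT_spec {R : List Bool → List Bool → Bool} {P : Tr → Tr}
    (hP : ∀ v, P v = num (π.p.eval (len v))) (u y : List Bool) (b K : Tr)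
    (hK : len K = π.clk (len b)) :
    π.failT O R P (enc u) b (enc y) K ≠ leaf ↔ π.FailW O R u (len b) y := by
  have hx : onesPre b (node leaf (enc u)) = enc (inst u (len b)) := by
    have : node leaf (enc u) = enc (false :: u) := rfl
    rw [this, onesPre_enc, inst]
  unfold failT FailW runF runG
  simp only [hx, decodeT_enc, hK, dec_enc, length_dec]
  by_cases h1 : U O (fst (decode u)) (enc (inst u (len b))) (π.clk (len b)) = leaf
  · rw [cs_pos _ _ h1]; simp [h1]
  · rw [cs_neg _ _ h1]
    simp only [h1, false_or]
    by_cases h2 : y.length ≤ π.p.eval (len (snd (U O (fst (decode u)) (enc (inst u (len b)))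
        (π.clk (len b)))))
    · rw [cs_pos _ _ (by rw [dropU_eq_leaf, hP, len_num, len_enc]; exact h2)]
      simp only [h2, true_and]
      by_cases h3 : R (dec (snd (U O (fst (decode u)) (enc (inst u (len b))) (π.clk (len b))))) y
          = true
      · rw [cs_neg _ _ (bit_ne_leaf.mpr h3)]
        simp only [h3, true_and]
        by_cases h4 : U O (snd (decode u)) (node (enc (inst u (len b))) (enc y)) (π.clk (len b))
            = leaf
        · rw [cs_pos _ _ h4]; simp [h4]
        · rw [cs_neg _ _ h4]
          simp only [h4, false_or]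
          rw [← π.solT_spec u b]
          by_cases h5 : π.solT O (enc u) b (snd (U O (snd (decode u))
              (node (enc (inst u (len b))) (enc y)) (π.clk (len b)))) = leaf
          · rw [cs_pos _ _ h5]; simp [h5]
          · rw [cs_neg _ _ h5]; simp [h5]
      · rw [Bool.not_eq_true] at h3
        rw [cs_pos _ _ (by rw [h3]; rfl)]
        simp [h3]
    · rw [cs_neg _ _ (by rw [ne_eq, dropU_eq_leaf, hP, len_num, len_enc]; exact h2)]
      simp [h2]

/-- test for threat instances -/
def goodT (u b : Tr) : Tr :=
  cs (dropU b (fst (towT π.k π.a b)))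
    (cs (dropU (fst (snd (towT π.k π.a b))) u) tt leaf) leaf

theorem FP_goodT {F G : Tr → Tr} (hF : FP O F) (hG : FP O G) :
    FP O (fun v => π.goodT (F v) (G v)) := by
  have h1 := FP.towT' (O := O) π.k π.a hG
  unfold goodT
  exact FP.cs' (FP.dropU' hG (FP.fst' h1)) (FP.cs' (FP.dropU' (FP.fst' (FP.snd' h1)) hF)
    (FP.const' _) FP.leaf') FP.leaf'

theorem goodT_spec (hk : 1 ≤ π.k) (u : List Bool) (b : Tr) :
    π.goodT (enc u) b ≠ leaf ↔ π.Good u (len b) := by
  obtain ⟨m, j, h1, h2⟩ := towT_spec π.k π.a hk b
  unfold goodT Good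
  rw [h1]
  simp only [fst_node, snd_node]
  rcases h2 with ⟨h2, h3⟩ | ⟨h2, h3⟩
  · rw [cs_pos _ _ (by rw [dropU_eq_leaf, len_num]; exact h2)]
    have : (∃ i, tow π.k π.a i = len b ∧ u.length ≤ i) ↔ u.length ≤ j := by
      constructor
      · rintro ⟨i, hi, hu⟩
        have : i = j := (tow_strictMono π.k π.a hk).injective (hi.trans h3.symm)
        omega
      · intro h; exact ⟨j, h3, h⟩
    rw [this]
    by_cases h4 : u.length ≤ j
    · rw [cs_pos _ _ (by rw [dropU_eq_leaf, len_num, len_enc]; exact h4)]
      simp [h4]
    · rw [cs_neg _ _ (by rw [ne_eq, dropU_eq_leaf, len_num, len_enc]; exact h4)]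
      simp [h4]
  · rw [cs_neg _ _ (by rw [ne_eq, dropU_eq_leaf, len_num]; omega)]
    simp only [ne_eq, not_true_eq_false, false_iff, not_exists, not_and]
    intro i hi
    exact absurd hi (h3 i)

/-- the program of the diagonalising relation -/
def relT (O : List Bool → Bool) (R : List Bool → List Bool → Bool) (P : Tr → Tr) (x y : Tr) : Tr :=
  cs (snd (snd (parseT x))) tt
    (cs (π.goodT (fst (snd (parseT x))) (fst (parseT x))) tt
      (cs y leaf
        (cs (fst y) (π.solT O (fst (snd (parseT x))) (fst (parseT x)) y)
          (cs (snd (snd (parseT (snd y)))) leaf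
            (cs (π.goodT (fst (snd (parseT x))) (fst (parseT (snd y)))) leaf
              (cs (dropU (fst (parseT x)) (node leaf (fst (parseT (snd y)))))
                (π.failT O R P (fst (snd (parseT x))) (fst (parseT (snd y)))
                  (fst (snd (parseT (snd y))))
                  (pow2cap (powU π.k (fst (parseT (snd y)))) (fst (parseT x))))
                leaf))))))

theorem FP_relT {R : List Bool → List Bool → Bool} (hR : PolyTimeRel O R) {P : Tr → Tr}
    (hP : ∀ F, FP O F → FP O (fun v => P (F v))) {F G : Tr → Tr} (hF : FP O F) (hG : FP O G) :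
    FP O (fun v => π.relT O R P (F v) (G v)) := by
  have h1 : FP O (fun v => parseT (F v)) := FP.parseT' hF
  have h2 : FP O (fun v => parseT (snd (G v))) := FP.parseT' (FP.snd' hG)
  unfold relT
  refine FP.cs' (FP.snd' (FP.snd' h1)) (FP.const' _)
    (FP.cs' (π.FP_goodT (FP.fst' (FP.snd' h1)) (FP.fst' h1)) (FP.const' _)
      (FP.cs' hG FP.leaf' (FP.cs' (FP.fst' hG)
        (π.FP_solT (FP.fst' (FP.snd' h1)) (FP.fst' h1) hG)
        (FP.cs' (FP.snd' (FP.snd' h2)) FP.leaf'
          (FP.cs' (π.FP_goodT (FP.fst' (FP.snd' h1)) (FP.fst' h2)) FP.leaf'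
            (FP.cs' (FP.dropU' (FP.fst' h1) (FP.node' FP.leaf' (FP.fst' h2)))
              (π.FP_failT hR hP (FP.fst' (FP.snd' h1)) (FP.fst' h2) (FP.fst' (FP.snd' h2))
                (FP.pow2cap' (FP.powU' _ (FP.fst' h2)) (FP.fst' h1))) FP.leaf'))))))

theorem clk_lt_of_good (hk : 1 ≤ π.k) {u : List Bool} {b b' : ℕ} (h : π.Good u b)
    (h' : π.Good u b') (hlt : b' < b) : 2 ^ π.clk b' ≤ b := by
  obtain ⟨i, hi, _⟩ := h
  obtain ⟨i', hi', _⟩ := h'
  have hm := tow_strictMono π.k π.a hk
  have : i' < i := by
    rw [← hm.lt_iff_lt, hi, hi']; exact hlt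
  have h1 : tow π.k π.a (i' + 1) ≤ tow π.k π.a i := hm.monotone (by omega)
  rw [hi] at h1
  have h2 : tow π.k π.a (i' + 1) = 2 ^ (2 ^ (tow π.k π.a i') ^ π.k) := rfl
  rw [h2, hi'] at h1
  exact h1

theorem relT_spec (hk : 1 ≤ π.k) {R : List Bool → List Bool → Bool} {P : Tr → Tr}
    (hP : ∀ v, P v = num (π.p.eval (len v))) (x y : List Bool) :
    π.relT O R P (enc x) (enc y) ≠ leaf ↔ π.RN O R x y := by
  unfold relT RN
  rw [parseT_enc]
  rcases hx : parse x with _ | ⟨b, u⟩
  · simp
  · simp only [fst_node, snd_node, Option.some.injEq, Prod.mk.injEq, cs_tt]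
    by_cases hg : π.Good u b
    · rw [cs_neg _ _ ((π.goodT_spec hk u (num b)).mpr (by rw [len_num]; exact hg))]
      have hall : ∀ Q : ℕ → List Bool → Prop,
          (∀ b_1 u_1, b = b_1 ∧ u = u_1 → π.Good u_1 b_1 → Q b_1 u_1) ↔ Q b u := by
        intro Q
        constructor
        · intro h; exact h b u ⟨rfl, rfl⟩ hg
        · rintro h b_1 u_1 ⟨rfl, rfl⟩ _; exact h
      rw [hall (fun b_1 u_1 => ((∃ z, y = false :: z ∧ π.SolA O u_1 b_1 z) ∨
        ∃ b' y', (∃ y1, y = true :: y1 ∧ parse y1 = some (b', y')) ∧ π.Good u_1 b' ∧ b' < b_1 ∧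
        π.FailW O R u_1 b' y'))]
      cases y with
      | nil => simp [enc]
      | cons c y =>
        cases c with
        | false =>
          have e1 : enc (false :: y) ≠ leaf := by simp [enc]
          have e2 : fst (enc (false :: y)) = leaf := rfl
          rw [cs_neg _ _ e1, cs_pos _ _ e2, π.solT_spec u (num b), dec_enc, len_num]
          simp
        | true =>
          have e1 : enc (true :: y) ≠ leaf := by simp [enc]
          have e2 : ¬ fst (enc (true :: y)) = leaf := by simp [enc, bit]
          have e3 : snd (enc (true :: y)) = enc y := rfl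
          rw [cs_neg _ _ e1, cs_neg _ _ e2, e3, parseT_enc]
          rcases hy : parse y with _ | ⟨b', y'⟩
          · simp [hy]
          · simp only [fst_node, snd_node, cs_tt]
            by_cases hg' : π.Good u b'
            · rw [cs_neg _ _ ((π.goodT_spec hk u (num b')).mpr (by rw [len_num]; exact hg'))]
              by_cases hlt : b' < b
              · rw [cs_pos _ _ (by rw [dropU_eq_leaf]; simp only [len, len_num]; omega)]
                have hK : len (pow2cap (powU π.k (num b')) (num b)) = π.clk (len (num b')) := by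
                  have h1 := π.clk_lt_of_good hk hg hg' hlt
                  have h2 : π.clk b' < 2 ^ π.clk b' := Nat.lt_two_pow_self
                  simp only [pow2cap_eq, powU_eq, len_num]
                  unfold clk at *
                  omega
                rw [π.failT_spec hP u y' (num b') _ hK, len_num]
                constructor
                · intro h
                  exact Or.inr ⟨b', y', ⟨y, rfl, hy⟩, hg', hlt, h⟩
                · rintro (⟨z, hz, _⟩ | ⟨b'', y'', ⟨y1, hy1, hy2⟩, _, _, h⟩)
                  · simp at hz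
                  · simp only [List.cons.injEq, true_and] at hy1
                    subst hy1
                    rw [hy] at hy2
                    simp only [Option.some.injEq, Prod.mk.injEq] at hy2
                    obtain ⟨rfl, rfl⟩ := hy2
                    exact h
              · rw [cs_neg _ _ (by rw [ne_eq, dropU_eq_leaf]; simp only [len, len_num]; omega)]
                simp only [ne_eq, not_true_eq_false, false_iff]
                rintro (⟨z, hz, _⟩ | ⟨b'', y'', ⟨y1, hy1, hy2⟩, _, h, _⟩)
                · simp at hz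
                · simp only [List.cons.injEq, true_and] at hy1
                  subst hy1
                  rw [hy] at hy2
                  simp only [Option.some.injEq, Prod.mk.injEq] at hy2
                  obtain ⟨rfl, rfl⟩ := hy2
                  exact hlt h
            · rw [cs_pos _ _ (by
                by_contra hcon
                have := (π.goodT_spec hk u (num b')).mp hcon
                rw [len_num] at this
                exact hg' this)]
              simp only [ne_eq, not_true_eq_false, false_iff]
              rintro (⟨z, hz, _⟩ | ⟨b'', y'', ⟨y1, hy1, hy2⟩, h, _, _⟩)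
              · simp at hz
              · simp only [List.cons.injEq, true_and] at hy1
                subst hy1
                rw [hy] at hy2
                simp only [Option.some.injEq, Prod.mk.injEq] at hy2
                obtain ⟨rfl, rfl⟩ := hy2
                exact hg' h
    · rw [cs_pos _ _ (by
        by_contra hcon
        have := (π.goodT_spec hk u (num b)).mp hcon
        rw [len_num] at this
        exact hg this)]
      simp only [ne_eq, tt_ne, not_false_eq_true, true_iff]
      rintro b1 u1 ⟨rfl, rfl⟩ h
      exact absurd h hg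

/-- the Boolean form of the relation -/
noncomputable def RNb (O : List Bool → Bool) (R : List Bool → List Bool → Bool)
    (x y : List Bool) : Bool := @decide (π.RN O R x y) (Classical.propDecidable _)

theorem RNb_eq {R : List Bool → List Bool → Bool} {x y : List Bool} :
    π.RNb O R x y = true ↔ π.RN O R x y := by
  unfold RNb
  exact @decide_eq_true_iff _ (Classical.propDecidable _)

theorem polyTime_RNb (hk : 1 ≤ π.k) {R : List Bool → List Bool → Bool} (hR : PolyTimeRel O R) :
    PolyTimeRel O (π.RNb O R) := by
  obtain ⟨P, hP1, hP2⟩ := exists_polyT π.p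
  have h1 : FP O (fun v => cs (π.relT O R P (fst v) (snd v)) leaf tt) :=
    FP.cs' (π.FP_relT hR (hP2 O) (FP.fst' FP.id') (FP.snd' FP.id')) FP.leaf' (FP.const' _)
  obtain ⟨c, q, hc⟩ := h1
  refine ⟨c, q.comp (4 * Polynomial.X + 3), fun x y => ?_⟩
  obtain ⟨t, ht, he⟩ := hc (node (enc x) (enc y))
  refine ⟨t, ht.trans ?_, ?_⟩
  · simp only [Polynomial.eval_comp, Polynomial.eval_add, Polynomial.eval_mul,
      Polynomial.eval_ofNat, Polynomial.eval_X]
    apply poly_mono
    have h1 := size_enc_le x
    have h2 := size_enc_le y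
    simp only [size]
    omega
  · simp only [fst_node, snd_node] at he
    have : cs (π.relT O R P (enc x) (enc y)) leaf tt = bit (π.RNb O R x y) := by
      by_cases h : π.RN O R x y
      · rw [cs_neg _ _ ((π.relT_spec hk hP1 x y).mpr h), π.RNb_eq.mpr h]; rfl
      · rw [cs_pos _ _ (by
          by_contra hcon
          exact h ((π.relT_spec hk hP1 x y).mp hcon))]
        have : π.RNb O R x y = false := by
          rw [← Bool.not_eq_true, π.RNb_eq]; exact h
        rw [this]; rfl
    rw [this] at he
    exact he

end Par

end Pool.Agent.H88.RO
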