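import Pool.Agent.H88.RO.Key

set_option autoImplicit false

/-! # Summing the threats -/

namespace Pool.Agent.H88.RO

open Tr MeasureTheory Finset
open scoped ENNReal

namespace Par

variable {π : Par} {B : List Bool → Bool} {τ : Tr} {q : Polynomial ℕ}

/-- the threat at `(u, i)` is realised -/
def Bad (π : Par) (B : List Bool → Bool) (τ : Tr) (q : Polynomial ℕ) (u : List Bool) (i : ℕ) :
    Set (List Bool → Bool) :=
  Tot B τ q π.p ∩ π.NF B τ q u i ∩ π.NoSol B u (tow π.k π.a i)

theorem measurable_Bad (h : π.Num q) (u : List Bool) (i : ℕ) :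
    MeasurableSet (Bad π B τ q u i) :=
  ((measurable_Tot _).inter (measurable_NF h u i)).inter (measurable_noSol u _)

theorem sum_bad_u (h : π.Num q) (u : List Bool) :
    randomOracle (⋃ n, Bad π B τ q u (u.length + n)) ≤ (2 ^ (π.k0 + 2 * u.length))⁻¹ := by
  have hkk : π.kk u - 1 = π.k0 + 2 * u.length := by unfold kk; omega
  have h1 : ∑' n, randomOracle (π.NF B τ q u (u.length + n) ∩
      π.Fail B τ q u (tow π.k π.a (u.length + n))) ≤ 1 := by
    rw [← measure_iUnion]
    · exact prob_le_one
    · intro m n hmn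
      rw [Function.onFun, Set.disjoint_left]
      rintro A ⟨hA1, hA2⟩ ⟨hA3, hA4⟩
      rcases lt_or_gt_of_ne hmn with hlt | hlt
      · exact hA3 (u.length + m) (by omega) (by omega) hA2
      · exact hA1 (u.length + n) (by omega) (by omega) hA4
    · intro n
      refine (measurable_NF h u _).inter (measurable_fail h u ?_)
      have := a_le_tow (π := π) h.hk (u.length + n)
      omega
  have h2 : (2 : ℝ≥0∞) ^ (π.k0 + 2 * u.length) *
      ∑' n, randomOracle (Bad π B τ q u (u.length + n)) ≤ 1 := by
    rw [← ENNReal.tsum_mul_left]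
    refine le_trans (ENNReal.tsum_le_tsum fun n => ?_) h1
    have := key (B := B) (τ := τ) h u (u.length + n) (by omega)
    rw [hkk] at this
    exact this
  refine (measure_iUnion_le _).trans ?_
  rw [ENNReal.le_inv_iff_mul_le, mul_comm]
  exact h2

theorem sum_bad (h : π.Num q) :
    randomOracle {A | ∃ u i, u.length ≤ i ∧ A ∈ Bad π B τ q u i} ≤ 2 * (2 ^ π.k0)⁻¹ := by
  have h1 : {A | ∃ u i, u.length ≤ i ∧ A ∈ Bad π B τ q u i} ⊆
      ⋃ s, ⋃ u ∈ strs s, ⋃ n, Bad π B τ q u (u.length + n) := by
    rintro A ⟨u, i, hi, hA⟩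
    simp only [Set.mem_iUnion]
    refine ⟨u.length, u, mem_strs.mpr rfl, i - u.length, ?_⟩
    rw [Nat.add_sub_cancel' hi]
    exact hA
  refine (measure_mono h1).trans ((measure_iUnion_le _).trans ?_)
  have h2 : ∀ s, randomOracle (⋃ u ∈ strs s, ⋃ n, Bad π B τ q u (u.length + n)) ≤
      (2⁻¹ : ℝ≥0∞) ^ s * (2 ^ π.k0)⁻¹ := by
    intro s
    refine (measure_biUnion_finset_le _ _).trans ?_
    have h3 : ∀ u ∈ strs s, randomOracle (⋃ n, Bad π B τ q u (u.length + n)) ≤
        (2 ^ (π.k0 + 2 * s))⁻¹ := by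
      intro u hu
      rw [← mem_strs.mp hu]
      exact sum_bad_u (B := B) (τ := τ) h u
    refine (Finset.sum_le_sum h3).trans ?_
    rw [Finset.sum_const, card_strs, nsmul_eq_mul]
    push_cast
    rw [pow_add, ENNReal.mul_inv (Or.inl (by positivity)) (Or.inl (by finiteness)), two_mul,
      pow_add, ENNReal.mul_inv (Or.inl (by positivity)) (Or.inl (by finiteness))]
    have e : (2 : ℝ≥0∞) ^ s * ((2 ^ π.k0)⁻¹ * ((2 ^ s)⁻¹ * (2 ^ s)⁻¹)) =
        ((2 : ℝ≥0∞) ^ s * (2 ^ s)⁻¹) * ((2 ^ s)⁻¹ * (2 ^ π.k0)⁻¹) := by ring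
    rw [e, ENNReal.mul_inv_cancel (by positivity) (by finiteness), one_mul, ENNReal.inv_pow]
  refine (ENNReal.tsum_le_tsum h2).trans ?_
  rw [ENNReal.tsum_mul_right, ENNReal.tsum_geometric, ENNReal.one_sub_inv_two, inv_inv]

/-! ### ordinary solutions do not always exist -/

theorem blk_length {u : List Bool} {b : ℕ} {z w : List Bool} (hz : z.length = π.ell b)
    (hw : w ∈ π.blk u b z) : π.ell b ≤ w.length ∧ w.length ≤ 2 * π.ell b := by
  unfold blk at hw
  rw [mem_image] at hw
  obtain ⟨j, hj, rfl⟩ := hw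
  rw [mem_range] at hj
  rw [List.length_append, List.length_replicate, hz]
  omega

theorem blk_disjoint {u : List Bool} {b : ℕ} {z z' : List Bool} (hz : z.length = π.ell b)
    (hz' : z'.length = π.ell b) (hne : z ≠ z') : Disjoint (π.blk u b z) (π.blk u b z') := by
  rw [Finset.disjoint_left]
  intro w hw hw'
  unfold blk at hw hw'
  rw [mem_image] at hw hw'
  obtain ⟨j, _, rfl⟩ := hw
  obtain ⟨j', _, hj'⟩ := hw'
  have hlen := congrArg List.length hj'
  rw [List.length_append, List.length_append, List.length_replicate,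
    List.length_replicate, hz, hz'] at hlen
  have : j' = j := by omega
  subst this
  exact hne (List.append_cancel_left hj').symm

/-- the region of `(u, b)` -/
def region (π : Par) (u : List Bool) (b : ℕ) (Z : Finset (List Bool)) : Finset (List Bool) :=
  Z.biUnion (π.blk u b)

theorem noSol_eq (u : List Bool) (b : ℕ) :
    π.NoSol B u b = {A | ∀ z ∈ strs (π.ell b), A ∉ ones (π.blk u b z)} := by
  ext A
  simp only [NoSol, Set.mem_ofPred_eq, π.solA_iff, not_and]

theorem dep_noOnes (u : List Bool) (b : ℕ) (Z : Finset (List Bool)) :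
    Dep (region π u b Z) {A | ∀ z ∈ Z, A ∉ ones (π.blk u b z)} := by
  intro A A' hA
  have : ∀ z ∈ Z, (A ∈ ones (π.blk u b z) ↔ A' ∈ ones (π.blk u b z)) := by
    intro z hz
    exact (dep_ones (π.blk u b z)) A A' (fun w hw => hA w (mem_biUnion.mpr ⟨z, hz, hw⟩))
  constructor
  · intro h z hz; rw [← this z hz]; exact h z hz
  · intro h z hz; rw [this z hz]; exact h z hz

theorem real_noOnes (u : List Bool) (b : ℕ) (Z : Finset (List Bool)) (hZ : Z ⊆ strs (π.ell b)) :
    randomOracle.real {A | ∀ z ∈ Z, A ∉ ones (π.blk u b z)} =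
      (1 - (2 ^ (π.ell b - π.kk u))⁻¹) ^ Z.card := by
  classical
  induction Z using Finset.induction_on with
  | empty =>
    have : {A : List Bool → Bool | ∀ z ∈ (∅ : Finset (List Bool)), A ∉ ones (π.blk u b z)} =
        Set.univ := by ext A; simp
    rw [this]; simp
  | insert z Z hz ih =>
    have h1 : {A | ∀ z' ∈ insert z Z, A ∉ ones (π.blk u b z')} =
        (ones (π.blk u b z))ᶜ ∩ {A | ∀ z ∈ Z, A ∉ ones (π.blk u b z)} := by
      ext A
      simp
    have hzl : z.length = π.ell b := mem_strs.mp (hZ (mem_insert_self _ _))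
    have hdis : Disjoint (π.blk u b z) (region π u b Z) := by
      unfold region
      rw [Finset.disjoint_biUnion_right]
      intro z' hz'
      exact blk_disjoint hzl (mem_strs.mp (hZ (mem_insert_of_mem hz')))
        (fun e => hz (e ▸ hz'))
    rw [h1, measureReal_def, measure_inter hdis (dep_ones _).compl (dep_noOnes u b Z),
      ENNReal.toReal_mul, ← measureReal_def, ← measureReal_def,
      ih (fun w hw => hZ (mem_insert_of_mem hw)),
      probReal_compl_eq_one_sub (dep_ones _).measurableSet, card_insert_of_notMem hz, pow_succ,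
      mul_comm]
    congr 2
    rw [measureReal_def, measure_ones, card_blk]
    simp

theorem quarter_le (m : ℕ) (hm : 1 ≤ m) : (1 / 4 : ℝ) ≤ (1 - (2 ^ m)⁻¹) ^ (2 ^ m) := by
  have h1 : (1 / 2 : ℝ) ≤ (1 - (2 ^ m)⁻¹) ^ (2 ^ (m - 1)) := by
    have h2 : (2 : ℝ) ^ m = 2 * 2 ^ (m - 1) := by rw [← pow_succ']; congr 1; omega
    have h3 := one_add_mul_le_pow (a := -((2 : ℝ) ^ m)⁻¹) (by
      have : ((2 : ℝ) ^ m)⁻¹ ≤ 1 := inv_le_one_of_one_le₀ (one_le_pow₀ (by norm_num))
      linarith) (2 ^ (m - 1))
    have h4 : 1 + ((2 ^ (m - 1) : ℕ) : ℝ) * -((2 : ℝ) ^ m)⁻¹ = 1 / 2 := by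
      rw [h2]
      have h5 : (2 : ℝ) ^ (m - 1) ≠ 0 := by positivity
      push_cast
      field_simp
      norm_num
    rw [h4] at h3
    rw [sub_eq_add_neg]
    exact h3
  have h2 : (2 : ℕ) ^ m = 2 ^ (m - 1) * 2 := by rw [← pow_succ]; congr 1; omega
  rw [h2, pow_mul]
  nlinarith

theorem real_noSol_ge (h : π.Num q) {u : List Bool} {i : ℕ} (hu : u.length ≤ i) :
    (1 / 4 : ℝ) ^ (2 ^ π.kk u) ≤ randomOracle.real (π.NoSol B u (tow π.k π.a i)) := by
  have hkk := h.kk_lt hu
  rw [noSol_eq, real_noOnes u _ _ (Finset.Subset.refl _), card_strs]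
  set m := π.ell (tow π.k π.a i) - π.kk u with hm
  have h1 : (2 : ℕ) ^ π.ell (tow π.k π.a i) = 2 ^ m * 2 ^ π.kk u := by
    rw [← pow_add]; congr 1; omega
  rw [h1, pow_mul]
  exact pow_le_pow_left₀ (by norm_num) (quarter_le m (by omega)) _

theorem region_bounds {u : List Bool} {b : ℕ} {w : List Bool}
    (hw : w ∈ region π u b (strs (π.ell b))) : π.ell b ≤ w.length ∧ w.length ≤ 2 * π.ell b := by
  unfold region at hw
  rw [mem_biUnion] at hw
  obtain ⟨z, hz, hw⟩ := hw
  exact blk_length (mem_strs.mp hz) hw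

/-- almost surely, some threat instance of `u` has no ordinary solution -/
theorem ae_noSol (h : π.Num q) (u : List Bool) :
    ∀ᵐ A ∂randomOracle, ∃ i, u.length ≤ i ∧ A ∈ π.NoSol B u (tow π.k π.a i) := by
  set η : ℝ := (1 / 4 : ℝ) ^ (2 ^ π.kk u) with hη
  have hη0 : 0 < η := by positivity
  have hη1 : η ≤ 1 := pow_le_one₀ (by norm_num) (by norm_num)
  -- finite intersections
  have key : ∀ N : ℕ, ∃ S : Finset (List Bool), (∀ w ∈ S, ∃ n < N, w ∈ region π u
      (tow π.k π.a (u.length + n)) (strs (π.ell (tow π.k π.a (u.length + n))))) ∧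
      Dep S {A | ∀ n < N, A ∉ π.NoSol B u (tow π.k π.a (u.length + n))} ∧
      randomOracle.real {A | ∀ n < N, A ∉ π.NoSol B u (tow π.k π.a (u.length + n))} ≤
        (1 - η) ^ N := by
    classical
    intro N
    induction N with
    | zero =>
      refine ⟨∅, by simp, ?_, ?_⟩
      · intro A A' _; simp
      · rw [pow_zero]; exact measureReal_le_one
    | succ N ih =>
      obtain ⟨S, hS1, hS2, hS3⟩ := ih
      set b := tow π.k π.a (u.length + N) with hb
      have hE : {A | ∀ n < N + 1, A ∉ π.NoSol B u (tow π.k π.a (u.length + n))} =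
          {A | ∀ n < N, A ∉ π.NoSol B u (tow π.k π.a (u.length + n))} ∩ (π.NoSol B u b)ᶜ := by
        ext A
        simp only [Set.mem_ofPred_eq, Set.mem_inter_iff, Set.mem_compl_iff]
        constructor
        · intro h'; exact ⟨fun n hn => h' n (by omega), h' N (by omega)⟩
        · rintro ⟨h1, h2⟩ n hn
          rcases Nat.lt_or_ge n N with h3 | h3
          · exact h1 n h3
          · have : n = N := by omega
            rw [this]; exact h2
      have hdepN : Dep (region π u b (strs (π.ell b))) (π.NoSol B u b)ᶜ := by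
        rw [noSol_eq]
        exact (dep_noOnes u b _).compl
      have hdisj : Disjoint S (region π u b (strs (π.ell b))) := by
        rw [Finset.disjoint_left]
        intro w hw hw'
        obtain ⟨n, hn, hw1⟩ := hS1 w hw
        have h1 := region_bounds hw1
        have h2 := region_bounds hw'
        have h3 := h.lt_ell (show u.length + n < u.length + N by omega)
        rw [← hb] at h3
        have h4 : ∀ l : ℕ, 1 ≤ l → 2 * l ≤ 2 ^ l := by
          intro l hl
          induction l with
          | zero => omega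
          | succ l ihl =>
            rcases Nat.eq_zero_or_pos l with rfl | h0
            · norm_num
            · have := ihl h0
              rw [pow_succ]; omega
        rcases Nat.eq_zero_or_pos (π.ell (tow π.k π.a (u.length + n))) with h0 | h0
        · rw [h0] at h3 h1
          omega
        · have := h4 _ h0
          omega
      refine ⟨S ∪ region π u b (strs (π.ell b)), ?_, ?_, ?_⟩
      · intro w hw
        rw [mem_union] at hw
        rcases hw with hw | hw
        · obtain ⟨n, hn, hw1⟩ := hS1 w hw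
          exact ⟨n, by omega, hw1⟩
        · exact ⟨N, by omega, hw⟩
      · rw [hE]
        exact (hS2.mono subset_union_left).inter (hdepN.mono subset_union_right)
      · rw [hE, measureReal_def, measure_inter hdisj hS2 hdepN, ENNReal.toReal_mul,
          ← measureReal_def, ← measureReal_def, pow_succ,
          probReal_compl_eq_one_sub (measurable_noSol u b)]
        have h5 := real_noSol_ge (B := B) h (show u.length ≤ u.length + N by omega)
        rw [← hb, ← hη] at h5
        apply mul_le_mul hS3 (by linarith)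
        · have := measureReal_le_one (μ := randomOracle) (s := π.NoSol B u b)
          linarith
        · exact pow_nonneg (by linarith) _
  -- conclusion
  rw [ae_iff]
  have hset : {A | ¬ ∃ i, u.length ≤ i ∧ A ∈ π.NoSol B u (tow π.k π.a i)} ⊆
      ⋂ N : ℕ, {A | ∀ n < N, A ∉ π.NoSol B u (tow π.k π.a (u.length + n))} := by
    intro A hA
    simp only [Set.mem_ofPred_eq, not_exists, not_and] at hA
    simp only [Set.mem_iInter, Set.mem_ofPred_eq]
    intro N n _
    exact hA _ (by omega)
  refine measure_mono_null hset ?_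
  rw [← measureReal_eq_zero_iff]
  have hle : ∀ N : ℕ, randomOracle.real (⋂ N : ℕ,
      {A | ∀ n < N, A ∉ π.NoSol B u (tow π.k π.a (u.length + n))}) ≤ (1 - η) ^ N := by
    intro N
    obtain ⟨_, _, _, h3⟩ := key N
    exact (measureReal_mono (Set.iInter_subset _ N)).trans h3
  have hlim : Filter.Tendsto (fun N : ℕ => (1 - η) ^ N) Filter.atTop (nhds 0) :=
    tendsto_pow_atTop_nhds_zero_of_lt_one (by linarith) (by linarith)
  exact le_antisymm (ge_of_tendsto' hlim hle) measureReal_nonneg

end Par

end Pool.Agent.H88.RO
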