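import Pool.Agent.H88.RO.Model

set_option autoImplicit false

/-! # Closure properties of polynomial time -/

namespace Pool.Agent.H88.RO

open Tr

variable {O : List Bool → Bool}

theorem poly_mono (q : Polynomial ℕ) {m n : ℕ} (h : m ≤ n) : q.eval m ≤ q.eval n := by
  induction q using Polynomial.induction_on' with
  | add p q hp hq => simp only [Polynomial.eval_add]; exact Nat.add_le_add hp hq
  | monomial k a =>
    simp only [Polynomial.eval_monomial]
    exact Nat.mul_le_mul_left _ (Nat.pow_le_pow_left h _)

theorem size_pos (v : Tr) : 1 ≤ size v := by cases v <;> simp [size]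

theorem size_fst_le (v : Tr) : size (fst v) ≤ size v := by
  cases v with
  | leaf => simp [fst]
  | node a b => simp only [fst, size]; omega

theorem size_snd_le (v : Tr) : size (snd v) ≤ size v := by
  cases v with
  | leaf => simp [snd]
  | node a b => simp only [snd, size]; omega

theorem size_bit_le (b : Bool) : size (bit b) ≤ 3 := by cases b <;> simp [bit, size]

/-- length of the right spine -/
def len : Tr → ℕ
  | leaf => 0
  | node _ b => len b + 1

theorem len_le_size (v : Tr) : len v + 1 ≤ size v := by
  induction v with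
  | leaf => simp [len, size]
  | node a b iha ihb => simp only [len, size]; have := size_pos a; omega

theorem Eval.cost_ge {c : Prog} {v w : Tr} {t : ℕ} (h : Eval O c v w t) : size v + 1 ≤ t := by
  cases h <;> omega

theorem Eval.size_le {c : Prog} {v w : Tr} {t : ℕ} (h : Eval O c v w t) : size w ≤ 2 * t := by
  induction h with
  | id v => omega
  | nil v => simp [size]; omega
  | fst v => have := size_fst_le v; omega
  | snd v => have := size_snd_le v; omega
  | query v => have := size_bit_le (O (dec v)); have := size_pos v; omega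
  | pair hf hg ihf ihg => simp only [size]; omega
  | comp hg hf ihg ihf => omega
  | condNil h hf ihf => omega
  | condNode h hf ihf => omega
  | @loopDone f v h => have := size_snd_le v; omega
  | loopStep h hf hl ihf ihl => omega

/-- Polynomial-time computable functions on trees. -/
def FP (O : List Bool → Bool) (F : Tr → Tr) : Prop :=
  ∃ (c : Prog) (q : Polynomial ℕ), ∀ v, ∃ t ≤ q.eval (size v), Eval O c v (F v) t

namespace FP

theorem size_bound {F : Tr → Tr} (h : FP O F) : ∃ q : Polynomial ℕ, ∀ v, size (F v) ≤ q.eval (size v) := by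
  obtain ⟨c, q, hq⟩ := h
  refine ⟨2 * q, fun v => ?_⟩
  obtain ⟨t, ht, he⟩ := hq v
  have := he.size_le
  simp only [Polynomial.eval_mul, Polynomial.eval_ofNat]
  omega

theorem id' : FP O (fun v => v) :=
  ⟨Prog.id, Polynomial.X + 1, fun v => ⟨size v + 1, by simp, Eval.id v⟩⟩

theorem comp' {F G : Tr → Tr} (hF : FP O F) (hG : FP O G) : FP O (fun v => F (G v)) := by
  obtain ⟨s, hs⟩ := hG.size_bound
  obtain ⟨cF, qF, hF⟩ := hF
  obtain ⟨cG, qG, hG⟩ := hG
  refine ⟨Prog.comp cF cG, qG + qF.comp s + Polynomial.X + 1, fun v => ?_⟩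
  obtain ⟨t1, ht1, he1⟩ := hG v
  obtain ⟨t2, ht2, he2⟩ := hF (G v)
  refine ⟨t1 + t2 + size v + 1, ?_, Eval.comp he1 he2⟩
  simp only [Polynomial.eval_add, Polynomial.eval_comp, Polynomial.eval_X, Polynomial.eval_one]
  have := poly_mono qF (hs v)
  omega

theorem node' {F G : Tr → Tr} (hF : FP O F) (hG : FP O G) : FP O (fun v => node (F v) (G v)) := by
  obtain ⟨cF, qF, hF⟩ := hF
  obtain ⟨cG, qG, hG⟩ := hG
  refine ⟨Prog.pair cF cG, qF + qG + Polynomial.X + 1, fun v => ?_⟩
  obtain ⟨t1, ht1, he1⟩ := hF v
  obtain ⟨t2, ht2, he2⟩ := hG v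
  refine ⟨t1 + t2 + size v + 1, ?_, Eval.pair he1 he2⟩
  simp only [Polynomial.eval_add, Polynomial.eval_X, Polynomial.eval_one]
  omega

theorem fst' {F : Tr → Tr} (hF : FP O F) : FP O (fun v => fst (F v)) :=
  comp' ⟨Prog.fst, Polynomial.X + 1, fun v => ⟨size v + 1, by simp, Eval.fst v⟩⟩ hF

theorem snd' {F : Tr → Tr} (hF : FP O F) : FP O (fun v => snd (F v)) :=
  comp' ⟨Prog.snd, Polynomial.X + 1, fun v => ⟨size v + 1, by simp, Eval.snd v⟩⟩ hF

theorem query' {F : Tr → Tr} (hF : FP O F) : FP O (fun v => bit (O (dec (F v)))) :=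
  comp' (F := fun v => bit (O (dec v)))
    ⟨Prog.query, Polynomial.X + 1, fun v => ⟨size v + 1, by simp, Eval.query v⟩⟩ hF

theorem leaf' : FP O (fun _ => leaf) :=
  ⟨Prog.nil, Polynomial.X + 1, fun v => ⟨size v + 1, by simp, Eval.nil v⟩⟩

theorem const' (w : Tr) : FP O (fun _ => w) := by
  induction w with
  | leaf => exact leaf'
  | node a b iha ihb => exact node' iha ihb

open Classical in
theorem ite' {p F G : Tr → Tr} (hp : FP O p) (hF : FP O F) (hG : FP O G) :
    FP O (fun v => if p v = leaf then F v else G v) := by
  have key : FP O (fun v => if fst v = leaf then F (snd v) else G (snd v)) := by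
    obtain ⟨cF, qF, hF⟩ := hF
    obtain ⟨cG, qG, hG⟩ := hG
    refine ⟨Prog.cond cF cG, qF + qG + Polynomial.X + 1, fun v => ?_⟩
    by_cases hv : fst v = leaf
    · obtain ⟨t1, ht1, he1⟩ := hF (snd v)
      refine ⟨t1 + size v + 1, ?_, ?_⟩
      · simp only [Polynomial.eval_add, Polynomial.eval_X, Polynomial.eval_one]
        have := poly_mono qF (size_snd_le v)
        omega
      · simp only [hv, if_true]
        exact Eval.condNil hv he1
    · obtain ⟨t1, ht1, he1⟩ := hG (snd v)
      refine ⟨t1 + size v + 1, ?_, ?_⟩
      · simp only [Polynomial.eval_add, Polynomial.eval_X, Polynomial.eval_one]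
        have := poly_mono qG (size_snd_le v)
        omega
      · simp only [hv, if_false]
        exact Eval.condNode hv he1
  exact comp' (F := fun v => if fst v = leaf then F (snd v) else G (snd v)) key (node' hp id')

/-- The loop program applying a body a number of times given by a counter. -/
def loopBody (c : Prog) : Prog :=
  Prog.pair (Prog.comp Prog.snd Prog.fst) (Prog.comp c Prog.snd)

theorem eval_loop {F : Tr → Tr} {c : Prog} {q : Polynomial ℕ}
    (hc : ∀ v, ∃ t ≤ q.eval (size v), Eval O c v (F v) t) (B : ℕ) (w : Tr) :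
    ∀ x : Tr, (∀ i ≤ len w, size (F^[i] x) ≤ B) →
      ∃ t ≤ (len w + 1) * (q.eval B + 7 * (size w + B + 2)),
        Eval O (Prog.loop (loopBody c)) (node w x) (F^[len w] x) t := by
  induction w with
  | leaf =>
    intro x hx
    refine ⟨size (node leaf x) + 1, ?_, ?_⟩
    · have := hx 0 (by simp)
      simp only [Function.iterate_zero, id] at this
      simp only [len, size]
      omega
    · exact Eval.loopDone (O := O) (f := loopBody c) (v := node leaf x) rfl
  | node a b _ ih =>
    intro x hx
    have hx0 : size x ≤ B := by simpa using hx 0 (by simp)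
    obtain ⟨t1, ht1, he1⟩ := hc x
    obtain ⟨t2, ht2, he2⟩ := ih (F x) (by
      intro i hi
      have := hx (i + 1) (by simp only [len]; omega)
      simpa [Function.iterate_succ] using this)
    have hbody : Eval O (loopBody c) (node (node a b) x) (node b (F x))
        (((size (node (node a b) x) + 1) + (size (node a b) + 1) + size (node (node a b) x) + 1) +
          ((size (node (node a b) x) + 1) + t1 + size (node (node a b) x) + 1) +
          size (node (node a b) x) + 1) :=
      Eval.pair (Eval.comp (Eval.fst _) (Eval.snd _)) (Eval.comp (Eval.snd _) he1)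
    have hstep := Eval.loopStep (O := O) (f := loopBody c) (v := node (node a b) x)
      (by simp [fst]) hbody he2
    refine ⟨_, ?_, by simpa [len, Function.iterate_succ] using hstep⟩
    have h1 : q.eval (size x) ≤ q.eval B := poly_mono q hx0
    have h2 : (len b + 1) * (q.eval B + 7 * (size b + B + 2)) ≤
        (len b + 1) * (q.eval B + 7 * (size (node a b) + B + 2)) := by
      apply Nat.mul_le_mul_left
      simp only [size]; omega
    have h3 : (len (node a b) + 1) * (q.eval B + 7 * (size (node a b) + B + 2)) =
        (len b + 1) * (q.eval B + 7 * (size (node a b) + B + 2)) +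
        (q.eval B + 7 * (size (node a b) + B + 2)) := by simp only [len]; ring
    rw [h3]
    have h4 : t2 ≤ (len b + 1) * (q.eval B + 7 * (size (node a b) + B + 2)) := ht2.trans h2
    simp only [size] at h4 ht1 h1 ⊢
    omega

theorem iterate' {F N X : Tr → Tr} (hF : FP O F) (hN : FP O N) (hX : FP O X)
    (hb : ∃ P : Polynomial ℕ, ∀ n x i, i ≤ len n → size (F^[i] x) ≤ P.eval (size n + size x)) :
    FP O (fun v => F^[len (N v)] (X v)) := by
  have key : FP O (fun v => F^[len (fst v)] (snd v)) := by
    obtain ⟨c, q, hc⟩ := hF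
    obtain ⟨P, hP⟩ := hb
    refine ⟨Prog.comp (Prog.loop (loopBody c)) (Prog.pair Prog.fst Prog.snd),
      (Polynomial.X + 1) * (q.comp (P.comp (2 * Polynomial.X)) +
        7 * (Polynomial.X + P.comp (2 * Polynomial.X) + 2)) +
        4 * (Polynomial.X + 1), fun v => ?_⟩
    have hlen : len (fst v) ≤ size v := by
      have := len_le_size (fst v); have := size_fst_le v; omega
    obtain ⟨t, ht, he⟩ := eval_loop (O := O) hc (P.eval (2 * size v)) (fst v) (snd v) (by
      intro i hi
      refine (hP (fst v) (snd v) i hi).trans (poly_mono P ?_)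
      have := size_fst_le v; have := size_snd_le v; omega)
    have h1 := Eval.comp (Eval.pair (Eval.fst (O := O) v) (Eval.snd v)) he
    refine ⟨_, ?_, h1⟩
    simp only [Polynomial.eval_add, Polynomial.eval_mul, Polynomial.eval_comp, Polynomial.eval_X,
      Polynomial.eval_one, Polynomial.eval_ofNat]
    have h2 : (len (fst v) + 1) * (q.eval (P.eval (2 * size v)) +
        7 * (size (fst v) + P.eval (2 * size v) + 2)) ≤
        (size v + 1) * (q.eval (P.eval (2 * size v)) +
        7 * (size v + P.eval (2 * size v) + 2)) := by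
      apply Nat.mul_le_mul (by omega)
      have := size_fst_le v
      omega
    omega
  exact comp' (F := fun v => F^[len (fst v)] (snd v)) key (node' hN hX)

end FP

end Pool.Agent.H88.RO
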