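import Pool.Agent.H88.RO.Relation
import Pool.Agent.H88.RO.Measure

set_option autoImplicit false

/-! # The key inequality -/

namespace Pool.Agent.H88.RO

open Tr MeasureTheory Finset
open scoped ENNReal

/-- the relation coded by `τ` with clock `q` -/
def Rof (O : List Bool → Bool) (τ : Tr) (q : Polynomial ℕ) (s y : List Bool) : Bool :=
  decide (U O τ (node (enc s) (enc y)) (q.eval (s.length + y.length)) = node leaf tt)

theorem exists_Rof {O : List Bool → Bool} {R : List Bool → List Bool → Bool}
    (hR : PolyTimeRel O R) : ∃ τ q, R = Rof O τ q := by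
  obtain ⟨c, q, hc⟩ := hR
  refine ⟨code c, Polynomial.C (size (code c) + 10) * q + 10, ?_⟩
  funext s y
  obtain ⟨t, ht, he⟩ := hc s y
  unfold Rof
  rw [U_eq he (by
    simp only [Polynomial.eval_add, Polynomial.eval_mul, Polynomial.eval_C,
      Polynomial.eval_ofNat]
    exact Nat.add_le_add_right (Nat.mul_le_mul_left _ ht) _)]
  cases R s y <;> simp [bit, tt]

theorem Rof_local' {O O' : List Bool → Bool} (τ : Tr) (q : Polynomial ℕ) (s y : List Bool)
    (h : ∀ w : List Bool, w.length ≤ q.eval (s.length + y.length) → O' w = O w) :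
    Rof O' τ q s y = Rof O τ q s y := by
  unfold Rof
  rw [U_local' _ _ _ h]

theorem Rof_local (O : List Bool → Bool) (τ : Tr) (q : Polynomial ℕ) (s y : List Bool) :
    ∃ Q : Finset (List Bool), Q.card ≤ q.eval (s.length + y.length) ∧
      ∀ O' : List Bool → Bool, (∀ w ∈ Q, O' w = O w) → Rof O' τ q s y = Rof O τ q s y := by
  obtain ⟨Q, h1, _, h3⟩ := U_local O τ (node (enc s) (enc y)) (q.eval (s.length + y.length))
  refine ⟨Q, h1, fun O' hO' => ?_⟩
  unfold Rof
  rw [h3 O' hO']

theorem join_agree {A A' B : List Bool → Bool} {L : ℕ} (h : ∀ w, w.length ≤ L → A w = A' w) :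
    ∀ w, w.length ≤ L → join A' B w = join A B w := by
  intro w hw
  cases w with
  | nil => rfl
  | cons b w =>
    cases b with
    | false => exact (h w (by simp only [List.length_cons] at hw; omega)).symm
    | true => rfl

namespace Par

variable (π : Par) (B : List Bool → Bool) (τ : Tr) (q : Polynomial ℕ)

/-- the block of queries of `z` -/
def blk (u : List Bool) (b : ℕ) (z : List Bool) : Finset (List Bool) :=
  (range (π.ell b - π.kk u)).image (fun j => List.replicate j true ++ z)

theorem card_blk (u : List Bool) (b : ℕ) (z : List Bool) :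
    (π.blk u b z).card = π.ell b - π.kk u := by
  unfold blk
  rw [card_image_of_injective, card_range]
  intro i j hij
  have := congrArg List.length hij
  simpa using this

theorem solA_iff (A : List Bool → Bool) (u : List Bool) (b : ℕ) (z : List Bool) :
    π.SolA (join A B) u b z ↔ z ∈ strs (π.ell b) ∧ A ∈ ones (π.blk u b z) := by
  unfold SolA ones blk
  rw [mem_strs]
  simp only [mem_image, mem_range, forall_exists_index, and_imp, forall_apply_eq_imp_iff₂,
    Set.mem_ofPred_eq]
  rfl

/-- failure of the reduction coded by `u` at `b` -/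
def Fail (u : List Bool) (b : ℕ) : Set (List Bool → Bool) :=
  {A | ∃ y : List Bool, y.length ≤ π.p.eval (π.clk b) ∧
    π.FailW (join A B) (Rof (join A B) τ q) u b y}

/-- no ordinary solution -/
def NoSol (u : List Bool) (b : ℕ) : Set (List Bool → Bool) :=
  {A | ∀ z, ¬ π.SolA (join A B) u b z}

/-- no earlier failure -/
def NF (u : List Bool) (i : ℕ) : Set (List Bool → Bool) :=
  {A | ∀ i', u.length ≤ i' → i' < i → A ∉ π.Fail B τ q u (tow π.k π.a i')}

/-- the coded problem is total -/
def Tot (p : Polynomial ℕ) : Set (List Bool → Bool) :=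
  {A | ∀ s, ∃ y : List Bool, y.length ≤ p.eval s.length ∧ Rof (join A B) τ q s y = true}

/-- the numerical hypotheses -/
structure Num : Prop where
  hk : 1 ≤ π.k
  hd : 2 ≤ π.d
  ha : π.k0 + 1 ≤ π.a
  h1 : ∀ b, π.a ≤ b → 2 * π.clk b + q.eval (π.clk b + π.p.eval (π.clk b)) + 1 ≤
    2 ^ (π.ell b - 1)
  h2 : ∀ b, π.a ≤ b → 2 ^ π.ell b < 2 ^ π.clk b
  h3 : ∀ b, π.a ≤ b → π.p.eval (π.clk b) ≤ 2 ^ π.clk b

variable {π B τ q}

theorem a_le_tow (hk : 1 ≤ π.k) (i : ℕ) : π.a + i ≤ tow π.k π.a i := by
  induction i with
  | zero => simp [tow]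
  | succ i ih =>
    have := tow_lt_succ π.k π.a i hk
    omega

theorem Num.ell_ge (h : π.Num q) (b : ℕ) : 2 * b ≤ π.ell b := by
  unfold ell
  exact Nat.mul_le_mul h.hd (Nat.le_self_pow (by have := h.hk; omega) _)

theorem Num.kk_lt (h : π.Num q) {u : List Bool} {i : ℕ} (hu : u.length ≤ i) :
    π.kk u + 1 ≤ π.ell (tow π.k π.a i) := by
  have h1 := h.ell_ge (tow π.k π.a i)
  have h2 := a_le_tow (π := π) h.hk i
  have h3 := h.ha
  unfold kk
  omega

theorem Num.lt_ell (h : π.Num q) {i i' : ℕ} (hi : i' < i) :
    2 ^ π.ell (tow π.k π.a i') < π.ell (tow π.k π.a i) := by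
  have h1 := h.h2 (tow π.k π.a i') (by have := a_le_tow (π := π) h.hk i'; omega)
  have h2 : tow π.k π.a (i' + 1) ≤ tow π.k π.a i :=
    (tow_strictMono π.k π.a h.hk).monotone (by omega)
  have h3 : tow π.k π.a (i' + 1) = 2 ^ π.clk (tow π.k π.a i') := rfl
  have h4 := h.ell_ge (tow π.k π.a i)
  omega

/-- the failure event depends on short queries -/
theorem fail_congr (h : π.Num q) {u : List Bool} {b : ℕ} (hb : π.a ≤ b)
    {A A' : List Bool → Bool} (hA : ∀ w, w.length ≤ 2 ^ π.ell b → A w = A' w) :
    A ∈ π.Fail B τ q u b ↔ A' ∈ π.Fail B τ q u b := by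
  have key : ∀ A A' : List Bool → Bool, (∀ w, w.length ≤ 2 ^ π.ell b → A w = A' w) →
      A ∈ π.Fail B τ q u b → A' ∈ π.Fail B τ q u b := by
    intro A A' hA
    have hjoin := join_agree (B := B) hA
    have hnum := h.h1 b hb
    have hpow : 2 ^ (π.ell b - 1) ≤ 2 ^ π.ell b := Nat.pow_le_pow_right (by omega) (by omega)
    have hF : π.runF (join A' B) u b = π.runF (join A B) u b :=
      U_local' _ _ _ (fun w hw => hjoin w (by omega))
    have hG : ∀ y, π.runG (join A' B) u b y = π.runG (join A B) u b y := fun y =>
      U_local' _ _ _ (fun w hw => hjoin w (by omega))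
    have hS : ∀ z, π.SolA (join A' B) u b z ↔ π.SolA (join A B) u b z := by
      intro z
      unfold SolA
      apply and_congr_right
      intro hz
      apply forall_congr'
      intro j
      apply imp_congr_right
      intro hj
      rw [show join A' B (false :: (List.replicate j true ++ z)) =
        A' (List.replicate j true ++ z) from rfl,
        show join A B (false :: (List.replicate j true ++ z)) =
        A (List.replicate j true ++ z) from rfl, hA]
      rw [List.length_append, List.length_replicate, hz]
      have h2 : π.ell b < 2 ^ π.ell b := Nat.lt_two_pow_self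
      have h3 : π.ell b ≤ 2 ^ (π.ell b - 1) := by
        have := Nat.lt_two_pow_self (n := π.ell b - 1)
        omega
      have h4 : 2 ^ (π.ell b - 1) * 2 = 2 ^ (π.ell b - 1 + 1) := by rw [pow_succ]
      rcases Nat.eq_zero_or_pos (π.ell b) with h0 | h0
      · omega
      · rw [show π.ell b - 1 + 1 = π.ell b by omega] at h4
        omega
    rintro ⟨y, hy, hf⟩
    refine ⟨y, hy, ?_⟩
    unfold FailW at hf ⊢
    rw [hF, hG]
    rcases hf with hf | ⟨h1, h2, h3⟩
    · exact Or.inl hf
    · by_cases hleaf : π.runF (join A B) u b = leaf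
      · exact Or.inl hleaf
      · right
        refine ⟨h1, ?_, ?_⟩
        · have hl : (dec (snd (π.runF (join A B) u b))).length ≤ π.clk b := by
            rcases U_cases (fst (decode u)) (enc (inst u b)) (π.clk b) (O := join A B)
              with hc | ⟨w, hc⟩
            · exact absurd hc hleaf
            · have hsz := size_of_U hc
              unfold runF
              rw [hc, snd_node, length_dec]
              have := len_le_size w
              omega
          have hq : q.eval ((dec (snd (π.runF (join A B) u b))).length + y.length) ≤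
              q.eval (π.clk b + π.p.eval (π.clk b)) := poly_mono _ (by omega)
          rw [Rof_local' τ q _ y (fun w hw => hjoin w (by omega))]
          exact h2
        · rcases h3 with h3 | h3
          · exact Or.inl h3
          · right
            rintro ⟨z, hz1, hz2⟩
            exact h3 ⟨z, hz1, (hS z).mp hz2⟩
  exact ⟨key A A' hA, key A' A (fun w hw => (hA w hw).symm)⟩

theorem dep_fail (h : π.Num q) (u : List Bool) {b : ℕ} (hb : π.a ≤ b) :
    Dep (strsLe (2 ^ π.ell b)) (π.Fail B τ q u b) := by
  intro A A' hA
  exact fail_congr h hb (fun w hw => hA w (mem_strsLe.mpr hw))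

theorem measurable_fail (h : π.Num q) (u : List Bool) {b : ℕ} (hb : π.a ≤ b) :
    MeasurableSet (π.Fail B τ q u b) := (dep_fail h u hb).measurableSet

theorem measurable_NF (h : π.Num q) (u : List Bool) (i : ℕ) : MeasurableSet (π.NF B τ q u i) := by
  have : π.NF B τ q u i = ⋂ i', ⋂ (_ : u.length ≤ i'), ⋂ (_ : i' < i),
      (π.Fail B τ q u (tow π.k π.a i'))ᶜ := by
    ext A
    simp [NF]
  rw [this]
  refine MeasurableSet.iInter fun i' => MeasurableSet.iInter fun _ => MeasurableSet.iInter fun _ =>
    (measurable_fail h u ?_).compl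
  have := a_le_tow (π := π) h.hk i'
  omega

theorem measurable_sol (u : List Bool) (b : ℕ) (z : List Bool) :
    MeasurableSet {A | π.SolA (join A B) u b z} := by
  have : {A | π.SolA (join A B) u b z} =
      {A | z ∈ strs (π.ell b) ∧ A ∈ ones (π.blk u b z)} := by
    ext A
    exact π.solA_iff B A u b z
  rw [this]
  by_cases hz : z ∈ strs (π.ell b)
  · simp only [hz, true_and]
    exact (dep_ones _).measurableSet
  · simp only [hz, false_and]
    exact MeasurableSet.empty

theorem measurable_noSol (u : List Bool) (b : ℕ) : MeasurableSet (π.NoSol B u b) := by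
  have : π.NoSol B u b = ⋂ z, {A | π.SolA (join A B) u b z}ᶜ := by
    ext A
    simp [NoSol]
  rw [this]
  exact MeasurableSet.iInter fun z => (measurable_sol u b z).compl

theorem measurable_Tot (p : Polynomial ℕ) : MeasurableSet (Tot B τ q p) := by
  have : Tot B τ q p = ⋂ s : List Bool, ⋃ y : List Bool, {A | y.length ≤ p.eval s.length ∧
      Rof (join A B) τ q s y = true} := by
    ext A
    simp [Tot]
  rw [this]
  refine MeasurableSet.iInter fun s => MeasurableSet.iUnion fun y => ?_
  have : Dep (strsLe (q.eval (s.length + y.length)))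
      {A | y.length ≤ p.eval s.length ∧ Rof (join A B) τ q s y = true} := by
    intro A A' hA
    have := Rof_local' (O := join A B) (O' := join A' B) τ q s y
      (join_agree (fun w hw => hA w (mem_strsLe.mpr hw)))
    simp only [Set.mem_ofPred_eq, this]
  exact this.measurableSet

/-- extract the block of a query -/
def zof (l : ℕ) (w : List Bool) : List Bool := w.drop (w.length - l)

theorem join_plant {A : List Bool → Bool} {u : List Bool} {b : ℕ} {z w : List Bool}
    (hz : z.length = π.ell b) (hw : zof (π.ell b) w ≠ z) :
    join (plant (π.blk u b z) A) B w = join A B w := by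
  cases w with
  | nil => rfl
  | cons c w =>
    cases c with
    | true => rfl
    | false =>
      show plant (π.blk u b z) A w = A w
      unfold plant
      rw [if_neg]
      intro hmem
      unfold blk at hmem
      rw [mem_image] at hmem
      obtain ⟨j, _, rfl⟩ := hmem
      apply hw
      unfold zof
      rw [List.length_cons, List.length_append, List.length_replicate, hz,
        show j + π.ell b + 1 - π.ell b = j + 1 by omega, List.drop_succ_cons]
      rw [List.drop_append_of_le_length (by simp)]
      simp

/-- **Key inequality.** -/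
theorem key (h : π.Num q) (u : List Bool) (i : ℕ) (hu : u.length ≤ i) :
    (2 : ℝ≥0∞) ^ (π.kk u - 1) *
      randomOracle (Tot B τ q π.p ∩ π.NF B τ q u i ∩ π.NoSol B u (tow π.k π.a i)) ≤
      randomOracle (π.NF B τ q u i ∩ π.Fail B τ q u (tow π.k π.a i)) := by
  classical
  set b := tow π.k π.a i with hbdef
  have hb : π.a ≤ b := by have := a_le_tow (π := π) h.hk i; omega
  have hkk := h.kk_lt hu
  rw [← hbdef] at hkk
  have hkk1 : 1 ≤ π.kk u := by unfold kk; omega
  have hnum := h.h1 b hb
  have main := planting' (strs (π.ell b)) (π.blk u b) (π.ell b - π.kk u)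
    (fun z _ => π.card_blk u b z)
    (N := Tot B τ q π.p ∩ π.NF B τ q u i ∩ π.NoSol B u b)
    (F := π.NF B τ q u i ∩ π.Fail B τ q u b)
    (((measurable_Tot _).inter (measurable_NF h u i)).inter (measurable_noSol u b))
    (fun z => {A | A ∈ π.NF B τ q u i ∩ π.Fail B τ q u b ∧
      ∀ z', π.SolA (join A B) u b z' ↔ z' = z})
    (by
      intro z _
      apply MeasurableSet.inter ((measurable_NF h u i).inter (measurable_fail h u hb))
      have : {A | ∀ z', π.SolA (join A B) u b z' ↔ z' = z} =
          ⋂ z', {A | π.SolA (join A B) u b z' ↔ z' = z} := by ext A; simp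
      show MeasurableSet {A | ∀ z', π.SolA (join A B) u b z' ↔ z' = z}
      rw [this]
      refine MeasurableSet.iInter fun z' => ?_
      by_cases hz' : z' = z
      · simp only [hz', iff_true]; exact measurable_sol u b z
      · simp only [hz', iff_false]; exact (measurable_sol u b z').compl)
    (by intro z _ A hA; exact hA.1)
    (by
      intro z _ z' _ hne
      rw [Set.disjoint_left]
      rintro A ⟨_, hA⟩ ⟨_, hA'⟩
      exact hne ((hA' z).mp ((hA z).mpr rfl)))
    (2 ^ (π.ell b - 1)) ?_
  · -- conclude
    have e1 : (2 : ℝ≥0∞) ^ (π.ell b - 1) =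
        2 ^ (π.ell b - π.kk u) * 2 ^ (π.kk u - 1) := by
      rw [← pow_add]; congr 1; omega
    have e2 : ((2 ^ (π.ell b - 1) : ℕ) : ℝ≥0∞) = 2 ^ (π.ell b - 1) := by push_cast; rfl
    rw [e2, e1, mul_assoc] at main
    have h0 : (2 : ℝ≥0∞) ^ (π.ell b - π.kk u) ≠ 0 := by positivity
    have h0' : (2 : ℝ≥0∞) ^ (π.ell b - π.kk u) ≠ ⊤ := by finiteness
    exact (ENNReal.mul_le_mul_iff_right h0 h0').mp main
  · rintro A ⟨⟨hTot, hNF⟩, hNo⟩
    -- the runs
    obtain ⟨Q1, hQ1, _, hQ1'⟩ := U_local (join A B) (fst (decode u)) (enc (inst u b)) (π.clk b)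
    -- excluded strings
    suffices hsuff : ∃ (E : Finset (List Bool)), E.card ≤ 2 ^ (π.ell b - 1) ∧
        ∀ z, z.length = π.ell b → z ∉ E → plant (π.blk u b z) A ∈ π.Fail B τ q u b by
      obtain ⟨E, hE1, hE2⟩ := hsuff
      refine ⟨strs (π.ell b) \ E, sdiff_subset, ?_, ?_⟩
      · have h1 := le_card_sdiff E (strs (π.ell b))
        rw [card_strs] at h1
        have h2 : 2 ^ π.ell b = 2 * 2 ^ (π.ell b - 1) := by
          rw [← pow_succ']; congr 1; omega
        omega
      · intro z hz
        rw [mem_sdiff, mem_strs] at hz
        refine ⟨⟨?_, hE2 z hz.1 hz.2⟩, ?_⟩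
        · -- no earlier failure
          intro i' hi1 hi2 hfail
          apply hNF i' hi1 hi2
          refine (fail_congr h (by have := a_le_tow (π := π) h.hk i'; omega) ?_).mp hfail
          intro w hw
          unfold plant
          rw [if_neg]
          intro hmem
          unfold blk at hmem
          rw [mem_image] at hmem
          obtain ⟨j, _, rfl⟩ := hmem
          rw [List.length_append, hz.1] at hw
          have := h.lt_ell hi2
          rw [← hbdef] at this
          omega
        · intro z'
          rw [π.solA_iff]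
          constructor
          · rintro ⟨h1, h2⟩
            by_contra hne
            apply hNo z'
            rw [π.solA_iff]
            refine ⟨h1, fun w hw => ?_⟩
            have h3 := h2 w hw
            unfold plant at h3
            rwa [if_neg] at h3
            intro hmem
            unfold blk at hw hmem
            rw [mem_image] at hw hmem
            obtain ⟨j, _, rfl⟩ := hw
            obtain ⟨j', _, hj'⟩ := hmem
            have hlen := congrArg List.length hj'
            rw [List.length_append, List.length_append, List.length_replicate,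
              List.length_replicate, hz.1, mem_strs.mp h1] at hlen
            have : j' = j := by omega
            subst this
            exact hne (List.append_cancel_left hj').symm
          · rintro rfl
            refine ⟨mem_strs.mpr hz.1, fun w hw => ?_⟩
            unfold plant
            rw [if_pos hw]
    -- case distinction
    rcases U_cases (fst (decode u)) (enc (inst u b)) (π.clk b) (O := join A B) with hc | ⟨v, hc⟩
    · -- the first run is not completed
      refine ⟨Q1.image (zof (π.ell b)), card_image_le.trans (by omega), ?_⟩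
      intro z hz hzE
      refine ⟨[], by simp, Or.inl ?_⟩
      unfold runF
      rw [hQ1' _ (fun w hw => join_plant hz (fun e => hzE (mem_image.mpr ⟨w, hw, e⟩)))]
      exact hc
    · -- the first run yields the instance `dec v`
      have hsz := size_of_U hc
      have hlv : (dec v).length ≤ π.clk b := by
        rw [length_dec]; have := len_le_size v; omega
      obtain ⟨y, hy1, hy2⟩ := hTot (dec v)
      have hy1' : y.length ≤ π.p.eval (π.clk b) := hy1.trans (poly_mono _ hlv)
      obtain ⟨Q2, hQ2, hQ2'⟩ := Rof_local (join A B) τ q (dec v) y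
      have hQ2c : Q2.card ≤ q.eval (π.clk b + π.p.eval (π.clk b)) :=
        hQ2.trans (poly_mono _ (by omega))
      obtain ⟨Q3, hQ3, _, hQ3'⟩ := U_local (join A B) (snd (decode u))
        (node (enc (inst u b)) (enc y)) (π.clk b)
      set zz : List Bool := (dec (snd (π.runG (join A B) u b y))).tail with hzz
      refine ⟨insert zz ((Q1 ∪ Q2 ∪ Q3).image (zof (π.ell b))), ?_, ?_⟩
      · have h1 := card_insert_le zz ((Q1 ∪ Q2 ∪ Q3).image (zof (π.ell b)))
        have h2 : ((Q1 ∪ Q2 ∪ Q3).image (zof (π.ell b))).card ≤ (Q1 ∪ Q2 ∪ Q3).card :=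
          card_image_le
        have h3 := card_union_le (Q1 ∪ Q2) Q3
        have h4 := card_union_le Q1 Q2
        omega
      · intro z hz hzE
        rw [mem_insert, not_or] at hzE
        obtain ⟨hzz1, hzE⟩ := hzE
        have hag : ∀ w ∈ Q1 ∪ Q2 ∪ Q3, join (plant (π.blk u b z) A) B w = join A B w :=
          fun w hw => join_plant hz (fun e => hzE (mem_image.mpr ⟨w, hw, e⟩))
        have hF : π.runF (join (plant (π.blk u b z) A) B) u b = node leaf v := by
          unfold runF
          rw [hQ1' _ (fun w hw => hag w (by simp [hw]))]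
          exact hc
        have hG : π.runG (join (plant (π.blk u b z) A) B) u b y =
            π.runG (join A B) u b y := by
          unfold runG
          rw [hQ3' _ (fun w hw => hag w (by simp [hw]))]
        have hR : Rof (join (plant (π.blk u b z) A) B) τ q (dec v) y = true := by
          rw [hQ2' _ (fun w hw => hag w (by simp [hw]))]
          exact hy2
        refine ⟨y, hy1', Or.inr ?_⟩
        rw [hF, snd_node, hG]
        refine ⟨hy1, hR, Or.inr ?_⟩
        rintro ⟨z'', hz1, hz2⟩
        have hz3 : z'' = zz := by rw [hzz, hz1]; rfl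
        rw [π.solA_iff] at hz2
        obtain ⟨hz4, hz5⟩ := hz2
        apply hNo z''
        rw [π.solA_iff]
        refine ⟨hz4, fun w hw => ?_⟩
        have h3 := hz5 w hw
        unfold plant at h3
        rwa [if_neg] at h3
        intro hmem
        unfold blk at hw hmem
        rw [mem_image] at hw hmem
        obtain ⟨j, _, rfl⟩ := hw
        obtain ⟨j', _, hj'⟩ := hmem
        have hlen := congrArg List.length hj'
        rw [List.length_append, List.length_append, List.length_replicate,
          List.length_replicate, hz, mem_strs.mp hz4] at hlen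
        have : j' = j := by omega
        subst this
        exact hzz1 ((List.append_cancel_left hj').trans hz3)

end Par

end Pool.Agent.H88.RO
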