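import Mathlib

set_option autoImplicit false

/-!
# Polynomial time relative to an oracle

A small first-order language on binary trees (pure Lisp with while loops), with an instruction
that queries an oracle `O : List Bool → Bool`, and a big-step semantics in which an evaluation is
charged the total size of all the values it handles.  A function is polynomial-time computable
relative to `O` iff it is computed by a program of this language whose cost is bounded by a
polynomial in the length of the input.
-/

namespace Pool.Agent.H88.RO

/-- Binary trees, the data type of the programming language. -/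
inductive Tr : Type
  | leaf : Tr
  | node : Tr → Tr → Tr
  deriving DecidableEq, Inhabited

namespace Tr

/-- Number of nodes (including leaves). -/
def size : Tr → ℕ
  | leaf => 1
  | node a b => size a + size b + 1

/-- First component (`leaf` for `leaf`). -/
def fst : Tr → Tr
  | leaf => leaf
  | node a _ => a

/-- Second component (`leaf` for `leaf`). -/
def snd : Tr → Tr
  | leaf => leaf
  | node _ b => b

/-- A bit as a tree. -/
def bit : Bool → Tr
  | false => leaf
  | true => node leaf leaf

/-- A binary string as a tree: the list of its bits. -/
def enc : List Bool → Tr
  | [] => leaf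
  | b :: w => node (bit b) (enc w)

/-- Reading a tree as a binary string (along its right spine); a left inverse of `enc`. -/
def dec : Tr → List Bool
  | leaf => []
  | node a b => (decide (a ≠ leaf)) :: dec b

end Tr

open Tr

/-- Programs; each program maps trees to trees. -/
inductive Prog : Type
  /-- the identity -/
  | id : Prog
  /-- the constant `leaf` -/
  | nil : Prog
  /-- first component -/
  | fst : Prog
  /-- second component -/
  | snd : Prog
  /-- ask the oracle about the string described by the input -/
  | query : Prog
  /-- run `f` and `g` on the same input and pair the results -/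
  | pair (f g : Prog) : Prog
  /-- composition: first `g`, then `f` -/
  | comp (f g : Prog) : Prog
  /-- branch: if the first component is `leaf` run `f`, else run `g`, on the second component -/
  | cond (f g : Prog) : Prog
  /-- while the first component of the current value is not `leaf`, apply `f`; then output the
  second component -/
  | loop (f : Prog) : Prog

/-- `Eval O c v w t`: with oracle `O`, program `c` maps `v` to `w` at cost `t`.  Every rule
is charged the size of the value it is applied to, plus one. -/
inductive Eval (O : List Bool → Bool) : Prog → Tr → Tr → ℕ → Prop
  | id (v : Tr) : Eval O Prog.id v v (size v + 1)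
  | nil (v : Tr) : Eval O Prog.nil v leaf (size v + 1)
  | fst (v : Tr) : Eval O Prog.fst v (fst v) (size v + 1)
  | snd (v : Tr) : Eval O Prog.snd v (snd v) (size v + 1)
  | query (v : Tr) : Eval O Prog.query v (bit (O (dec v))) (size v + 1)
  | pair {f g : Prog} {v a b : Tr} {s t : ℕ} (hf : Eval O f v a s) (hg : Eval O g v b t) :
      Eval O (Prog.pair f g) v (node a b) (s + t + size v + 1)
  | comp {f g : Prog} {v a b : Tr} {s t : ℕ} (hg : Eval O g v a s) (hf : Eval O f a b t) :
      Eval O (Prog.comp f g) v b (s + t + size v + 1)
  | condNil {f g : Prog} {v a : Tr} {s : ℕ} (h : fst v = leaf) (hf : Eval O f (snd v) a s) :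
      Eval O (Prog.cond f g) v a (s + size v + 1)
  | condNode {f g : Prog} {v a : Tr} {s : ℕ} (h : fst v ≠ leaf) (hg : Eval O g (snd v) a s) :
      Eval O (Prog.cond f g) v a (s + size v + 1)
  | loopDone {f : Prog} {v : Tr} (h : fst v = leaf) :
      Eval O (Prog.loop f) v (snd v) (size v + 1)
  | loopStep {f : Prog} {v a b : Tr} {s t : ℕ} (h : fst v ≠ leaf) (hf : Eval O f v a s)
      (hl : Eval O (Prog.loop f) a b t) : Eval O (Prog.loop f) v b (s + t + size v + 1)

/-- `f` is computable in polynomial time relative to `O`. -/
def PolyTimeFun (O : List Bool → Bool) (f : List Bool → List Bool) : Prop :=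
  ∃ (c : Prog) (q : Polynomial ℕ), ∀ x, ∃ t ≤ q.eval x.length, Eval O c (enc x) (enc (f x)) t

/-- The two-argument function `g` is computable in polynomial time relative to `O`. -/
def PolyTimeFun₂ (O : List Bool → Bool) (g : List Bool → List Bool → List Bool) : Prop :=
  ∃ (c : Prog) (q : Polynomial ℕ), ∀ x y, ∃ t ≤ q.eval (x.length + y.length),
    Eval O c (node (enc x) (enc y)) (enc (g x y)) t

/-- The binary relation `R` is decidable in polynomial time relative to `O`. -/
def PolyTimeRel (O : List Bool → Bool) (R : List Bool → List Bool → Bool) : Prop :=
  ∃ (c : Prog) (q : Polynomial ℕ), ∀ x y, ∃ t ≤ q.eval (x.length + y.length),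
    Eval O c (node (enc x) (enc y)) (bit (R x y)) t

/-- A total NP search problem relative to the oracle `O`. -/
structure TFNP (O : List Bool → Bool) where
  /-- the relation: `R x y = true` says that `y` solves `x`, if `y` is short enough -/
  R : List Bool → List Bool → Bool
  /-- the polynomial bounding the length of solutions -/
  p : Polynomial ℕ
  polyTime : PolyTimeRel O R
  total : ∀ x, ∃ y : List Bool, y.length ≤ p.eval x.length ∧ R x y = true

variable {O : List Bool → Bool}

/-- `y` is a solution of the instance `x` of `S`. -/
def TFNP.IsSol (S : TFNP O) (x y : List Bool) : Prop :=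
  y.length ≤ S.p.eval x.length ∧ S.R x y = true

/-- Polynomial-time many-one reducibility of search problems relative to `O`. -/
def TFNP.Reduces (S T : TFNP O) : Prop :=
  ∃ (f : List Bool → List Bool) (g : List Bool → List Bool → List Bool),
    PolyTimeFun O f ∧ PolyTimeFun₂ O g ∧ ∀ x y, T.IsSol (f x) y → S.IsSol x (g x y)

/-- `T` is complete: every total NP search problem relative to `O` reduces to it. -/
def TFNP.IsComplete (T : TFNP O) : Prop := ∀ S : TFNP O, S.Reduces T

/-- Many-one reducibility by programs running in time `τ`, a function of the length of the
instance `x` of `S`: the first program turns `x` into an instance `s` of `T`, the second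
one turns `x` and any `T`-solution of `s` into an `S`-solution of `x`. -/
def TFNP.ReducesWithin (τ : ℕ → ℕ) (S T : TFNP O) : Prop :=
  ∃ cf cg : Prog, ∀ x, ∃ s, (∃ t ≤ τ x.length, Eval O cf (enc x) (enc s) t) ∧
    ∀ y, T.IsSol s y → ∃ w, (∃ t ≤ τ x.length, Eval O cg (node (enc x) (enc y)) (enc w) t) ∧
      S.IsSol x w

/-- The join of two oracles: the first bit of the query selects the oracle. -/
def join (A B : List Bool → Bool) : List Bool → Bool
  | [] => false
  | false :: w => A w
  | true :: w => B w

open MeasureTheory

/-- The fair coin. -/
noncomputable def coin : Measure Bool := (PMF.uniformOfFintype Bool).toMeasure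

instance : IsProbabilityMeasure coin := by unfold coin; infer_instance

/-- The distribution of a random oracle: independent fair coin tosses. -/
noncomputable def randomOracle : Measure (List Bool → Bool) :=
  Measure.infinitePi (fun _ : List Bool => coin)

instance : IsProbabilityMeasure randomOracle := by unfold randomOracle; infer_instance

end Pool.Agent.H88.RO
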