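import Pool.Agent.H88.RO.Machine

set_option autoImplicit false

/-! # Programming with polynomial time functions on trees -/

namespace Pool.Agent.H88.RO

open Tr

variable {O : List Bool → Bool}

theorem FP.iterate_add {F N X : Tr → Tr} (hF : FP O F) (hN : FP O N) (hX : FP O X) (c : ℕ)
    (hc : ∀ x, size (F x) ≤ size x + c) : FP O (fun v => F^[len (N v)] (X v)) := by
  refine FP.iterate' hF hN hX ⟨(Polynomial.C c + 1) * Polynomial.X, fun n x i hi => ?_⟩
  have h1 : ∀ i, size (F^[i] x) ≤ size x + c * i := by
    intro i
    induction i with
    | zero => simp
    | succ i ih =>
      rw [Function.iterate_succ_apply']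
      have := hc (F^[i] x)
      have e : c * (i + 1) = c * i + c := by ring
      omega
  refine (h1 i).trans ?_
  simp only [Polynomial.eval_mul, Polynomial.eval_add, Polynomial.eval_C, Polynomial.eval_X,
    Polynomial.eval_one]
  have h2 : c * i ≤ c * size n := Nat.mul_le_mul_left _ (by have := len_le_size n; omega)
  have e : (c + 1) * (size n + size x) = c * size n + c * size x + size n + size x := by ring
  omega

theorem len_eq_zero {v : Tr} : len v = 0 ↔ v = leaf := by
  cases v <;> simp [len]

theorem len_snd (v : Tr) : len (snd v) = len v - 1 := by
  cases v <;> simp [len]

/-- drop as many elements of `b` as `a` has -/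
def dropU (a b : Tr) : Tr := snd^[len a] b

theorem FP.dropU' {F G : Tr → Tr} (hF : FP O F) (hG : FP O G) :
    FP O (fun v => dropU (F v) (G v)) := by
  refine FP.iterate_add (F := fun s => snd s) (by (repeat (first | with_reducible exact FP.id' | assumption | with_reducible apply FP.fst' | with_reducible apply FP.snd' | with_reducible apply FP.node' | with_reducible apply FP.query' | with_reducible apply FP.ite' | with_reducible exact FP.const' _))) hF hG 0 (fun x => ?_)
  have := size_snd_le x
  omega

theorem len_snd_iter (n : ℕ) (b : Tr) : len (snd^[n] b) = len b - n := by
  induction n generalizing b with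
  | zero => simp
  | succ n ih => rw [Function.iterate_succ_apply, ih, len_snd]; omega

theorem dropU_eq_leaf {a b : Tr} : dropU a b = leaf ↔ len b ≤ len a := by
  rw [← len_eq_zero, dropU, len_snd_iter]; omega

/-- unary addition -/
def addU (a b : Tr) : Tr := (fun s => node leaf s)^[len a] b

theorem FP.addU' {F G : Tr → Tr} (hF : FP O F) (hG : FP O G) :
    FP O (fun v => addU (F v) (G v)) := by
  refine FP.iterate_add (F := fun s => node leaf s) (by (repeat (first | with_reducible exact FP.id' | assumption | with_reducible apply FP.fst' | with_reducible apply FP.snd' | with_reducible apply FP.node' | with_reducible apply FP.query' | with_reducible apply FP.ite' | with_reducible exact FP.const' _))) hF hG 2 (fun x => ?_)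
  simp only [size]; omega

theorem iter_node_leaf_num (n m : ℕ) : (fun s => node leaf s)^[n] (num m) = num (n + m) := by
  induction n generalizing m with
  | zero => simp
  | succ n ih =>
    rw [Function.iterate_succ_apply]
    have : node leaf (num m) = num (m + 1) := rfl
    rw [this, ih]
    congr 1; omega

@[simp] theorem addU_num (a b : ℕ) : addU (num a) (num b) = num (a + b) := by
  rw [addU, len_num, iter_node_leaf_num]

/-! ### size check -/

/-- one step of the size check -/
def wstep (l : Tr) : Tr :=
  if l = leaf then leaf else if fst l = leaf then snd l
    else node (fst (fst l)) (node (snd (fst l)) (snd l))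

/-- total size of the elements of a list -/
def wsz : Tr → ℕ
  | leaf => 0
  | node a b => size a + wsz b

theorem wsz_eq_zero {l : Tr} : wsz l = 0 ↔ l = leaf := by
  cases l with
  | leaf => simp [wsz]
  | node a b => have := size_pos a; simp [wsz]; omega

theorem wsz_wstep (l : Tr) : wsz (wstep l) = wsz l - 1 := by
  cases l with
  | leaf => simp [wstep, wsz]
  | node a b =>
    cases a with
    | leaf => simp [wstep, wsz, size]
    | node c d => simp [wstep, wsz, size]; omega

theorem size_wstep (l : Tr) : size (wstep l) ≤ size l := by
  cases l with
  | leaf => simp [wstep]
  | node a b =>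
    cases a with
    | leaf => simp [wstep, size]; omega
    | node c d => simp [wstep, size]; omega

/-- `leaf` iff `size s ≤ len K` -/
def sizeT (s K : Tr) : Tr := wstep^[len K] (node s leaf)

theorem sizeT_eq_leaf {s K : Tr} : sizeT s K = leaf ↔ size s ≤ len K := by
  have h : ∀ n l, wsz (wstep^[n] l) = wsz l - n := by
    intro n
    induction n with
    | zero => intro l; simp
    | succ n ih => intro l; rw [Function.iterate_succ_apply, ih, wsz_wstep]; omega
  rw [sizeT, ← wsz_eq_zero, h]
  simp only [wsz]
  omega

theorem FP.sizeT' {F G : Tr → Tr} (hF : FP O F) (hG : FP O G) :
    FP O (fun v => sizeT (F v) (G v)) := by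
  refine FP.iterate_add (F := wstep) ?_ hG (FP.node' hF FP.leaf') 0 (fun x => ?_)
  · unfold wstep
    (repeat (first | with_reducible exact FP.id' | assumption | with_reducible apply FP.fst' | with_reducible apply FP.snd' | with_reducible apply FP.node' | with_reducible apply FP.query' | with_reducible apply FP.ite' | with_reducible exact FP.const' _))
  · have := size_wstep x
    omega

/-! ### the universal machine -/

theorem FP_step : FP O (step O) := by
  unfold step stepRet stepEv
  (repeat (first | with_reducible exact FP.id' | assumption | with_reducible apply FP.fst' | with_reducible apply FP.snd' | with_reducible apply FP.node' | with_reducible apply FP.query' | with_reducible apply FP.ite' | with_reducible exact FP.const' _))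

theorem size_stepRet_le (v k : Tr) : size (stepRet v k) ≤ size v + size k + 15 := by
  have e1 : size (num 1) = 3 := size_num 1
  unfold stepRet
  have a1 := size_fst_le (snd (fst k))
  have a4 := size_snd_le (snd (fst k))
  have a5 := size_snd_le (fst k)
  have hc : size (fst (snd (fst k))) + size (snd (snd (fst k))) + 1 ≤ size (snd (fst k)) + 2 := by
    cases snd (fst k) with
    | leaf => simp [size]
    | node a b => simp [size]
  have hk : size (fst k) + size (snd k) + 1 ≤ size k + 2 := by
    cases k with
    | leaf => simp [size]
    | node a b => simp [size]
  split_ifs
  · simp only [size]; omega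
  · simp only [size]; omega
  · simp only [size]; omega

theorem size_stepEv_le (c v k : Tr) : size (stepEv O c v k) ≤ 2 * size c + 2 * size v + size k + 15 := by
  have e0 : size (num 0) = 1 := size_num 0
  have e2 : size (num 2) = 5 := size_num 2
  have a1 := size_fst_le v
  have a2 := size_snd_le v
  have a3 := size_fst_le (snd c)
  have a4 := size_snd_le (snd c)
  have a5 := size_snd_le c
  have hc : size (fst (snd c)) + size (snd (snd c)) + 1 ≤ size (snd c) + 2 := by
    cases snd c with
    | leaf => simp [size]
    | node a b => simp [size]
  have hb := size_bit_le (O (dec v))
  have p1 := size_pos v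
  have p2 := size_pos c
  have p3 := size_pos k
  unfold stepEv
  split_ifs
  all_goals (simp only [size]; omega)

theorem size_step_le (s : Tr) : size (step O s) ≤ 2 * size s + 20 := by
  have h3 : size (fst s) + size (fst (snd s)) + size (snd (snd s)) + 2 ≤ size s + 4 := by
    cases s with
    | leaf => simp [size]
    | node c s' =>
      cases s' with
      | leaf => simp [size]
      | node v k => simp [size]; omega
  unfold step
  split_ifs with h1 h2
  · omega
  · have := size_stepRet_le (fst (snd s)) (snd (snd s))
    omega
  · have := size_stepEv_le (O := O) (fst s) (fst (snd s)) (snd (snd s))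
    have p3 := size_pos (snd (snd s))
    omega

/-- tree version of `cstep` -/
def cstepT (O : List Bool → Bool) (x : Tr) : Tr :=
  node (fst x) (if sizeT (snd x) (fst x) = leaf then step O (snd x) else leaf)

theorem cstepT_eq (K s : Tr) : cstepT O (node K s) = node K (cstep O (len K) s) := by
  unfold cstepT cstep
  simp only [fst_node, snd_node, sizeT_eq_leaf]

theorem cstepT_iter (n : ℕ) (K s : Tr) :
    (cstepT O)^[n] (node K s) = node K ((cstep O (len K))^[n] s) := by
  induction n generalizing s with
  | zero => rfl
  | succ n ih => rw [Function.iterate_succ_apply, cstepT_eq, ih, Function.iterate_succ_apply]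

theorem FP_cstepT : FP O (cstepT O) := by
  unfold cstepT
  refine FP.node' (by (repeat (first | with_reducible exact FP.id' | assumption | with_reducible apply FP.fst' | with_reducible apply FP.snd' | with_reducible apply FP.node' | with_reducible apply FP.query' | with_reducible apply FP.ite' | with_reducible exact FP.const' _))) (FP.ite' (FP.sizeT' (by (repeat (first | with_reducible exact FP.id' | assumption | with_reducible apply FP.fst' | with_reducible apply FP.snd' | with_reducible apply FP.node' | with_reducible apply FP.query' | with_reducible apply FP.ite' | with_reducible exact FP.const' _))) (by (repeat (first | with_reducible exact FP.id' | assumption | with_reducible apply FP.fst' | with_reducible apply FP.snd' | with_reducible apply FP.node' | with_reducible apply FP.query' | with_reducible apply FP.ite' | with_reducible exact FP.const' _)))) (FP.comp' FP_step (by (repeat (first | with_reducible exact FP.id' | assumption | with_reducible apply FP.fst' | with_reducible apply FP.snd' | with_reducible apply FP.node' | with_reducible apply FP.query' | with_reducible apply FP.ite' | with_reducible exact FP.const' _)))) (by (repeat (first | with_reducible exact FP.id' | assumption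 | with_reducible apply FP.fst' | with_reducible apply FP.snd' | with_reducible apply FP.node' | with_reducible apply FP.query' | with_reducible apply FP.ite' | with_reducible exact FP.const' _))))

theorem size_cstep_le (K : ℕ) (s : Tr) : size (cstep O K s) ≤ 2 * K + 20 := by
  unfold cstep
  split_ifs with h
  · have := size_step_le (O := O) s
    omega
  · simp [size]

theorem FP.U' {F G H : Tr → Tr} (hF : FP O F) (hG : FP O G) (hH : FP O H) :
    FP O (fun v => U O (F v) (G v) (len (H v))) := by
  have h1 : FP O (fun v => (cstepT O)^[len (H v)] (node (H v) (node (F v) (node (G v) leaf)))) := by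
    refine FP.iterate' FP_cstepT hH (FP.node' hH (FP.node' hF (FP.node' hG FP.leaf')))
      ⟨3 * Polynomial.X + 30, fun n x i _ => ?_⟩
    have h2 : ∀ i, fst ((cstepT O)^[i] x) = fst x := by
      intro i
      induction i with
      | zero => rfl
      | succ i ih => rw [Function.iterate_succ_apply']; simpa [cstepT] using ih
    simp only [Polynomial.eval_add, Polynomial.eval_mul, Polynomial.eval_ofNat, Polynomial.eval_X]
    cases i with
    | zero => simp; omega
    | succ i =>
      rw [Function.iterate_succ_apply']
      have h3 : cstepT O ((cstepT O)^[i] x) =
          node (fst x) (cstep O (len (fst x)) (snd ((cstepT O)^[i] x))) := by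
        rw [cstepT, h2 i]
        simp only [sizeT_eq_leaf, cstep]
      rw [h3]
      have h4 := size_cstep_le (O := O) (len (fst x)) (snd ((cstepT O)^[i] x))
      have h5 := len_le_size (fst x)
      have h6 := size_fst_le x
      simp only [size]
      omega
  have h2 : FP O (fun v => out (len (fst v)) (snd v)) := by
    have : (fun v => out (len (fst v)) (snd v)) = fun v =>
        if sizeT (snd v) (fst v) = leaf then
          (if snd v = leaf then leaf else if fst (snd v) = leaf then
          (if snd (snd (snd v)) = leaf then node leaf (fst (snd (snd v))) else leaf) else leaf)
        else leaf := by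
      funext v
      simp only [out, sizeT_eq_leaf]
    rw [this]
    refine FP.ite' (FP.sizeT' (by (repeat (first | with_reducible exact FP.id' | assumption | with_reducible apply FP.fst' | with_reducible apply FP.snd' | with_reducible apply FP.node' | with_reducible apply FP.query' | with_reducible apply FP.ite' | with_reducible exact FP.const' _))) (by (repeat (first | with_reducible exact FP.id' | assumption | with_reducible apply FP.fst' | with_reducible apply FP.snd' | with_reducible apply FP.node' | with_reducible apply FP.query' | with_reducible apply FP.ite' | with_reducible exact FP.const' _)))) (by (repeat (first | with_reducible exact FP.id' | assumption | with_reducible apply FP.fst' | with_reducible apply FP.snd' | with_reducible apply FP.node' | with_reducible apply FP.query' | with_reducible apply FP.ite' | with_reducible exact FP.const' _))) (by (repeat (first | with_reducible exact FP.id' | assumption | with_reducible apply FP.fst' | with_reducible apply FP.snd' | with_reducible apply FP.node' | with_reducible apply FP.query' | with_reducible apply FP.ite' | with_reducible exact FP.const' _)))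
  have h3 := FP.comp' h2 h1
  have h4 : (fun v => U O (F v) (G v) (len (H v))) = fun v =>
      out (len (fst ((cstepT O)^[len (H v)] (node (H v) (node (F v) (node (G v) leaf))))))
        (snd ((cstepT O)^[len (H v)] (node (H v) (node (F v) (node (G v) leaf))))) := by
    funext v
    rw [cstepT_iter]
    rfl
  rw [h4]
  exact h3

end Pool.Agent.H88.RO
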