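import Pool.Agent.H88.RO.Arith

set_option autoImplicit false

/-! # Programs on binary strings -/

namespace Pool.Agent.H88.RO

open Tr

variable {O : List Bool → Bool}

/-- truth -/
def tt : Tr := node leaf leaf

@[simp] theorem tt_ne : tt ≠ leaf := by simp [tt]

theorem bit_true : bit true = tt := rfl
theorem bit_false : bit false = leaf := rfl

@[simp] theorem len_enc (x : List Bool) : len (enc x) = x.length := by
  induction x with
  | nil => rfl
  | cons b x ih => simp [enc, len, ih]

@[simp] theorem dec_enc (x : List Bool) : dec (enc x) = x := by
  induction x with
  | nil => rfl
  | cons b x ih => cases b <;> simp [enc, dec, bit, ih]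

theorem size_enc_le (x : List Bool) : size (enc x) ≤ 4 * x.length + 1 := by
  induction x with
  | nil => simp [enc, size]
  | cons b x ih => have := size_bit_le b; simp only [enc, size, List.length_cons]; omega

/-! ### parsing leading ones -/

/-- strip the leading ones up to the first zero -/
def parse : List Bool → Option (ℕ × List Bool)
  | [] => none
  | false :: u => some (0, u)
  | true :: x => (parse x).map (fun p => (p.1 + 1, p.2))

/-- one parsing step; states are `node count (node rest done)` -/
def pstep (s : Tr) : Tr :=
  if snd (snd s) = leaf then
    (if fst (snd s) = leaf then s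
      else if fst (fst (snd s)) = leaf then node (fst s) (node (snd (fst (snd s))) tt)
      else node (node leaf (fst s)) (node (snd (fst (snd s))) leaf))
  else s

/-- the parsing program -/
def parseT (x : Tr) : Tr := pstep^[len x] (node leaf (node x leaf))

theorem FP.parseT' {F : Tr → Tr} (hF : FP O F) : FP O (fun v => parseT (F v)) := by
  have hd : FP O pstep := by
    unfold pstep tt
    (repeat (first | with_reducible exact FP.id' | assumption | with_reducible apply FP.fst' | with_reducible apply FP.snd' | with_reducible apply FP.node' | with_reducible apply FP.query' | with_reducible apply FP.ite' | with_reducible exact FP.const' _))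
  refine FP.iterate_add hd hF (FP.node' FP.leaf' (FP.node' hF FP.leaf')) 10 (fun x => ?_)
  unfold pstep
  split_ifs with h1 h2 h3
  · omega
  · simp only [size, tt]
    have a1 := size_snd_le (fst (snd x))
    have a2 : size (fst (snd x)) + size (fst x) ≤ size x + 1 := by
      cases x with
      | leaf => simp [size]
      | node p q =>
        have := size_fst_le q
        simp only [snd_node, fst_node, size]; omega
    omega
  · simp only [size]
    have a1 := size_snd_le (fst (snd x))
    have a2 : size (fst (snd x)) + size (fst x) ≤ size x + 1 := by
      cases x with
      | leaf => simp [size]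
      | node p q =>
        have := size_fst_le q
        simp only [snd_node, fst_node, size]; omega
    omega
  · omega

theorem pstep_done (n : ℕ) (c r : Tr) : pstep^[n] (node c (node r tt)) = node c (node r tt) := by
  induction n with
  | zero => rfl
  | succ n ih =>
    rw [Function.iterate_succ_apply]
    have : pstep (node c (node r tt)) = node c (node r tt) := by simp [pstep]
    rw [this, ih]

theorem parseT_aux (x : List Bool) : ∀ m, pstep^[x.length] (node (num m) (node (enc x) leaf)) =
    match parse x with
    | none => node (num (m + x.length)) (node leaf leaf)
    | some (b, u) => node (num (m + b)) (node (enc u) tt) := by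
  induction x with
  | nil => intro m; simp [parse, enc]
  | cons c x ih =>
    intro m
    rw [List.length_cons, Function.iterate_succ_apply]
    cases c with
    | false =>
      have : pstep (node (num m) (node (enc (false :: x)) leaf)) =
          node (num m) (node (enc x) tt) := by simp [pstep, enc, bit]
      rw [this, pstep_done]
      simp [parse]
    | true =>
      have : pstep (node (num m) (node (enc (true :: x)) leaf)) =
          node (num (m + 1)) (node (enc x) leaf) := by simp [pstep, enc, bit, num]
      rw [this, ih]
      simp only [parse]
      cases parse x with
      | none => simp only [Option.map_none]; congr 2; omega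
      | some p => simp only [Option.map_some]; congr 2; omega

theorem parseT_enc (x : List Bool) : parseT (enc x) =
    match parse x with
    | none => node (num x.length) (node leaf leaf)
    | some (b, u) => node (num b) (node (enc u) tt) := by
  have := parseT_aux x 0
  rw [parseT, len_enc]
  simpa [num] using this

/-! ### reverse Polish notation -/

/-- one step of the decoder, semantics -/
def rstep (st : Tr) (b : Bool) : Tr :=
  if b then node (node (fst st) (fst (snd st))) (snd (snd st)) else node leaf st

/-- the tree described by a string in reverse Polish notation -/
def decode (u : List Bool) : Tr := fst (u.foldl rstep leaf)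

/-- one step of the decoder, states `node rest stack` -/
def rstepT (s : Tr) : Tr :=
  if fst (fst s) = leaf then node (snd (fst s)) (node leaf (snd s))
  else node (snd (fst s)) (node (node (fst (snd s)) (fst (snd (snd s)))) (snd (snd (snd s))))

/-- the decoding program -/
def decodeT (u : Tr) : Tr := fst (snd (rstepT^[len u] (node u leaf)))

theorem FP.decodeT' {F : Tr → Tr} (hF : FP O F) : FP O (fun v => decodeT (F v)) := by
  have hd : FP O rstepT := by
    unfold rstepT
    (repeat (first | with_reducible exact FP.id' | assumption | with_reducible apply FP.fst' | with_reducible apply FP.snd' | with_reducible apply FP.node' | with_reducible apply FP.query' | with_reducible apply FP.ite' | with_reducible exact FP.const' _))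
  refine FP.fst' (FP.snd' (FP.iterate_add hd hF (FP.node' hF FP.leaf') 10 (fun x => ?_)))
  have a1 := size_snd_le (fst x)
  have a2 : size (fst x) + size (snd x) ≤ size x + 1 := by
    cases x with
    | leaf => simp [size]
    | node p q => simp [size]; omega
  have a3 : size (fst (snd x)) + size (snd (snd x)) ≤ size (snd x) + 1 := by
    cases snd x with
    | leaf => simp [size]
    | node p q => simp [size]; omega
  have a4 : size (fst (snd (snd x))) + size (snd (snd (snd x))) ≤ size (snd (snd x)) + 1 := by
    cases snd (snd x) with
    | leaf => simp [size]
    | node p q => simp [size]; omega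
  unfold rstepT
  split_ifs <;> simp only [size] <;> omega

theorem rstepT_iter (u : List Bool) : ∀ st, rstepT^[u.length] (node (enc u) st) =
    node leaf (u.foldl rstep st) := by
  induction u with
  | nil => intro st; rfl
  | cons b u ih =>
    intro st
    rw [List.length_cons, Function.iterate_succ_apply]
    have : rstepT (node (enc (b :: u)) st) = node (enc u) (rstep st b) := by
      cases b <;> simp [rstepT, rstep, enc, bit]
    rw [this, ih, List.foldl_cons]

@[simp] theorem decodeT_enc (u : List Bool) : decodeT (enc u) = decode u := by
  rw [decodeT, len_enc, rstepT_iter]
  rfl

/-- a string describing a tree -/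
def rpn : Tr → List Bool
  | leaf => [false]
  | node a b => rpn b ++ rpn a ++ [true]

theorem foldl_rpn (t : Tr) : ∀ st, (rpn t).foldl rstep st = node t st := by
  induction t with
  | leaf => intro st; simp [rpn, rstep]
  | node a b iha ihb => intro st; simp [rpn, List.foldl_append, iha, ihb, rstep]

theorem decode_pad (n : ℕ) (t : Tr) : decode (List.replicate n false ++ rpn t) = t := by
  rw [decode, List.foldl_append, foldl_rpn, fst_node]

/-! ### prefixing ones and querying -/

/-- put `len w` ones in front -/
def onesPre (w s : Tr) : Tr := (fun s => node tt s)^[len w] s

theorem FP.onesPre' {F G : Tr → Tr} (hF : FP O F) (hG : FP O G) :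
    FP O (fun v => onesPre (F v) (G v)) := by
  refine FP.iterate_add (F := fun s => node tt s) (FP.node' (FP.const' _) (by (repeat (first | with_reducible exact FP.id' | assumption | with_reducible apply FP.fst' | with_reducible apply FP.snd' | with_reducible apply FP.node' | with_reducible apply FP.query' | with_reducible apply FP.ite' | with_reducible exact FP.const' _)))) hF hG 4
    (fun x => ?_)
  simp only [size, tt]; omega

theorem iter_ones (n : ℕ) (s : List Bool) :
    (fun s => node tt s)^[n] (enc s) = enc (List.replicate n true ++ s) := by
  induction n with
  | zero => simp
  | succ n ih => rw [Function.iterate_succ_apply', ih]; rfl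

theorem onesPre_enc (w : Tr) (s : List Bool) :
    onesPre w (enc s) = enc (List.replicate (len w) true ++ s) := iter_ones _ _

/-- one step of the test that all queries `false :: (1^j ++ w)` are answered yes -/
def qstep (O : List Bool → Bool) (s : Tr) : Tr :=
  node (node tt (fst s)) (if snd s = leaf then leaf else bit (O (dec (node leaf (fst s)))))

/-- the test that all queries `false :: (1^j ++ w)` for `j < len m` are answered yes -/
def allQ (O : List Bool → Bool) (m w : Tr) : Tr := snd ((qstep O)^[len m] (node w tt))

theorem FP.allQ' {F G : Tr → Tr} (hF : FP O F) (hG : FP O G) :
    FP O (fun v => allQ O (F v) (G v)) := by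
  have hd : FP O (qstep O) := by
    unfold qstep
    refine FP.node' (FP.node' (FP.const' _) (by (repeat (first | with_reducible exact FP.id' | assumption | with_reducible apply FP.fst' | with_reducible apply FP.snd' | with_reducible apply FP.node' | with_reducible apply FP.query' | with_reducible apply FP.ite' | with_reducible exact FP.const' _)))) (by (repeat (first | with_reducible exact FP.id' | assumption | with_reducible apply FP.fst' | with_reducible apply FP.snd' | with_reducible apply FP.node' | with_reducible apply FP.query' | with_reducible apply FP.ite' | with_reducible exact FP.const' _)))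
  refine FP.snd' (FP.iterate_add hd hF (FP.node' hG (FP.const' _)) 10 (fun x => ?_))
  have hb := size_bit_le (O (dec (node leaf (fst x))))
  have a2 : size (fst x) + size (snd x) ≤ size x + 1 := by
    cases x with
    | leaf => simp [size]
    | node p q => simp [size]; omega
  unfold qstep
  split_ifs <;> simp only [size, tt] at * <;> omega

theorem qstep_node (w f : Tr) : qstep O (node w f) =
    node (node tt w) (if f = leaf then leaf else bit (O (dec (node leaf w)))) := rfl

theorem allQ_iter (n : ℕ) (w : Tr) : (qstep O)^[n] (node w tt) =
    node ((fun s => node tt s)^[n] w)
      (bit (decide (∀ j < n, O (false :: (List.replicate j true ++ dec w)) = true))) := by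
  have hdec : ∀ n, dec ((fun s => node tt s)^[n] w) = List.replicate n true ++ dec w := by
    intro n
    induction n with
    | zero => simp
    | succ n ih =>
      rw [Function.iterate_succ_apply', List.replicate_succ, List.cons_append, ← ih]
      show decide (tt ≠ leaf) :: _ = _
      simp
  induction n with
  | zero => simp [bit_true]
  | succ n ih =>
    rw [Function.iterate_succ_apply', ih, qstep_node,
      Function.iterate_succ_apply' (fun s => node tt s)]
    congr 1
    have e : dec (node leaf ((fun s => node tt s)^[n] w)) =
        false :: (List.replicate n true ++ dec w) := by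
      rw [← hdec n]
      show decide (leaf ≠ leaf) :: _ = _
      simp
    rw [e]
    by_cases h : ∀ j < n, O (false :: (List.replicate j true ++ dec w)) = true
    · rw [decide_eq_true h, bit_true, if_neg tt_ne]
      congr 1
      rw [Bool.eq_iff_iff, decide_eq_true_eq]
      constructor
      · intro h1 j hj
        rcases Nat.lt_or_ge j n with h2 | h2
        · exact h j h2
        · have : j = n := by omega
          rw [this]; exact h1
      · intro h1; exact h1 n (by omega)
    · rw [decide_eq_false h, bit_false, if_pos rfl]
      rw [decide_eq_false (fun h1 => h (fun j hj => h1 j (by omega))), bit_false]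

theorem allQ_eq (m w : Tr) : allQ O m w =
    bit (decide (∀ j < len m, O (false :: (List.replicate j true ++ dec w)) = true)) := by
  rw [allQ, allQ_iter, snd_node]

/-! ### normalisation of strings -/

/-- one step of the reversal -/
def nstep (s : Tr) : Tr :=
  if fst s = leaf then s
  else node (snd (fst s)) (node (if fst (fst s) = leaf then leaf else tt) (snd s))

/-- reversal and normalisation -/
def revN (v : Tr) : Tr := snd (nstep^[len v] (node v leaf))

theorem FP.revN' {F : Tr → Tr} (hF : FP O F) : FP O (fun v => revN (F v)) := by
  have hd : FP O nstep := by
    unfold nstep tt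
    (repeat (first | with_reducible exact FP.id' | assumption | with_reducible apply FP.fst' | with_reducible apply FP.snd' | with_reducible apply FP.node' | with_reducible apply FP.query' | with_reducible apply FP.ite' | with_reducible exact FP.const' _))
  refine FP.snd' (FP.iterate_add hd hF (FP.node' hF FP.leaf') 10 (fun x => ?_))
  have a1 := size_snd_le (fst x)
  have a2 : size (fst x) + size (snd x) ≤ size x + 1 := by
    cases x with
    | leaf => simp [size]
    | node p q => simp [size]; omega
  unfold nstep
  split_ifs <;> first | omega | (simp only [size, tt]; omega)

theorem nstep_iter (v : Tr) : ∀ acc, nstep^[len v] (node v (enc acc)) =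
    node leaf (enc ((dec v).reverse ++ acc)) := by
  induction v with
  | leaf => intro acc; simp [len, dec]
  | node a b _ ihb =>
    intro acc
    rw [len, Function.iterate_succ_apply]
    have : nstep (node (node a b) (enc acc)) = node b (enc ((decide (a ≠ leaf)) :: acc)) := by
      by_cases h : a = leaf
      · subst h; simp [nstep, enc, bit]
      · simp [nstep, enc, bit, h, tt]
    rw [this, ihb]
    simp [dec]

theorem revN_eq (v : Tr) : revN v = enc (dec v).reverse := by
  have := nstep_iter v []
  simp only [enc] at this
  rw [revN, this]
  simp

/-- normalisation -/
def norm (v : Tr) : Tr := revN (revN v)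

@[simp] theorem norm_eq (v : Tr) : norm v = enc (dec v) := by
  rw [norm, revN_eq, revN_eq]
  simp

theorem FP.norm' {F : Tr → Tr} (hF : FP O F) : FP O (fun v => norm (F v)) :=
  FP.revN' (FP.revN' hF)

/-- polynomial time relations as functions on trees -/
theorem FP.rel {R : List Bool → List Bool → Bool} (hR : PolyTimeRel O R) {F G : Tr → Tr}
    (hF : FP O F) (hG : FP O G) : FP O (fun v => bit (R (dec (F v)) (dec (G v)))) := by
  have key : FP O (fun v => bit (R (dec (fst v)) (dec (snd v)))) := by
    obtain ⟨c, q, hc⟩ := hR
    obtain ⟨c', q', hc'⟩ := FP.node' (O := O) (FP.norm' (FP.fst' FP.id'))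
      (FP.norm' (FP.snd' FP.id'))
    refine ⟨Prog.comp c c', q' + q.comp (2 * Polynomial.X) + Polynomial.X + 1, fun v => ?_⟩
    obtain ⟨t1, ht1, he1⟩ := hc' v
    simp only [norm_eq] at he1
    obtain ⟨t2, ht2, he2⟩ := hc (dec (fst v)) (dec (snd v))
    refine ⟨_, ?_, Eval.comp he1 he2⟩
    simp only [Polynomial.eval_add, Polynomial.eval_comp, Polynomial.eval_X, Polynomial.eval_one,
      Polynomial.eval_mul, Polynomial.eval_ofNat]
    have h1 : (dec (fst v)).length + (dec (snd v)).length ≤ 2 * size v := by
      rw [length_dec, length_dec]
      have a1 := len_le_size (fst v)
      have a2 := len_le_size (snd v)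
      have a3 := size_fst_le v
      have a4 := size_snd_le v
      omega
    have h2 := poly_mono q h1
    omega
  exact FP.comp' (F := fun v => bit (R (dec (fst v)) (dec (snd v)))) key (FP.node' hF hG)

/-- polynomials with natural coefficients can be evaluated in unary -/
theorem exists_polyT (p : Polynomial ℕ) : ∃ P : Tr → Tr, (∀ v, P v = num (p.eval (len v))) ∧
    ∀ (O : List Bool → Bool) (F : Tr → Tr), FP O F → FP O (fun v => P (F v)) := by
  induction p using Polynomial.induction_on' with
  | add p q hp hq =>
    obtain ⟨P, h1, h2⟩ := hp
    obtain ⟨Q, h3, h4⟩ := hq
    refine ⟨fun v => addU (P v) (Q v), fun v => ?_, fun O F hF => FP.addU' (h2 O F hF) (h4 O F hF)⟩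
    simp only [h1, h3, addU_num, Polynomial.eval_add]
  | monomial n c =>
    refine ⟨fun v => mulU (num c) (powU n v), fun v => ?_,
      fun O F hF => FP.mulU' (FP.const' _) (FP.powU' n hF)⟩
    simp [len_num]

end Pool.Agent.H88.RO
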